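import Pool.Agent.H64.Col.Defs

/-!
# MP_afdf72_co, locally bounded colourings: the law of the components (helper38)

A copy of the second half of `H64.Col.Defs` with one more parameter `m`: at every position each colour occurs
at most `m` times, and the rainbow part of a density factor is divided by `m`.
-/

namespace H38.Col2

open Finset H64.Col

/-- locally `m`-bounded colouring: at every vertex each colour occurs at most `m` times -/
def LB {V κ : Type} (G : SimpleGraph V) (χ : V → V → κ) (m : ℕ) : Prop :=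
  ∀ (x : V) (S : Finset V), (∀ y ∈ S, G.Adj x y) → (∀ y ∈ S, ∀ z ∈ S, χ x y = χ x z) → S.card ≤ m

variable {τ P κ : Type} [Fintype τ] [DecidableEq τ] [Fintype P] [DecidableEq P]

/-- Data of the random placement of the components of `T[F]`.
`F` the free vertices, `ref` the neighbour towards the core, `lev` the distance to the core vertex,
`rho` the root of the component, `W` the kernel, `g ρ` the density of the root, `gr ρ` its rainbow
part, `col` colours between positions, `rcol ρ y` the colour of the edge from the core vertex of `ρ`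
to the position `y`, `m` the bound for the number of edges of one colour at a vertex. -/
structure LawData (τ P κ : Type) where
  F : Finset τ
  ref : τ → τ
  lev : τ → ℕ
  rho : τ → τ
  W : P → P → ℝ
  g : τ → P → ℝ
  gr : τ → P → ℝ
  col : P → P → κ
  rcol : τ → P → κ
  m : ℕ

namespace LawData

variable (L : LawData τ P κ)

/-- the roots -/
def roots : Finset τ := L.F.filter (fun v => L.lev v = 1)

/-- the component of root `ρ` -/
def D (ρ : τ) : Finset τ := L.F.filter (fun v => L.rho v = ρ)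

/-- density factor of vertex `v` -/
noncomputable def dt (v : τ) (ψ : τ → P) : ℝ :=
  if L.lev v = 1 then L.g v (ψ v) else L.W (ψ (L.ref v)) (ψ v)

/-- rainbow part of the density factor -/
noncomputable def dr (v : τ) (ψ : τ → P) : ℝ :=
  if L.lev v = 1 then L.gr v (ψ v) else min (L.W (ψ (L.ref v)) (ψ v)) 1 / (L.m : ℝ)

/-- colour of the edge from `v` towards the core -/
def clr (v : τ) (ψ : τ → P) : κ :=
  if L.lev v = 1 then L.rcol v (ψ v) else L.col (ψ (L.ref v)) (ψ v)

/-- total density of the component of `ρ` with rainbow set `A` -/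
noncomputable def dens (ρ : τ) (ψ : τ → P) (A : Finset τ) : ℝ :=
  (∏ v ∈ A, L.dr v ψ) * ∏ v ∈ L.D ρ \ A, (L.dt v ψ - L.dr v ψ)

/-- expectation of a function of (component, placement, rainbow set), all components summed -/
noncomputable def Ex (f : τ → (τ → P) → Finset τ → ℝ) : ℝ :=
  ∑ ρ ∈ L.roots, avF (fun ψ => ∑ A ∈ (L.D ρ).powerset, L.dens ρ ψ A * f ρ ψ A)

/-- structural conditions -/
structure OK (K : ℕ) (C2 : ℝ) : Prop where
  lev_pos : ∀ v ∈ L.F, 1 ≤ L.lev v
  lev_le : ∀ v ∈ L.F, L.lev v ≤ K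
  root : ∀ v ∈ L.F, L.lev v = 1 → L.rho v = v
  step : ∀ v ∈ L.F, L.lev v ≠ 1 →
    L.ref v ∈ L.F ∧ L.lev v = L.lev (L.ref v) + 1 ∧ L.rho v = L.rho (L.ref v)
  card_D : ∀ ρ, (L.D ρ).card ≤ K
  W_nonneg : ∀ x y, 0 ≤ L.W x y
  W_le : ∀ x y, L.W x y ≤ C2
  W_row : ∀ x, avP (fun y => L.W x y) = 1
  W_col : ∀ y, avP (fun x => L.W x y) = 1
  gr_nonneg : ∀ ρ y, 0 ≤ L.gr ρ y
  gr_le : ∀ ρ y, L.gr ρ y ≤ L.g ρ y
  g_le : ∀ ρ y, L.g ρ y ≤ C2
  g_avg : ∀ ρ, avP (L.g ρ) ≤ 1
  col_symm : ∀ x y, L.col x y = L.col y x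
  m_pos : 1 ≤ L.m
  col_bd : ∀ x (S : Finset P), (∀ y ∈ S, L.W x y ≠ 0) →
    (∀ y ∈ S, ∀ z ∈ S, L.col x y = L.col x z) → S.card ≤ L.m
  W_symm : ∀ x y, L.W x y = L.W y x
  W_diag : ∀ x, L.W x x = 0
  rcol_bd : ∀ ρ (S : Finset P), (∀ y ∈ S, L.g ρ y ≠ 0) →
    (∀ y ∈ S, ∀ z ∈ S, L.rcol ρ y = L.rcol ρ z) → S.card ≤ L.m

/-- `f ρ ψ A` depends on `ψ` only through the component of `ρ` -/
def Local (f : τ → (τ → P) → Finset τ → ℝ) : Prop :=
  ∀ ρ ψ ψ' A, (∀ v ∈ L.D ρ, ψ v = ψ' v) → f ρ ψ A = f ρ ψ' A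

end LawData


end H38.Col2
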