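import Pool.Agent.H64.Col.C2_Step
import Pool.Agent.H38.Col2.Defs

/-! C2: one step of the method of conditional expectations, for locally `m`-bounded colourings.
As `H64.Col.C2_Step`, the rainbow part `rbA` of the root density is divided by `m`; `c'` is a second lower
bound for the degrees, used only for the total of the rainbow part. -/

namespace H38.Col2

open H64.Col
open Finset

set_option linter.unusedSectionVars false

variable {V : Type} [Fintype V] [DecidableEq V]

/-- the rainbow part of the root density -/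
noncomputable def rbB (m : ℕ) (G : SimpleGraph V) [DecidableRel G.Adj] (A : Finset V) (h y : V) : ℝ :=
  rbA G A h y / (m : ℝ)

theorem rbB_nonneg (m : ℕ) (G : SimpleGraph V) [DecidableRel G.Adj] (A : Finset V) (h y : V) :
    0 ≤ rbB m G A h y := div_nonneg (rbA_nonneg h y) (Nat.cast_nonneg m)

theorem rbB_le_rbA {m : ℕ} (hm : 1 ≤ m) (G : SimpleGraph V) [DecidableRel G.Adj] (A : Finset V)
    (h y : V) : rbB m G A h y ≤ rbA G A h y :=
  div_le_self (rbA_nonneg h y) (by exact_mod_cast hm)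

theorem rbB_le {m : ℕ} (hm : 1 ≤ m) {G : SimpleGraph V} [DecidableRel G.Adj] {A : Finset V} {c : ℝ}
    (hS : StepHyp G A c) (h : V) (hh : h ∈ A) (y : V) : rbB m G A h y ≤ qA G A h y :=
  (rbB_le_rbA hm G A h y).trans (rbA_le hS h hh y)

private theorem c2_Acard_pos {G : SimpleGraph V} [DecidableRel G.Adj] {A : Finset V} {c : ℝ}
    (hS : StepHyp G A c) : (0 : ℝ) < (A.card : ℝ) := by
  have hn : (0 : ℝ) < Fintype.card V := by exact_mod_cast hS.hn
  obtain ⟨y0⟩ : Nonempty V := Fintype.card_pos_iff.1 hS.hn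
  have h1 := hS.hA y0
  have h2 : (mA G A y0 : ℝ) ≤ (A.card : ℝ) := by
    unfold mA
    exact_mod_cast Finset.card_filter_le A _
  have h3 : 0 < (c - 1 / 2) * (Fintype.card V : ℝ) := mul_pos (by linarith [hS.hc]) hn
  linarith

private theorem c2_P_rb {G : SimpleGraph V} [DecidableRel G.Adj] {A : Finset V} {c : ℝ}
    (hS : StepHyp G A c) (h y : V) :
    PA G A h * rbA G A h y
      = if h ∈ A ∧ G.Adj h y then 1 / ((Fintype.card V : ℝ) * A.card) else 0 := by
  have hn : (0 : ℝ) < Fintype.card V := by exact_mod_cast hS.hn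
  have hAc := c2_Acard_pos hS
  by_cases hA : h ∈ A
  · have hP' : 0 < PA G A h := by
      have := PA_lower hS h hA
      have h4 : 0 < c / (Fintype.card V : ℝ) := div_pos (by linarith [hS.hc]) hn
      linarith
    by_cases hy : G.Adj h y
    · simp only [rbA, hA, hy, if_true, and_self]
      field_simp
    · simp [rbA, hy]
  · simp [PA, hA]

theorem rbB_mean {m : ℕ} (hm : 1 ≤ m) {G : SimpleGraph V} [DecidableRel G.Adj] {A : Finset V}
    {c : ℝ} (hS : StepHyp G A c) {κ : Type} [DecidableEq κ] (χ : V → V → κ)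
    (hχ : LB G χ m) (k : κ) :
    ∑ h, PA G A h * (∑ y, if χ h y = k then rbB m G A h y else 0) ≤ 1 / (Fintype.card V : ℝ) := by
  have hn : (0 : ℝ) < Fintype.card V := by exact_mod_cast hS.hn
  have hAc := c2_Acard_pos hS
  have hm0 : (0 : ℝ) < (m : ℝ) := by exact_mod_cast (by omega : 0 < m)
  calc ∑ h, PA G A h * (∑ y, if χ h y = k then rbB m G A h y else 0)
      ≤ ∑ h, (if h ∈ A then 1 / ((Fintype.card V : ℝ) * A.card) else 0) := by
        refine sum_le_sum (fun h _ => ?_)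
        rw [mul_sum]
        have h1 : ∀ y, PA G A h * (if χ h y = k then rbB m G A h y else 0)
            = if h ∈ A ∧ G.Adj h y ∧ χ h y = k then
                1 / ((Fintype.card V : ℝ) * A.card) / (m : ℝ) else 0 := by
          intro y
          by_cases hk : χ h y = k
          · simp only [hk, if_true, and_true]
            unfold rbB
            rw [mul_div_assoc', c2_P_rb hS h y]
            split_ifs
            · rfl
            · rw [zero_div]
          · simp [hk]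
        rw [sum_congr rfl (fun y _ => h1 y)]
        by_cases hA : h ∈ A
        · simp only [hA, true_and, if_true]
          rw [← sum_filter, sum_const, nsmul_eq_mul]
          have h2 : (univ.filter (fun y => G.Adj h y ∧ χ h y = k)).card ≤ m :=
            hχ h _ (fun y hy => (mem_filter.1 hy).2.1)
              (fun y hy z hz => (mem_filter.1 hy).2.2.trans (mem_filter.1 hz).2.2.symm)
          have h3 : ((univ.filter (fun y => G.Adj h y ∧ χ h y = k)).card : ℝ) ≤ m := by
            exact_mod_cast h2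
          calc _ ≤ (m : ℝ) * (1 / ((Fintype.card V : ℝ) * A.card) / (m : ℝ)) := by gcongr
            _ = _ := by field_simp
        · simp [hA]
    _ = 1 / (Fintype.card V : ℝ) := by
        rw [← sum_filter, sum_const, nsmul_eq_mul]
        have h4 : (univ.filter (fun h => h ∈ A)) = A := by
          ext h
          simp
        rw [h4]
        field_simp

theorem rbB_total {m : ℕ} (hm : 1 ≤ m) {G : SimpleGraph V} [DecidableRel G.Adj] {A : Finset V}
    {c : ℝ} (hS : StepHyp G A c) (c' : ℝ)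
    (hc' : ∀ x, c' * (Fintype.card V : ℝ) ≤ (G.degree x : ℝ)) :
    c' / (m : ℝ) ≤ ∑ h, PA G A h * ∑ y, rbB m G A h y := by
  have hn : (0 : ℝ) < Fintype.card V := by exact_mod_cast hS.hn
  have hAc := c2_Acard_pos hS
  have hm0 : (0 : ℝ) < (m : ℝ) := by exact_mod_cast (by omega : 0 < m)
  have h1 : ∀ h, (if h ∈ A then c' / (m : ℝ) / (A.card : ℝ) else 0) ≤
      PA G A h * ∑ y, rbB m G A h y := by
    intro h
    have e : PA G A h * ∑ y, rbB m G A h y = (PA G A h * ∑ y, rbA G A h y) / (m : ℝ) := by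
      unfold rbB
      rw [← Finset.sum_div, mul_div_assoc]
    rw [e, mul_sum, sum_congr rfl (fun y _ => c2_P_rb hS h y)]
    by_cases hA : h ∈ A
    · simp only [hA, true_and, if_true]
      have e2 : (∑ y, (if G.Adj h y then 1 / ((Fintype.card V : ℝ) * A.card) else 0)) =
          (G.degree h : ℝ) * (1 / ((Fintype.card V : ℝ) * A.card)) := by
        rw [← sum_filter, sum_const, nsmul_eq_mul, ← SimpleGraph.card_neighborFinset_eq_degree]
        congr 2
        congr 1
        ext y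
        simp
      rw [e2, div_div, mul_comm (m : ℝ) (A.card : ℝ), ← div_div]
      apply div_le_div_of_nonneg_right _ hm0.le
      have := hc' h
      rw [div_le_iff₀ hAc]
      calc c' = c' * (Fintype.card V : ℝ) / (Fintype.card V : ℝ) := by field_simp
        _ ≤ (G.degree h : ℝ) / (Fintype.card V : ℝ) := by gcongr
        _ = _ := by field_simp
    · simp [hA]
  calc c' / (m : ℝ) = ∑ h, (if h ∈ A then c' / (m : ℝ) / (A.card : ℝ) else 0) := by
        rw [← sum_filter, sum_const, nsmul_eq_mul]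
        have h4 : (univ.filter (fun h => h ∈ A)) = A := by
          ext h
          simp
        rw [h4]
        field_simp
    _ ≤ _ := sum_le_sum (fun h _ => h1 h)

/-- the rainbow density seen by colour `k` -/
noncomputable def rk {κ : Type} [DecidableEq κ] (m : ℕ) (G : SimpleGraph V) [DecidableRel G.Adj]
    (A : Finset V) (χ : V → V → κ) (h : V) (k : κ) : ℝ :=
  ∑ y, if χ h y = k then rbB m G A h y else 0

/-- its mean -/
noncomputable def ek {κ : Type} [DecidableEq κ] (m : ℕ) (G : SimpleGraph V) [DecidableRel G.Adj]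
    (A : Finset V) (χ : V → V → κ) (k : κ) : ℝ :=
  ∑ h, PA G A h * rk m G A χ h k

theorem c2_rk_nonneg {κ : Type} [DecidableEq κ] (m : ℕ) (G : SimpleGraph V) [DecidableRel G.Adj]
    (A : Finset V) (χ : V → V → κ) (h : V) (k : κ) : 0 ≤ rk m G A χ h k := by
  unfold rk
  refine Finset.sum_nonneg fun y _ => ?_
  split_ifs
  · exact rbB_nonneg m G A h y
  · exact le_rfl

/-- for a fixed position each colour is seen at most `m` times -/
theorem c2_rk_le {κ : Type} [DecidableEq κ] {m : ℕ} (hm : 1 ≤ m) (G : SimpleGraph V)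
    [DecidableRel G.Adj] (A : Finset V) (c : ℝ) (hS : StepHyp G A c) (χ : V → V → κ)
    (hχ : LB G χ m) (h : V) (hh : h ∈ A) (k : κ) :
    rk m G A χ h k ≤ 1 / ((c - 1 / 2) * c * (Fintype.card V : ℝ)) := by
  have hm0 : (0 : ℝ) < (m : ℝ) := by exact_mod_cast (by omega : 0 < m)
  have hq0 : (0 : ℝ) ≤ 1 / ((c - 1 / 2) * c * (Fintype.card V : ℝ)) :=
    (c2_qA_nonneg G A h h).trans (qA_upper hS h hh h)
  set q := 1 / ((c - 1 / 2) * c * (Fintype.card V : ℝ)) with hq
  have h1 : ∀ y, (if χ h y = k then rbB m G A h y else 0) ≤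
      if G.Adj h y ∧ χ h y = k then q / (m : ℝ) else 0 := by
    intro y
    by_cases hk : χ h y = k
    · by_cases hadj : G.Adj h y
      · rw [if_pos hk, if_pos ⟨hadj, hk⟩]
        unfold rbB
        exact div_le_div_of_nonneg_right ((rbA_le hS h hh y).trans (qA_upper hS h hh y)) hm0.le
      · rw [if_pos hk, if_neg (fun hh' => hadj hh'.1)]
        unfold rbB rbA
        rw [if_neg hadj, zero_div]
    · rw [if_neg hk, if_neg (fun hh' => hk hh'.2)]
  unfold rk
  refine (Finset.sum_le_sum (fun y _ => h1 y)).trans ?_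
  rw [← sum_filter, sum_const, nsmul_eq_mul]
  have h2 : (univ.filter (fun y => G.Adj h y ∧ χ h y = k)).card ≤ m :=
    hχ h _ (fun y hy => (mem_filter.1 hy).2.1)
      (fun y hy z hz => (mem_filter.1 hy).2.2.trans (mem_filter.1 hz).2.2.symm)
  have h3 : ((univ.filter (fun y => G.Adj h y ∧ χ h y = k)).card : ℝ) ≤ m := by
    exact_mod_cast h2
  calc _ ≤ (m : ℝ) * (q / (m : ℝ)) := by gcongr
    _ = q := by field_simp

theorem c2_rk_sum {κ : Type} [Fintype κ] [DecidableEq κ] (m : ℕ) (G : SimpleGraph V)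
    [DecidableRel G.Adj] (A : Finset V) (χ : V → V → κ) (h : V) :
    ∑ k, rk m G A χ h k = ∑ y, rbB m G A h y := by
  unfold rk
  rw [Finset.sum_comm]
  refine Finset.sum_congr rfl fun y _ => ?_
  rw [Finset.sum_ite_eq]
  simp

theorem c2_R_le {m : ℕ} (hm : 1 ≤ m) (G : SimpleGraph V) [DecidableRel G.Adj]
    (A : Finset V) (c : ℝ) (hS : StepHyp G A c) (h : V) (hh : h ∈ A) :
    ∑ y, rbB m G A h y ≤ 1 := by
  rw [← qA_sum hS h hh]
  exact Finset.sum_le_sum fun y _ => rbB_le hm hS h hh y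

/-- second term -/
theorem c2_T2 {κ : Type} [Fintype κ] [DecidableEq κ] {m : ℕ} (hm : 1 ≤ m) (G : SimpleGraph V) [DecidableRel G.Adj]
    (A : Finset V) (c : ℝ) (hS : StepHyp G A c) (χ : V → V → κ)
    (hχ : LB G χ m) (b : κ → ℝ) (w : ℝ) :
    ∑ h, PA G A h * ∑ k, (b k + w * (rk m G A χ h k - ek m G A χ k)) ^ 2 ≤
      ∑ k, (b k) ^ 2 + w ^ 2 * (1 / ((c - 1 / 2) * c * (Fintype.card V : ℝ))) := by
  set q := 1 / ((c - 1 / 2) * c * (Fintype.card V : ℝ)) with hq
  have h1 : ∑ h, PA G A h * ∑ k, (b k + w * (rk m G A χ h k - ek m G A χ k)) ^ 2 =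
      ∑ k, ∑ h, PA G A h * (b k + w * (rk m G A χ h k - ek m G A χ k)) ^ 2 := by
    rw [Finset.sum_comm]
    exact Finset.sum_congr rfl fun h _ => Finset.mul_sum _ _ _
  rw [h1]
  have h2 : ∀ k, ∑ h, PA G A h * (b k + w * (rk m G A χ h k - ek m G A χ k)) ^ 2 ≤
      (b k) ^ 2 + w ^ 2 * ∑ h, PA G A h * rk m G A χ h k ^ 2 := fun k =>
    c2_avg_sq _ (fun h => rk m G A χ h k) (PA_sum hS) (b k) w _ rfl
  refine (Finset.sum_le_sum fun k _ => h2 k).trans ?_
  rw [Finset.sum_add_distrib, ← Finset.mul_sum]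
  have h3 : ∑ k, ∑ h, PA G A h * rk m G A χ h k ^ 2 ≤ q := by
    rw [Finset.sum_comm]
    have h4 : ∑ h, ∑ k, PA G A h * rk m G A χ h k ^ 2 =
        ∑ h, PA G A h * ∑ k, rk m G A χ h k ^ 2 :=
      Finset.sum_congr rfl fun h _ => (Finset.mul_sum _ _ _).symm
    rw [h4]
    refine c2_avg_le G A c hS _ q fun h hh => ?_
    have hq0 : (0 : ℝ) ≤ q := (c2_qA_nonneg G A h h).trans (qA_upper hS h hh h)
    calc ∑ k, rk m G A χ h k ^ 2 ≤ ∑ k, q * rk m G A χ h k := by
          refine Finset.sum_le_sum fun k _ => ?_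
          have h5 := c2_rk_le hm G A c hS χ hχ h hh k
          have h6 := c2_rk_nonneg m G A χ h k
          rw [sq]
          exact mul_le_mul_of_nonneg_right h5 h6
      _ = q * ∑ y, rbB m G A h y := by rw [← Finset.mul_sum, c2_rk_sum]
      _ ≤ q * 1 := mul_le_mul_of_nonneg_left (c2_R_le hm G A c hS h hh) hq0
      _ = q := mul_one q
  have := mul_le_mul_of_nonneg_left h3 (sq_nonneg w)
  linarith

/-- third term -/
theorem c2_T3 {m : ℕ} (hm : 1 ≤ m) (G : SimpleGraph V) [DecidableRel G.Adj] (A : Finset V) (c : ℝ)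
    (hS : StepHyp G A c) (s w : ℝ) :
    ∑ h, PA G A h * (s + w * ((∑ y, rbB m G A h y) - ∑ h, PA G A h * ∑ y, rbB m G A h y)) ^ 2 ≤
      s ^ 2 + w ^ 2 := by
  refine (c2_avg_sq _ (fun h => ∑ y, rbB m G A h y) (PA_sum hS) s w _ rfl).trans ?_
  have h1 : ∑ h, PA G A h * (∑ y, rbB m G A h y) ^ 2 ≤ 1 := by
    refine c2_avg_le G A c hS _ 1 fun h hh => ?_
    have h2 := c2_R_le hm G A c hS h hh
    have h3 : 0 ≤ ∑ y, rbB m G A h y := Finset.sum_nonneg fun y _ => rbB_nonneg m G A h y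
    exact pow_le_one₀ h3 h2
  have := mul_le_mul_of_nonneg_left h1 (sq_nonneg w)
  linarith

theorem step {κ : Type} [Fintype κ] [DecidableEq κ] {m : ℕ} (hm : 1 ≤ m) (c' : ℝ)
    (G : SimpleGraph V) [DecidableRel G.Adj]
    (hc' : ∀ x, c' * (Fintype.card V : ℝ) ≤ (G.degree x : ℝ))
    (A : Finset V) (c : ℝ) (hS : StepHyp G A c) (χ : V → V → κ)
    (hχ : LB G χ m)
    (K : ℕ) (w : ℕ → ℝ) (hw : ∀ j, 0 ≤ w j) (D lam : ℝ) (hD : 0 ≤ D) (hlam : 0 ≤ lam)
    (hlD : lam * D ≤ 1)
    (c1 c2 c3 c4 : ℝ) (h1 : 0 ≤ c1) (h2 : 0 ≤ c2) (h3 : 0 ≤ c3) (h4 : 0 ≤ c4)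
    (a : ℕ → V → ℝ) (b : κ → ℝ) (s : ℝ) (E : V → ℝ) (hE : ∀ x, 0 ≤ E x) :
    ∃ h ∈ A, ∃ rbar : ℝ, c' / (m : ℝ) ≤ rbar ∧
      c1 * (∑ j ∈ range K, ∑ y, (a j y + w j * (qA G A h y - 1 / (Fintype.card V : ℝ))) ^ 2)
      + c2 * (∑ k, (b k + w 0 * (rk m G A χ h k - ek m G A χ k)) ^ 2)
      + c3 * (s + w 0 * ((∑ y, rbB m G A h y) - rbar)) ^ 2
      + c4 * (∑ x, E x * Real.exp (lam * (c * (c - 1 / 2) / 2 * D
          - D * (if G.Adj h x then 1 else 0))))
      ≤ c1 * (∑ j ∈ range K, ∑ y, (a j y) ^ 2) + c2 * (∑ k, (b k) ^ 2) + c3 * s ^ 2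
        + c4 * (∑ x, E x)
        + (c1 * (∑ j ∈ range K, (w j) ^ 2) + c2 * (w 0) ^ 2)
            / ((c - 1 / 2) * c * (Fintype.card V : ℝ)) + c3 * (w 0) ^ 2 := by
  set rbar := ∑ h, PA G A h * ∑ y, rbB m G A h y with hrbar
  set q := 1 / ((c - 1 / 2) * c * (Fintype.card V : ℝ)) with hq
  obtain ⟨h, hh, hle⟩ := c2_exists G A c hS (fun h =>
      c1 * (∑ j ∈ range K, ∑ y, (a j y + w j * (qA G A h y - 1 / (Fintype.card V : ℝ))) ^ 2)
      + c2 * (∑ k, (b k + w 0 * (rk m G A χ h k - ek m G A χ k)) ^ 2)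
      + c3 * (s + w 0 * ((∑ y, rbB m G A h y) - rbar)) ^ 2
      + c4 * (∑ x, E x * Real.exp (lam * (c * (c - 1 / 2) / 2 * D
          - D * (if G.Adj h x then 1 else 0)))))
      (c1 * (∑ j ∈ range K, ∑ y, (a j y) ^ 2) + c2 * (∑ k, (b k) ^ 2) + c3 * s ^ 2
        + c4 * (∑ x, E x)
        + (c1 * (∑ j ∈ range K, (w j) ^ 2) + c2 * (w 0) ^ 2)
            / ((c - 1 / 2) * c * (Fintype.card V : ℝ)) + c3 * (w 0) ^ 2) (by
    have e1 : ∑ h, PA G A h * (∑ j ∈ range K, ∑ y,
        (a j y + w j * (qA G A h y - 1 / (Fintype.card V : ℝ))) ^ 2) ≤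
        ∑ j ∈ range K, ∑ y, (a j y) ^ 2 + (∑ j ∈ range K, (w j) ^ 2) * q := by
      have e2 : ∑ h, PA G A h * (∑ j ∈ range K, ∑ y,
          (a j y + w j * (qA G A h y - 1 / (Fintype.card V : ℝ))) ^ 2) =
          ∑ j ∈ range K, ∑ h, PA G A h * ∑ y,
            (a j y + w j * (qA G A h y - 1 / (Fintype.card V : ℝ))) ^ 2 := by
        rw [Finset.sum_comm]
        exact Finset.sum_congr rfl fun h _ => Finset.mul_sum _ _ _
      rw [e2, Finset.sum_mul, ← Finset.sum_add_distrib]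
      exact Finset.sum_le_sum fun j _ => c2_T1 G A c hS (a j) (w j)
    have e3 := c2_T2 hm G A c hS χ hχ b (w 0)
    have e4 := c2_T3 hm G A c hS s (w 0)
    have e5 : ∑ h, PA G A h * (∑ x, E x * Real.exp (lam * (c * (c - 1 / 2) / 2 * D
          - D * (if G.Adj h x then 1 else 0)))) ≤ ∑ x, E x := by
      have e6 : ∑ h, PA G A h * (∑ x, E x * Real.exp (lam * (c * (c - 1 / 2) / 2 * D
          - D * (if G.Adj h x then 1 else 0)))) =
          ∑ x, E x * ∑ h, PA G A h * Real.exp (lam * (c * (c - 1 / 2) / 2 * D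
          - D * (if G.Adj h x then 1 else 0))) := by
        have e7 : ∀ h, PA G A h * (∑ x, E x * Real.exp (lam * (c * (c - 1 / 2) / 2 * D
          - D * (if G.Adj h x then 1 else 0)))) = ∑ x, E x * (PA G A h *
            Real.exp (lam * (c * (c - 1 / 2) / 2 * D - D * (if G.Adj h x then 1 else 0)))) := by
          intro h
          rw [Finset.mul_sum]
          exact Finset.sum_congr rfl fun x _ => by ring
        rw [Finset.sum_congr rfl fun h _ => e7 h, Finset.sum_comm]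
        exact Finset.sum_congr rfl fun x _ => (Finset.mul_sum _ _ _).symm
      rw [e6]
      refine Finset.sum_le_sum fun x _ => ?_
      have := mul_le_mul_of_nonneg_left (c2_T4 G A c hS D lam hD hlam hlD x) (hE x)
      linarith
    have e8 : ∑ h, PA G A h *
      (c1 * (∑ j ∈ range K, ∑ y, (a j y + w j * (qA G A h y - 1 / (Fintype.card V : ℝ))) ^ 2)
      + c2 * (∑ k, (b k + w 0 * (rk m G A χ h k - ek m G A χ k)) ^ 2)
      + c3 * (s + w 0 * ((∑ y, rbB m G A h y) - rbar)) ^ 2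
      + c4 * (∑ x, E x * Real.exp (lam * (c * (c - 1 / 2) / 2 * D
          - D * (if G.Adj h x then 1 else 0))))) =
      c1 * (∑ h, PA G A h * (∑ j ∈ range K, ∑ y,
        (a j y + w j * (qA G A h y - 1 / (Fintype.card V : ℝ))) ^ 2)) +
      c2 * (∑ h, PA G A h * ∑ k, (b k + w 0 * (rk m G A χ h k - ek m G A χ k)) ^ 2) +
      c3 * (∑ h, PA G A h * (s + w 0 * ((∑ y, rbB m G A h y) - rbar)) ^ 2) +
      c4 * (∑ h, PA G A h * (∑ x, E x * Real.exp (lam * (c * (c - 1 / 2) / 2 * D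
          - D * (if G.Adj h x then 1 else 0))))) := by
      rw [Finset.mul_sum, Finset.mul_sum, Finset.mul_sum, Finset.mul_sum,
        ← Finset.sum_add_distrib, ← Finset.sum_add_distrib, ← Finset.sum_add_distrib]
      exact Finset.sum_congr rfl fun h _ => by ring
    rw [e8]
    have f1 := mul_le_mul_of_nonneg_left e1 h1
    have f2 := mul_le_mul_of_nonneg_left e3 h2
    have f3 := mul_le_mul_of_nonneg_left e4 h3
    have f4 := mul_le_mul_of_nonneg_left e5 h4
    have f5 : (c1 * (∑ j ∈ range K, (w j) ^ 2) + c2 * (w 0) ^ 2)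
            / ((c - 1 / 2) * c * (Fintype.card V : ℝ)) =
        c1 * ((∑ j ∈ range K, (w j) ^ 2) * q) + c2 * ((w 0) ^ 2 * q) := by
      rw [hq]; ring
    rw [f5]
    linarith)
  exact ⟨h, hh, rbar, rbB_total hm hS c' hc', hle⟩

theorem ek_bounds {κ : Type} [Fintype κ] [DecidableEq κ] {m : ℕ} (hm : 1 ≤ m) (G : SimpleGraph V) [DecidableRel G.Adj]
    (A : Finset V) (c : ℝ) (hS : StepHyp G A c) (χ : V → V → κ)
    (hχ : LB G χ m) (k : κ) :
    0 ≤ ek m G A χ k ∧ ek m G A χ k ≤ 1 / (Fintype.card V : ℝ) := by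
  constructor
  · unfold ek
    exact Finset.sum_nonneg fun h _ => mul_nonneg (PA_nonneg h) (c2_rk_nonneg m G A χ h k)
  · exact rbB_mean hm hS χ hχ k

end H38.Col2
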