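import Pool.Agent.H38.Col2.Defs

/-! E3: the hypergraph. Vertices: components (roots), positions, colours. -/

namespace H38.Col2

open H64.Col
open Finset

variable {τ P κ : Type} [Fintype τ] [DecidableEq τ] [Fintype P] [DecidableEq P]
  [Fintype κ] [DecidableEq κ]

/-- validity of a hyperedge `(ρ, ψ, A)` -/
def LawData.Valid (L : LawData τ P κ) (e : τ × (τ → P) × Finset τ) : Prop :=
  e.1 ∈ L.roots ∧ e.2.2 ⊆ L.D e.1 ∧ Set.InjOn e.2.1 (L.D e.1 : Set τ) ∧
    Set.InjOn (fun v => L.clr v e.2.1) (e.2.2 : Set τ)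

open Classical in
/-- weight of a hyperedge -/
noncomputable def LawData.hw (L : LawData τ P κ) (e : τ × (τ → P) × Finset τ) : ℝ :=
  if L.Valid e then L.dens e.1 e.2.1 e.2.2 / (Fintype.card P : ℝ) ^ Fintype.card τ else 0

open Classical in
/-- vertex set of a hyperedge -/
noncomputable def LawData.hS (L : LawData τ P κ) (e : τ × (τ → P) × Finset τ) :
    Finset (τ ⊕ (P ⊕ κ)) :=
  if L.Valid e then {Sum.inl e.1} ∪ (L.D e.1).image (fun v => Sum.inr (Sum.inl (e.2.1 v)))
    ∪ e.2.2.image (fun v => Sum.inr (Sum.inr (L.clr v e.2.1))) else {Sum.inl e.1}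

theorem hS_card (L : LawData τ P κ) (K : ℕ) (C2 : ℝ) (h : L.OK K C2)
    (e : τ × (τ → P) × Finset τ) : (L.hS e).Nonempty ∧ (L.hS e).card ≤ 2 * K + 1 := by
  classical
  unfold LawData.hS
  by_cases hv : L.Valid e
  · rw [if_pos hv]
    refine ⟨⟨Sum.inl e.1, by simp⟩, ?_⟩
    have h1 := h.card_D e.1
    have h2 := card_le_card hv.2.1
    refine le_trans (card_union_le _ _) ?_
    refine le_trans (Nat.add_le_add (card_union_le _ _) card_image_le) ?_
    refine le_trans (Nat.add_le_add (Nat.add_le_add (le_of_eq (card_singleton _)) card_image_le)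
      le_rfl) ?_
    omega
  · rw [if_neg hv]
    refine ⟨singleton_nonempty _, ?_⟩
    rw [card_singleton]
    omega

end H38.Col2
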