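import Pool.Agent.H38.Col2.E1_Marg
import Pool.Agent.H38.Col2.E2_Dens
import Pool.Agent.H38.Col2.E3_Hyp

/-! E4: loads of the hypergraph (upper bounds: drop validity).
Component: `≤ 1`. Position `y`: `(1/n') ∑_{v∈F} (op^[lev v - 1] g_{rho v}) y` (via `marg_one`, `op_adj`
with `a = n'·1_y`), error by `op_l1`. Colour `k`, levels `≥ 2`: each position has at most one
`k`-partner and `min(W,1) ≤ 1`, so `≤ (1/n'^2) ∑_{v, lev v ≥ 2} ∑_x (op^[lev v - 2] g_{rho v}) x`. -/

namespace H38.Col2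

open H64.Col
open Finset

variable {τ P κ : Type} [Fintype τ] [DecidableEq τ] [Fintype P] [DecidableEq P] [Nonempty P]
  [Fintype κ] [DecidableEq κ]

/-- the level condition (H1) -/
def LawData.H1 (L : LawData τ P κ) (K : ℕ) (ω : ℕ → ℝ) (σ : ℝ) : Prop :=
  ∑ j ∈ range K, ∑ y, |(∑ v ∈ L.F.filter (fun v => L.lev v = j + 1), L.g (L.rho v) y)
    / (Fintype.card P : ℝ) - ω j| ≤ σ * Fintype.card P

/-- the colour condition (H2) for root edges -/
def LawData.H2 (L : LawData τ P κ) (ω : ℕ → ℝ) (σ s0 : ℝ) : Prop :=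
  ∑ k, max ((∑ ρ ∈ L.roots, ∑ y, if L.rcol ρ y = k then L.gr ρ y else 0)
    / (Fintype.card P : ℝ) - ω 0 - s0) 0 ≤ σ * Fintype.card P

/-- the codegree condition (H3) for root edges -/
def LawData.H3 (L : LawData τ P κ) (σ : ℝ) : Prop :=
  ∀ y k, (∑ ρ ∈ L.roots, if L.rcol ρ y = k then L.g ρ y else 0) / (Fintype.card P : ℝ) ≤ σ

omit [Nonempty P] [Fintype κ] [DecidableEq κ] in
theorem E4_Load_rho_mem (L : LawData τ P κ) (K : ℕ) (C2 : ℝ) (h : L.OK K C2) (n : ℕ) :
    ∀ v ∈ L.F, L.lev v ≤ n → L.rho v ∈ L.roots := by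
  induction n with
  | zero =>
    intro v hv hl
    have := h.lev_pos v hv
    omega
  | succ n ih =>
    intro v hv hl
    by_cases h1 : L.lev v = 1
    · rw [h.root v hv h1]
      simp only [LawData.roots, mem_filter]
      exact ⟨hv, h1⟩
    · obtain ⟨ha, hb, hc⟩ := h.step v hv h1
      rw [hc]
      exact ih _ ha (by omega)

omit [Nonempty P] [Fintype κ] [DecidableEq κ] in
theorem E4_Load_sum_roots (L : LawData τ P κ) (K : ℕ) (C2 : ℝ) (h : L.OK K C2) (f : τ → ℝ) :
    ∑ ρ ∈ L.roots, ∑ v ∈ L.D ρ, f v = ∑ v ∈ L.F, f v := by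
  unfold LawData.D
  exact Finset.sum_fiberwise_of_maps_to (fun v hv => E4_Load_rho_mem L K C2 h _ v hv le_rfl) f

/-- dropping validity -/
theorem E4_Load_le_Ex (L : LawData τ P κ) (K : ℕ) (C2 : ℝ) (h : L.OK K C2) (hC : 1 ≤ C2)
    (x : τ ⊕ (P ⊕ κ)) (φ : τ → (τ → P) → Finset τ → ℝ) (h0 : ∀ ρ ψ A, 0 ≤ φ ρ ψ A)
    (h1 : ∀ ρ ψ A, A ⊆ L.D ρ →
      x ∈ ({Sum.inl ρ} ∪ (L.D ρ).image (fun v => Sum.inr (Sum.inl (ψ v)))
        ∪ A.image (fun v => Sum.inr (Sum.inr (L.clr v ψ))) : Finset (τ ⊕ (P ⊕ κ))) →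
      1 ≤ φ ρ ψ A) :
    load L.hS L.hw x ≤ L.Ex φ := by
  classical
  have hn : (0 : ℝ) < (Fintype.card P : ℝ) ^ Fintype.card τ := by
    have : 0 < Fintype.card P := Fintype.card_pos
    positivity
  have hEx : L.Ex φ = ∑ e : τ × (τ → P) × Finset τ,
      if e.1 ∈ L.roots ∧ e.2.2 ⊆ L.D e.1 then
        L.dens e.1 e.2.1 e.2.2 / (Fintype.card P : ℝ) ^ Fintype.card τ * φ e.1 e.2.1 e.2.2
      else 0 := by
    unfold LawData.Ex avF
    rw [Fintype.sum_prod_type]
    rw [← Finset.sum_filter_add_sum_filter_not univ (fun ρ => ρ ∈ L.roots)]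
    rw [Finset.filter_univ_mem]
    have hz : ∑ ρ ∈ univ.filter (fun ρ => ρ ∉ L.roots), ∑ y : (τ → P) × Finset τ,
        (if (ρ, y).1 ∈ L.roots ∧ (ρ, y).2.2 ⊆ L.D (ρ, y).1 then
          L.dens (ρ, y).1 (ρ, y).2.1 (ρ, y).2.2 / (Fintype.card P : ℝ) ^ Fintype.card τ *
            φ (ρ, y).1 (ρ, y).2.1 (ρ, y).2.2
        else 0) = 0 := by
      apply Finset.sum_eq_zero
      intro ρ hρ
      apply Finset.sum_eq_zero
      intro y _
      rw [if_neg]
      intro hh
      exact (mem_filter.1 hρ).2 hh.1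
    rw [hz, add_zero]
    apply Finset.sum_congr rfl
    intro ρ hρ
    rw [Fintype.sum_prod_type, Finset.sum_div]
    apply Finset.sum_congr rfl
    intro ψ _
    rw [Finset.sum_div]
    rw [← Finset.sum_filter_add_sum_filter_not univ (fun A => A ∈ (L.D ρ).powerset)]
    rw [Finset.filter_univ_mem]
    have hz2 : ∑ A ∈ univ.filter (fun A => A ∉ (L.D ρ).powerset),
        (if ρ ∈ L.roots ∧ A ⊆ L.D ρ then
          L.dens ρ ψ A / (Fintype.card P : ℝ) ^ Fintype.card τ * φ ρ ψ A
        else 0) = 0 := by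
      apply Finset.sum_eq_zero
      intro A hA
      rw [if_neg]
      intro hh
      exact (mem_filter.1 hA).2 (mem_powerset.2 hh.2)
    rw [hz2, add_zero]
    apply Finset.sum_congr rfl
    intro A hA
    rw [if_pos ⟨hρ, mem_powerset.1 hA⟩]
    ring
  rw [hEx]
  unfold load
  apply Finset.sum_le_sum
  rintro ⟨ρ, ψ, A⟩ _
  have hd := dens_nonneg L K C2 h hC ρ ψ A
  by_cases hV : L.Valid (ρ, ψ, A)
  · have hA : A ⊆ L.D ρ := hV.2.1
    have hρ : ρ ∈ L.roots := hV.1
    rw [if_pos (show (ρ, ψ, A).1 ∈ L.roots ∧ (ρ, ψ, A).2.2 ⊆ L.D (ρ, ψ, A).1 from ⟨hρ, hA⟩)]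
    by_cases hx : x ∈ L.hS (ρ, ψ, A)
    · rw [if_pos hx]
      unfold LawData.hw
      rw [if_pos hV]
      unfold LawData.hS at hx
      rw [if_pos hV] at hx
      have := h1 ρ ψ A hA hx
      have h2 : 0 ≤ L.dens ρ ψ A / (Fintype.card P : ℝ) ^ Fintype.card τ := by positivity
      simp only
      nlinarith
    · rw [if_neg hx]
      have h2 : 0 ≤ L.dens ρ ψ A / (Fintype.card P : ℝ) ^ Fintype.card τ := by positivity
      exact mul_nonneg h2 (h0 _ _ _)
  · have : L.hw (ρ, ψ, A) = 0 := by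
      unfold LawData.hw
      rw [if_neg hV]
    rw [this]
    have h2 : 0 ≤ L.dens ρ ψ A / (Fintype.card P : ℝ) ^ Fintype.card τ := by positivity
    have h3 := h0 ρ ψ A
    have h4 : (if x ∈ L.hS (ρ, ψ, A) then (0 : ℝ) else 0) = 0 := by simp
    rw [h4]
    split_ifs
    · exact mul_nonneg h2 h3
    · exact le_rfl

theorem load_comp (L : LawData τ P κ) (K : ℕ) (C2 : ℝ) (h : L.OK K C2) (hC : 1 ≤ C2) (ρ : τ) :
    load L.hS L.hw (Sum.inl ρ) ≤ 1 := by
  classical
  have hle := E4_Load_le_Ex L K C2 h hC (Sum.inl ρ) (fun ρ' _ _ => if ρ' = ρ then 1 else 0)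
    (fun _ _ _ => by split_ifs <;> norm_num)
    (fun ρ' ψ A _ hx => by
      simp only [mem_union, mem_singleton, mem_image, Sum.inl.injEq, reduceCtorEq, and_false,
        exists_false, or_false] at hx
      simp [hx.symm])
  refine hle.trans ?_
  unfold LawData.Ex
  by_cases hρ : ρ ∈ L.roots
  · rw [Finset.sum_eq_single_of_mem ρ hρ]
    · have hF : ρ ∈ L.F := (mem_filter.1 hρ).1
      have hl : L.lev ρ = 1 := (mem_filter.1 hρ).2
      have hr : L.rho ρ = ρ := h.root ρ hF hl
      have h1 := marg_one L K C2 h ρ hF (fun _ => 1)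
      rw [hr, hl] at h1
      simp only [mul_one, Nat.sub_self, Function.iterate_zero, id_eq] at h1
      simp only [if_true, mul_one]
      have h2 : (fun ψ => ∑ A ∈ (L.D ρ).powerset, L.dens ρ ψ A) =
          fun ψ => ∏ u ∈ L.D ρ, L.dt u ψ := by
        funext ψ
        exact dens_sum L ρ ψ
      rw [h2, h1]
      exact h.g_avg ρ
    · intro b _ hb
      simp [hb, avF]
  · rw [Finset.sum_eq_zero]
    · norm_num
    · intro b hb
      have : b ≠ ρ := fun hh => hρ (hh ▸ hb)
      simp [this, avF]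

/-- the density of level `j + 1`, divided by the number of positions -/
noncomputable def E4_Load_G (L : LawData τ P κ) (j : ℕ) (y : P) : ℝ :=
  (∑ v ∈ L.F.filter (fun v => L.lev v = j + 1), L.g (L.rho v) y) / (Fintype.card P : ℝ)

omit [Fintype κ] [DecidableEq κ] in
theorem E4_Load_op_sum (L : LawData τ P κ) (K : ℕ) (C2 : ℝ) (h : L.OK K C2) (j : ℕ)
    (s : Finset τ) (f : τ → P → ℝ) (x : P) :
    ((op L.W)^[j] (fun y => ∑ v ∈ s, f v y)) x = ∑ v ∈ s, ((op L.W)^[j] (f v)) x := by
  classical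
  induction s using Finset.induction_on with
  | empty =>
    simp only [sum_empty]
    exact op_iter_const L K C2 h j 0 x
  | insert a s ha ih =>
    simp only [sum_insert ha]
    rw [op_add L j (f a) (fun y => ∑ v ∈ s, f v y) x, ih]

omit [Fintype κ] [DecidableEq κ] in
/-- sum over `F` grouped by level -/
theorem E4_Load_levels (L : LawData τ P κ) (K : ℕ) (C2 : ℝ) (h : L.OK K C2) (f : τ → ℝ) :
    ∑ v ∈ L.F, f v = ∑ j ∈ range K, ∑ v ∈ L.F.filter (fun v => L.lev v = j + 1), f v := by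
  classical
  rw [← Finset.sum_fiberwise_of_maps_to (s := L.F) (t := range K) (g := fun v => L.lev v - 1)
    (fun v hv => by
      have h1 := h.lev_pos v hv
      have h2 := h.lev_le v hv
      simp only [mem_range]
      omega) f]
  apply Finset.sum_congr rfl
  intro j _
  apply Finset.sum_congr _ (fun _ _ => rfl)
  ext v
  simp only [mem_filter]
  constructor
  · rintro ⟨hv, hj⟩
    have h1 := h.lev_pos v hv
    exact ⟨hv, by omega⟩
  · rintro ⟨hv, hj⟩
    exact ⟨hv, by omega⟩

theorem load_pos (L : LawData τ P κ) (K : ℕ) (C2 : ℝ) (h : L.OK K C2) (hC : 1 ≤ C2)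
    (ω : ℕ → ℝ) (hω : ∀ j, 0 ≤ ω j) (hω1 : ∑ j ∈ range K, ω j ≤ 1) (σ : ℝ) (h1 : L.H1 K ω σ) :
    ∑ y : P, max (load L.hS L.hw (Sum.inr (Sum.inl y)) - 1) 0 ≤ σ * Fintype.card P := by
  classical
  have hn : (0 : ℝ) < (Fintype.card P : ℝ) := by
    have : 0 < Fintype.card P := Fintype.card_pos
    exact_mod_cast this
  have hload : ∀ y : P, load L.hS L.hw (Sum.inr (Sum.inl y)) ≤
      ∑ j ∈ range K, ((op L.W)^[j] (E4_Load_G L j)) y := by
    intro y
    have hle := E4_Load_le_Ex L K C2 h hC (Sum.inr (Sum.inl y))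
      (fun ρ ψ _ => ∑ u ∈ L.D ρ ∩ univ, if ψ u = y then 1 else 0)
      (fun ρ ψ _ => Finset.sum_nonneg (fun u _ => by split_ifs <;> norm_num))
      (fun ρ ψ A _ hx => by
        simp only [mem_union, mem_singleton, mem_image, reduceCtorEq, Sum.inr.injEq, Sum.inl.injEq,
          false_or, and_false, exists_false, or_false] at hx
        obtain ⟨v, hv, hvy⟩ := hx
        have : (if ψ v = y then (1 : ℝ) else 0) ≤
            ∑ u ∈ L.D ρ ∩ univ, if ψ u = y then (1 : ℝ) else 0 :=
          Finset.single_le_sum (f := fun u => if ψ u = y then (1 : ℝ) else 0)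
            (fun u _ => by split_ifs <;> norm_num) (by simp [hv])
        simpa [hvy] using this)
    refine hle.trans (le_of_eq ?_)
    rw [Ex_sum L K C2 h univ (fun u ψ => if ψ u = y then 1 else 0), inter_univ]
    have e1 : ∀ v ∈ L.F, avF (fun ψ => (∏ u ∈ L.D (L.rho v), L.dt u ψ) *
        (if ψ v = y then (1 : ℝ) else 0)) =
        ((op L.W)^[L.lev v - 1] (L.g (L.rho v))) y / (Fintype.card P : ℝ) := by
      intro v hv
      rw [marg_one L K C2 h v hv (fun z => if z = y then 1 else 0),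
        op_adj L K C2 h]
      unfold avP
      congr 1
      simp
    rw [Finset.sum_congr rfl e1, E4_Load_levels L K C2 h]
    apply Finset.sum_congr rfl
    intro j _
    have e2 : E4_Load_G L j = fun y => ∑ v ∈ L.F.filter (fun v => L.lev v = j + 1),
        (1 / (Fintype.card P : ℝ)) * L.g (L.rho v) y := by
      funext z
      unfold E4_Load_G
      rw [← Finset.mul_sum]
      ring
    rw [e2, E4_Load_op_sum L K C2 h]
    apply Finset.sum_congr rfl
    intro v hv
    rw [op_smul, (mem_filter.1 hv).2]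
    simp only [Nat.add_sub_cancel]
    ring
  have hb : ∀ y : P, max (load L.hS L.hw (Sum.inr (Sum.inl y)) - 1) 0 ≤
      ∑ j ∈ range K, |((op L.W)^[j] (fun x => E4_Load_G L j x - ω j)) y| := by
    intro y
    apply max_le
    · have h2 : ∀ j ∈ range K, ((op L.W)^[j] (E4_Load_G L j)) y ≤
          ω j + |((op L.W)^[j] (fun x => E4_Load_G L j x - ω j)) y| := by
        intro j _
        have h3 : ((op L.W)^[j] (E4_Load_G L j)) y =
            ((op L.W)^[j] (fun x => E4_Load_G L j x - ω j)) y + ω j := by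
          have h4 := op_add L j (fun x => E4_Load_G L j x - ω j) (fun _ => ω j) y
          rw [op_iter_const L K C2 h j (ω j) y] at h4
          rw [← h4]
          have h6 : (fun x => E4_Load_G L j x - ω j + ω j) = E4_Load_G L j := by
            funext x
            ring
          rw [h6]
        rw [h3]
        linarith [le_abs_self (((op L.W)^[j] (fun x => E4_Load_G L j x - ω j)) y)]
      have h5 := Finset.sum_le_sum h2
      rw [Finset.sum_add_distrib] at h5
      linarith [hload y]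
    · exact Finset.sum_nonneg (fun _ _ => abs_nonneg _)
  calc ∑ y : P, max (load L.hS L.hw (Sum.inr (Sum.inl y)) - 1) 0
      ≤ ∑ y : P, ∑ j ∈ range K, |((op L.W)^[j] (fun x => E4_Load_G L j x - ω j)) y| :=
        Finset.sum_le_sum (fun y _ => hb y)
    _ = ∑ j ∈ range K, ∑ y : P, |((op L.W)^[j] (fun x => E4_Load_G L j x - ω j)) y| :=
        Finset.sum_comm
    _ ≤ ∑ j ∈ range K, ∑ y : P, |E4_Load_G L j y - ω j| :=
        Finset.sum_le_sum (fun j _ => op_l1 L K C2 h j _)
    _ ≤ σ * Fintype.card P := h1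

theorem load_col (L : LawData τ P κ) (K : ℕ) (hK : 1 ≤ K) (C2 : ℝ) (h : L.OK K C2) (hC : 1 ≤ C2)
    (ω : ℕ → ℝ) (hω : ∀ j, 0 ≤ ω j) (hω1 : ∑ j ∈ range K, ω j ≤ 1) (σ : ℝ) (h1 : L.H1 K ω σ)
    (k : κ) :
    load L.hS L.hw (Sum.inr (Sum.inr k)) ≤ 1 - ω 0 + σ +
      (∑ ρ ∈ L.roots, ∑ y, if L.rcol ρ y = k then L.gr ρ y else 0) / (Fintype.card P : ℝ) := by
  classical
  have hn : (0 : ℝ) < (Fintype.card P : ℝ) := by
    have : 0 < Fintype.card P := Fintype.card_pos
    exact_mod_cast this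
  -- step 1: drop validity
  have hle := E4_Load_le_Ex L K C2 h hC (Sum.inr (Sum.inr k))
    (fun ρ ψ A => ∑ v ∈ A, if L.clr v ψ = k then 1 else 0)
    (fun ρ ψ A => Finset.sum_nonneg (fun u _ => by split_ifs <;> norm_num))
    (fun ρ ψ A _ hx => by
      simp only [mem_union, mem_singleton, mem_image, reduceCtorEq, Sum.inr.injEq,
        false_or, and_false, exists_false] at hx
      obtain ⟨v, hv, hvy⟩ := hx
      have : (if L.clr v ψ = k then (1 : ℝ) else 0) ≤
          ∑ v ∈ A, if L.clr v ψ = k then (1 : ℝ) else 0 :=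
        Finset.single_le_sum (f := fun u => if L.clr u ψ = k then (1 : ℝ) else 0)
          (fun u _ => by split_ifs <;> norm_num) hv
      simpa [hvy] using this)
  refine hle.trans ?_
  -- step 2: exchange the sums
  have hE : L.Ex (fun ρ ψ A => ∑ v ∈ A, if L.clr v ψ = k then 1 else 0) =
      ∑ v ∈ L.F, avF (fun ψ => (∏ u ∈ (L.D (L.rho v)).erase v, L.dt u ψ) *
        (L.dr v ψ * if L.clr v ψ = k then 1 else 0)) := by
    rw [← E4_Load_sum_roots L K C2 h]
    unfold LawData.Ex
    apply Finset.sum_congr rfl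
    intro ρ hρ
    rw [Finset.sum_congr rfl (g := fun v => avF (fun ψ => (∏ u ∈ (L.D ρ).erase v, L.dt u ψ) *
        (L.dr v ψ * if L.clr v ψ = k then 1 else 0))) (fun v hv => by
          rw [(mem_filter.1 hv).2])]
    rw [← avF_sum]
    congr 1
    funext ψ
    have e1 : ∀ A ∈ (L.D ρ).powerset, L.dens ρ ψ A * ∑ v ∈ A, (if L.clr v ψ = k then (1:ℝ) else 0)
        = ∑ v ∈ L.D ρ, if v ∈ A then L.dens ρ ψ A * (if L.clr v ψ = k then (1:ℝ) else 0) else 0 := by
      intro A hA
      rw [Finset.mul_sum, ← Finset.sum_filter]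
      apply Finset.sum_congr _ (fun _ _ => rfl)
      ext v
      simp only [mem_filter]
      exact ⟨fun hv => ⟨mem_powerset.1 hA hv, hv⟩, fun hv => hv.2⟩
    rw [Finset.sum_congr rfl e1, Finset.sum_comm]
    apply Finset.sum_congr rfl
    intro v hv
    rw [← Finset.sum_filter, ← Finset.sum_mul, dens_sum_mem L ρ ψ v hv]
    ring
  rw [hE]
  -- step 3: bound every vertex
  have hroot : ∀ v ∈ L.F, L.lev v = 1 → avF (fun ψ => (∏ u ∈ (L.D (L.rho v)).erase v, L.dt u ψ) *
        (L.dr v ψ * if L.clr v ψ = k then 1 else 0)) =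
      (∑ y, if L.rcol v y = k then L.gr v y else 0) / (Fintype.card P : ℝ) := by
    intro v hv hl
    have hr : L.rho v = v := h.root v hv hl
    have hm := marg_root L K C2 h v (mem_filter.2 ⟨hv, hl⟩)
      (fun y => L.gr v y * if L.rcol v y = k then 1 else 0)
    rw [hr]
    have e : (fun ψ : τ → P => (∏ u ∈ (L.D v).erase v, L.dt u ψ) *
        (L.dr v ψ * if L.clr v ψ = k then 1 else 0)) =
        fun ψ => (∏ u ∈ (L.D v).erase v, L.dt u ψ) *
          (fun y => L.gr v y * if L.rcol v y = k then 1 else 0) (ψ v) := by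
      funext ψ
      simp only [LawData.dr, LawData.clr, hl, if_true]
    rw [e, hm]
    unfold avP
    congr 1
    apply Finset.sum_congr rfl
    intro y _
    beta_reduce
    by_cases hk : L.rcol v y = k
    · rw [if_pos hk, if_pos hk, mul_one]
    · rw [if_neg hk, if_neg hk, mul_zero]
  have hedge : ∀ v ∈ L.F, L.lev v ≠ 1 → avF (fun ψ => (∏ u ∈ (L.D (L.rho v)).erase v, L.dt u ψ) *
        (L.dr v ψ * if L.clr v ψ = k then 1 else 0)) ≤
      avP (fun y => L.g (L.rho v) y / (Fintype.card P : ℝ)) := by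
    intro v hv hl
    have hm := marg_edge L K C2 h v hv hl
      (fun x y => min (L.W x y) 1 / (L.m : ℝ) * if L.col x y = k then 1 else 0)
    have e : (fun ψ : τ → P => (∏ u ∈ (L.D (L.rho v)).erase v, L.dt u ψ) *
        (L.dr v ψ * if L.clr v ψ = k then 1 else 0)) =
        fun ψ => (∏ u ∈ (L.D (L.rho v)).erase v, L.dt u ψ) *
          (fun x y => min (L.W x y) 1 / (L.m : ℝ) * if L.col x y = k then 1 else 0)
            (ψ (L.ref v)) (ψ v) := by
      funext ψ
      simp only [LawData.dr, LawData.clr, hl, if_false]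
    rw [e, hm]
    have hm0 : (0 : ℝ) < (L.m : ℝ) := by
      have := h.m_pos
      exact_mod_cast (by omega : 0 < L.m)
    have hrow : ∀ x, avP (fun y => min (L.W x y) 1 / (L.m : ℝ) * if L.col x y = k then 1 else 0) ≤
        1 / (Fintype.card P : ℝ) := by
      intro x
      unfold avP
      apply div_le_div_of_nonneg_right _ hn.le
      have hterm : ∀ y, (min (L.W x y) 1 / (L.m : ℝ) * if L.col x y = k then (1 : ℝ) else 0) ≤
          if L.W x y ≠ 0 ∧ L.col x y = k then 1 / (L.m : ℝ) else 0 := by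
        intro y
        by_cases hk : L.col x y = k
        · by_cases hW : L.W x y = 0
          · have e0 : (min (L.W x y) 1 / (L.m : ℝ) * if L.col x y = k then (1 : ℝ) else 0) = 0 := by
              rw [hW, min_eq_left zero_le_one, zero_div, zero_mul]
            rw [e0]
            split_ifs <;> positivity
          · rw [if_pos hk, if_pos ⟨hW, hk⟩, mul_one]
            exact div_le_div_of_nonneg_right (min_le_right _ _) hm0.le
        · rw [if_neg hk, if_neg (fun hh => hk hh.2), mul_zero]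
      refine (Finset.sum_le_sum (fun y _ => hterm y)).trans ?_
      rw [← Finset.sum_filter, Finset.sum_const, nsmul_eq_mul, mul_one_div, div_le_one hm0]
      have hcard := h.col_bd x (univ.filter (fun y => L.W x y ≠ 0 ∧ L.col x y = k))
        (fun y hy => (mem_filter.1 hy).2.1)
        (fun y hy z hz => (mem_filter.1 hy).2.2.trans (mem_filter.1 hz).2.2.symm)
      exact_mod_cast hcard
    have hop : ∀ y, ((op L.W)^[L.lev v - 2] (fun x => avP ((fun x y => min (L.W x y) 1 / (L.m : ℝ) *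
        if L.col x y = k then (1:ℝ) else 0) x))) y ≤ 1 / (Fintype.card P : ℝ) := by
      intro y
      have h3 := op_mono L K C2 h (L.lev v - 2)
        (a := fun x => avP ((fun x y => min (L.W x y) 1 / (L.m : ℝ) *
          if L.col x y = k then (1:ℝ) else 0) x))
        (b := fun _ => 1 / (Fintype.card P : ℝ)) hrow y
      rwa [op_iter_const L K C2 h] at h3
    unfold avP
    apply div_le_div_of_nonneg_right _ hn.le
    apply Finset.sum_le_sum
    intro y _
    have hg : 0 ≤ L.g (L.rho v) y := (h.gr_nonneg _ _).trans (h.gr_le _ _)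
    have h3 := mul_le_mul_of_nonneg_left (hop y) hg
    unfold avP at h3
    rw [mul_one_div] at h3
    exact h3
  -- step 4: sum up
  have hsplit : ∑ v ∈ L.F, avF (fun ψ => (∏ u ∈ (L.D (L.rho v)).erase v, L.dt u ψ) *
        (L.dr v ψ * if L.clr v ψ = k then 1 else 0)) ≤
      ∑ v ∈ L.F, (if L.lev v = 1 then
        (∑ y, if L.rcol v y = k then L.gr v y else 0) / (Fintype.card P : ℝ) else 0) +
      ∑ v ∈ L.F, (if L.lev v = 1 then 0 else
        avP (fun y => L.g (L.rho v) y / (Fintype.card P : ℝ))) := by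
    rw [← Finset.sum_add_distrib]
    apply Finset.sum_le_sum
    intro v hv
    by_cases hl : L.lev v = 1
    · rw [if_pos hl, if_pos hl, add_zero, hroot v hv hl]
    · rw [if_neg hl, if_neg hl, zero_add]
      exact hedge v hv hl
  refine hsplit.trans ?_
  have hA : ∑ v ∈ L.F, (if L.lev v = 1 then
        (∑ y, if L.rcol v y = k then L.gr v y else 0) / (Fintype.card P : ℝ) else 0) =
      (∑ ρ ∈ L.roots, ∑ y, if L.rcol ρ y = k then L.gr ρ y else 0) / (Fintype.card P : ℝ) := by
    rw [← Finset.sum_filter, ← Finset.sum_div]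
    rfl
  have hB : ∑ v ∈ L.F, (if L.lev v = 1 then 0 else
        avP (fun y => L.g (L.rho v) y / (Fintype.card P : ℝ))) ≤ 1 - ω 0 + σ := by
    rw [E4_Load_levels L K C2 h]
    obtain ⟨K', rfl⟩ : ∃ K', K = K' + 1 := ⟨K - 1, by omega⟩
    rw [Finset.sum_range_succ'] at hω1 ⊢
    unfold LawData.H1 at h1
    rw [Finset.sum_range_succ'] at h1
    have h0 : ∑ v ∈ L.F.filter (fun v => L.lev v = 0 + 1), (if L.lev v = 1 then 0 else
        avP (fun y => L.g (L.rho v) y / (Fintype.card P : ℝ))) = 0 := by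
      apply Finset.sum_eq_zero
      intro v hv
      rw [if_pos (by simpa using (mem_filter.1 hv).2)]
    rw [h0, add_zero]
    have hj : ∀ j ∈ range K', ∑ v ∈ L.F.filter (fun v => L.lev v = j + 1 + 1),
        (if L.lev v = 1 then 0 else avP (fun y => L.g (L.rho v) y / (Fintype.card P : ℝ))) ≤
        ω (j + 1) + (∑ y, |(∑ v ∈ L.F.filter (fun v => L.lev v = j + 1 + 1), L.g (L.rho v) y)
          / (Fintype.card P : ℝ) - ω (j + 1)|) / (Fintype.card P : ℝ) := by
      intro j _
      have e1 : ∑ v ∈ L.F.filter (fun v => L.lev v = j + 1 + 1),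
        (if L.lev v = 1 then 0 else avP (fun y => L.g (L.rho v) y / (Fintype.card P : ℝ))) =
          avP (fun y => (∑ v ∈ L.F.filter (fun v => L.lev v = j + 1 + 1), L.g (L.rho v) y)
            / (Fintype.card P : ℝ)) := by
        rw [Finset.sum_congr rfl (g := fun v =>
          avP (fun y => L.g (L.rho v) y / (Fintype.card P : ℝ))) (fun v hv => by
            rw [if_neg (by have := (mem_filter.1 hv).2; omega)])]
        unfold avP
        rw [← Finset.sum_div, Finset.sum_comm]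
        congr 1
        apply Finset.sum_congr rfl
        intro y _
        beta_reduce
        rw [Finset.sum_div]
      rw [e1]
      have e2 : ∀ y : P, (∑ v ∈ L.F.filter (fun v => L.lev v = j + 1 + 1), L.g (L.rho v) y)
            / (Fintype.card P : ℝ) ≤ ω (j + 1) +
            |(∑ v ∈ L.F.filter (fun v => L.lev v = j + 1 + 1), L.g (L.rho v) y)
          / (Fintype.card P : ℝ) - ω (j + 1)| := by
        intro y
        linarith [le_abs_self ((∑ v ∈ L.F.filter (fun v => L.lev v = j + 1 + 1), L.g (L.rho v) y)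
          / (Fintype.card P : ℝ) - ω (j + 1))]
      have e3 := Finset.sum_le_sum (fun y (_ : y ∈ (univ : Finset P)) => e2 y)
      rw [Finset.sum_add_distrib, Finset.sum_const, card_univ, nsmul_eq_mul] at e3
      unfold avP
      rw [div_le_iff₀ hn, add_mul, div_mul_cancel₀ _ hn.ne']
      linarith
    have hsum := Finset.sum_le_sum hj
    rw [Finset.sum_add_distrib, ← Finset.sum_div] at hsum
    have hσ : (∑ j ∈ range K', ∑ y, |(∑ v ∈ L.F.filter (fun v => L.lev v = j + 1 + 1),
        L.g (L.rho v) y) / (Fintype.card P : ℝ) - ω (j + 1)|) / (Fintype.card P : ℝ) ≤ σ := by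
      rw [div_le_iff₀ hn]
      refine le_trans ?_ h1
      have : 0 ≤ ∑ y, |(∑ v ∈ L.F.filter (fun v => L.lev v = 0 + 1), L.g (L.rho v) y)
          / (Fintype.card P : ℝ) - ω 0| := Finset.sum_nonneg (fun _ _ => abs_nonneg _)
      linarith
    linarith
  rw [hA]
  linarith

theorem load_excess_total (L : LawData τ P κ) (K : ℕ) (hK : 1 ≤ K) (C2 : ℝ) (h : L.OK K C2) (hC : 1 ≤ C2)
    (ω : ℕ → ℝ) (hω : ∀ j, 0 ≤ ω j) (hω1 : ∑ j ∈ range K, ω j ≤ 1) (σ s0 : ℝ) (hσ : 0 ≤ σ)
    (h1 : L.H1 K ω σ) (h2 : L.H2 ω σ s0) (γ : ℝ) (hγ : σ + s0 ≤ γ) (hγ0 : 0 ≤ γ) :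
    ∑ x : τ ⊕ (P ⊕ κ), max (load L.hS L.hw x - 1 - γ) 0 ≤ 2 * σ * Fintype.card P := by
  rw [Fintype.sum_sum_type, Fintype.sum_sum_type]
  have hc : ∑ ρ : τ, max (load L.hS L.hw (Sum.inl ρ) - 1 - γ) 0 = 0 := by
    apply Finset.sum_eq_zero
    intro ρ _
    apply max_eq_right
    linarith [load_comp L K C2 h hC ρ]
  have hp : ∑ y : P, max (load L.hS L.hw (Sum.inr (Sum.inl y)) - 1 - γ) 0 ≤
      σ * Fintype.card P := by
    refine le_trans (Finset.sum_le_sum (fun y _ => ?_)) (load_pos L K C2 h hC ω hω hω1 σ h1)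
    apply max_le_max _ le_rfl
    linarith
  have hk : ∑ k : κ, max (load L.hS L.hw (Sum.inr (Sum.inr k)) - 1 - γ) 0 ≤
      σ * Fintype.card P := by
    refine le_trans (Finset.sum_le_sum (fun k _ => ?_)) h2
    apply max_le_max _ le_rfl
    linarith [load_col L K hK C2 h hC ω hω hω1 σ h1 k]
  linarith

end H38.Col2
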