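import Pool.Agent.H64.Col.A6_Trim
import Pool.Agent.H64.Col.A8_SN
import Pool.Agent.H38.Col2.E4_Load
import Pool.Agent.H38.Col2.E5_Cod

/-! E6: the nibble for the law. Trim `hw` with `γ = ε/8` (`A6_Trim.trim`), apply `strong_nibble` with
`k = 2K+1` to the trimmed weights and the functions `f i e.1 e.2.1 e.2.2`; then
`∑ w~ f ≥ (Ex f - Φ·2K²C2^K)/(1+γ) - Φ·2σn'`. The matched hyperedges have different roots; glue
their maps and rainbow sets along the components. -/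

namespace H38.Col2

open H64.Col
open Finset

section Glue

variable {τ P κ : Type} [Fintype τ] [DecidableEq τ] [Fintype P] [DecidableEq P] [Nonempty P]
  [Fintype κ] [DecidableEq κ]

theorem e6_mem_D {L : LawData τ P κ} {ρ v : τ} : v ∈ L.D ρ ↔ v ∈ L.F ∧ L.rho v = ρ := by
  unfold LawData.D
  rw [Finset.mem_filter]

theorem e6_dt (L : LawData τ P κ) (K : ℕ) (C2 : ℝ) (h : L.OK K C2) {ρ v : τ} (hv : v ∈ L.D ρ)
    {ψ ψ' : τ → P} (hψ : ∀ u ∈ L.D ρ, ψ u = ψ' u) : L.dt v ψ = L.dt v ψ' := by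
  unfold LawData.dt
  rw [hψ v hv]
  split_ifs with hl
  · rfl
  · rw [e6_mem_D] at hv
    obtain ⟨h1, -, h3⟩ := h.step v hv.1 hl
    rw [hψ (L.ref v) (by rw [e6_mem_D]; exact ⟨h1, by rw [← h3]; exact hv.2⟩)]

theorem e6_clr (L : LawData τ P κ) (K : ℕ) (C2 : ℝ) (h : L.OK K C2) {ρ v : τ} (hv : v ∈ L.D ρ)
    {ψ ψ' : τ → P} (hψ : ∀ u ∈ L.D ρ, ψ u = ψ' u) : L.clr v ψ = L.clr v ψ' := by
  unfold LawData.clr
  rw [hψ v hv]
  split_ifs with hl
  · rfl
  · rw [e6_mem_D] at hv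
    obtain ⟨h1, -, h3⟩ := h.step v hv.1 hl
    rw [hψ (L.ref v) (by rw [e6_mem_D]; exact ⟨h1, by rw [← h3]; exact hv.2⟩)]

theorem e6_valid {L : LawData τ P κ} {e : τ × (τ → P) × Finset τ} (h : L.hw e ≠ 0) :
    L.Valid e ∧ L.dens e.1 e.2.1 e.2.2 ≠ 0 := by
  unfold LawData.hw at h
  by_cases hv : L.Valid e
  · rw [if_pos hv] at h
    exact ⟨hv, fun h0 => h (by rw [h0, zero_div])⟩
  · rw [if_neg hv] at h
    exact absurd rfl h

theorem e6_inl (L : LawData τ P κ) (e : τ × (τ → P) × Finset τ) : Sum.inl e.1 ∈ L.hS e := by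
  unfold LawData.hS
  split_ifs
  · simp
  · simp

theorem e6_pos {L : LawData τ P κ} {e : τ × (τ → P) × Finset τ} (he : L.Valid e) {v : τ}
    (hv : v ∈ L.D e.1) : Sum.inr (Sum.inl (e.2.1 v)) ∈ L.hS e := by
  unfold LawData.hS
  rw [if_pos he, Finset.mem_union, Finset.mem_union]
  left; right
  exact Finset.mem_image_of_mem (fun v => Sum.inr (Sum.inl (e.2.1 v))) hv

theorem e6_col {L : LawData τ P κ} {e : τ × (τ → P) × Finset τ} (he : L.Valid e) {v : τ}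
    (hv : v ∈ e.2.2) : Sum.inr (Sum.inr (L.clr v e.2.1)) ∈ L.hS e := by
  unfold LawData.hS
  rw [if_pos he, Finset.mem_union]
  right
  exact Finset.mem_image_of_mem (fun v => Sum.inr (Sum.inr (L.clr v e.2.1))) hv

/-- gluing of matched hyperedges -/
theorem e6_glue (L : LawData τ P κ) (K : ℕ) (C2 : ℝ) (h : L.OK K C2) (hC : 1 ≤ C2)
    (Mt : Finset (τ × (τ → P) × Finset τ)) (hm : IsMatch L.hS Mt) (hw : ∀ e ∈ Mt, L.hw e ≠ 0) :
    ∃ (M : Finset τ) (ψ : τ → P) (A : Finset τ), M ⊆ L.roots ∧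
      A ⊆ L.F.filter (fun v => L.rho v ∈ M) ∧
      Set.InjOn ψ (L.F.filter (fun v => L.rho v ∈ M) : Set τ) ∧
      (∀ v ∈ L.F.filter (fun v => L.rho v ∈ M), L.dt v ψ ≠ 0) ∧
      Set.InjOn (fun v => L.clr v ψ) (A : Set τ) ∧
      ∀ f : τ → (τ → P) → Finset τ → ℝ, L.Local f →
        ∑ ρ ∈ M, f ρ ψ (A ∩ L.D ρ) = ∑ e ∈ Mt, f e.1 e.2.1 e.2.2 := by
  classical
  have hinj : ∀ e ∈ Mt, ∀ e' ∈ Mt, e.1 = e'.1 → e = e' := by
    intro e he e' he' h1
    by_contra hne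
    have hd := hm e he e' he' hne
    have h2 := e6_inl L e
    have h3 := e6_inl L e'
    rw [← h1] at h3
    exact (Finset.disjoint_left.1 hd) h2 h3
  -- the hyperedge of a root
  let g : τ → τ × (τ → P) × Finset τ := fun ρ =>
    if h : ∃ e ∈ Mt, e.1 = ρ then h.choose else (ρ, fun _ => Classical.arbitrary P, ∅)
  have hg : ∀ e ∈ Mt, g e.1 = e := by
    intro e he
    have hex : ∃ e' ∈ Mt, e'.1 = e.1 := ⟨e, he, rfl⟩
    have h1 : g e.1 = hex.choose := dif_pos hex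
    rw [h1]
    exact hinj _ hex.choose_spec.1 _ he hex.choose_spec.2
  let ψ : τ → P := fun v => (g (L.rho v)).2.1 v
  have hψ : ∀ e ∈ Mt, ∀ v ∈ L.D e.1, ψ v = e.2.1 v := by
    intro e he v hv
    rw [e6_mem_D] at hv
    change (g (L.rho v)).2.1 v = e.2.1 v
    rw [hv.2, hg e he]
  let A : Finset τ := Mt.biUnion fun e => e.2.2
  have hA : ∀ e ∈ Mt, A ∩ L.D e.1 = e.2.2 := by
    intro e he
    ext v
    rw [Finset.mem_inter, Finset.mem_biUnion]
    constructor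
    · rintro ⟨⟨e', he', hv⟩, hvD⟩
      have h1 := (e6_valid (hw e' he')).1.2.1 hv
      rw [e6_mem_D] at h1 hvD
      have h2 : e'.1 = e.1 := h1.2.symm.trans hvD.2
      rw [← hinj e' he' e he h2]
      exact hv
    · intro hv
      exact ⟨⟨e, he, hv⟩, (e6_valid (hw e he)).1.2.1 hv⟩
  have hmem : ∀ v, v ∈ L.F.filter (fun v => L.rho v ∈ Mt.image (fun e => e.1)) →
      ∃ e ∈ Mt, v ∈ L.D e.1 := by
    intro v hv
    rw [Finset.mem_filter, Finset.mem_image] at hv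
    obtain ⟨hvF, e, he, h1⟩ := hv
    exact ⟨e, he, by rw [e6_mem_D]; exact ⟨hvF, h1.symm⟩⟩
  refine ⟨Mt.image (fun e => e.1), ψ, A, ?_, ?_, ?_, ?_, ?_, ?_⟩
  · intro ρ hρ
    obtain ⟨e, he, rfl⟩ := Finset.mem_image.1 hρ
    exact (e6_valid (hw e he)).1.1
  · intro v hv
    obtain ⟨e, he, hv⟩ := Finset.mem_biUnion.1 hv
    have h1 := (e6_valid (hw e he)).1.2.1 hv
    rw [e6_mem_D] at h1
    rw [Finset.mem_filter, h1.2]
    exact ⟨h1.1, Finset.mem_image_of_mem _ he⟩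
  · intro u hu v hv huv
    obtain ⟨e, he, hu⟩ := hmem u (Finset.mem_coe.1 hu)
    obtain ⟨e', he', hv⟩ := hmem v (Finset.mem_coe.1 hv)
    rw [hψ e he u hu, hψ e' he' v hv] at huv
    by_cases hee : e = e'
    · subst hee
      exact (e6_valid (hw e he)).1.2.2.1 (Finset.mem_coe.2 hu) (Finset.mem_coe.2 hv) huv
    · exfalso
      have h1 := e6_pos (e6_valid (hw e he)).1 hu
      have h2 := e6_pos (e6_valid (hw e' he')).1 hv
      rw [← huv] at h2
      exact (Finset.disjoint_left.1 (hm e he e' he' hee)) h1 h2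
  · intro v hv
    obtain ⟨e, he, hv⟩ := hmem v hv
    rw [e6_dt L K C2 h hv (fun u hu => hψ e he u hu)]
    have h1 := (e6_valid (hw e he)).2
    unfold LawData.dens at h1
    obtain ⟨h2, h3, -⟩ := dr_dt L K C2 h hC v e.2.1
    by_cases hvA : v ∈ e.2.2
    · have h4 : L.dr v e.2.1 ≠ 0 := by
        intro h0
        apply h1
        rw [Finset.prod_eq_zero hvA h0, zero_mul]
      have h5 : 0 < L.dr v e.2.1 := lt_of_le_of_ne h2 (Ne.symm h4)
      exact ne_of_gt (h5.trans_le h3)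
    · have h4 : L.dt v e.2.1 - L.dr v e.2.1 ≠ 0 := by
        intro h0
        apply h1
        rw [Finset.prod_eq_zero (Finset.mem_sdiff.2 ⟨hv, hvA⟩) h0, mul_zero]
      intro h0
      apply h4
      rw [h0] at h3 ⊢
      have h5 : L.dr v e.2.1 = 0 := le_antisymm h3 h2
      rw [h5, sub_zero]
  · intro u hu v hv huv
    obtain ⟨e, he, hu⟩ := Finset.mem_biUnion.1 (Finset.mem_coe.1 hu)
    obtain ⟨e', he', hv⟩ := Finset.mem_biUnion.1 (Finset.mem_coe.1 hv)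
    have huD := (e6_valid (hw e he)).1.2.1 hu
    have hvD := (e6_valid (hw e' he')).1.2.1 hv
    have huv' : L.clr u e.2.1 = L.clr v e'.2.1 := by
      rw [← e6_clr L K C2 h huD (fun u hu => hψ e he u hu),
        ← e6_clr L K C2 h hvD (fun u hu => hψ e' he' u hu)]
      exact huv
    by_cases hee : e = e'
    · subst hee
      exact (e6_valid (hw e he)).1.2.2.2 (Finset.mem_coe.2 hu) (Finset.mem_coe.2 hv) huv'
    · exfalso
      have h1 := e6_col (e6_valid (hw e he)).1 hu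
      have h2 := e6_col (e6_valid (hw e' he')).1 hv
      rw [← huv'] at h2
      exact (Finset.disjoint_left.1 (hm e he e' he' hee)) h1 h2
  · intro f hf
    rw [Finset.sum_image (fun e he e' he' h1 => hinj e he e' he' h1)]
    refine Finset.sum_congr rfl fun e he => ?_
    rw [hA e he]
    exact hf e.1 ψ e.2.1 e.2.2 (fun v hv => hψ e he v hv)

theorem e6_avF_add (f g : (τ → P) → ℝ) : avF (fun ψ => f ψ + g ψ) = avF f + avF g := by
  unfold avF
  rw [Finset.sum_add_distrib, add_div]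

theorem e6_avF_mul (c : ℝ) (f : (τ → P) → ℝ) : avF (fun ψ => c * f ψ) = c * avF f := by
  unfold avF
  rw [← Finset.mul_sum, mul_div_assoc]

open Classical in
/-- the weighted sum over hyperedges -/
theorem e6_hsum (L : LawData τ P κ) (f : τ → (τ → P) → Finset τ → ℝ) :
    ∑ e, L.hw e * f e.1 e.2.1 e.2.2 = ∑ ρ ∈ L.roots, avF (fun ψ => ∑ A ∈ (L.D ρ).powerset,
      if L.Valid (ρ, ψ, A) then L.dens ρ ψ A * f ρ ψ A else 0) := by
  rw [Fintype.sum_prod_type]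
  have h1 : ∀ ρ : τ, ∑ x : (τ → P) × Finset τ, L.hw (ρ, x) * f (ρ, x).1 (ρ, x).2.1 (ρ, x).2.2 =
      if ρ ∈ L.roots then avF (fun ψ => ∑ A ∈ (L.D ρ).powerset,
        if L.Valid (ρ, ψ, A) then L.dens ρ ψ A * f ρ ψ A else 0) else 0 := by
    intro ρ
    rw [Fintype.sum_prod_type]
    split_ifs with hρ
    · unfold avF
      rw [Finset.sum_div]
      refine Finset.sum_congr rfl fun ψ _ => ?_
      rw [Finset.sum_div]
      symm
      rw [← Finset.sum_subset (Finset.subset_univ (L.D ρ).powerset)]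
      · refine Finset.sum_congr rfl fun A _ => ?_
        unfold LawData.hw
        split_ifs
        · ring
        · simp
      · intro A _ hA
        unfold LawData.hw
        rw [if_neg, zero_mul]
        intro hv
        exact hA (Finset.mem_powerset.2 hv.2.1)
    · refine Finset.sum_eq_zero fun ψ _ => Finset.sum_eq_zero fun A _ => ?_
      unfold LawData.hw
      rw [if_neg, zero_mul]
      intro hv
      exact hρ hv.1
  rw [Finset.sum_congr rfl fun ρ _ => h1 ρ, Finset.sum_ite_mem, Finset.univ_inter]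

open Classical in
theorem e6_sum (L : LawData τ P κ) (K : ℕ) (C2 : ℝ) (h : L.OK K C2) (hC : 1 ≤ C2)
    (hF : L.F.card ≤ Fintype.card P) (Φ : ℝ) (hΦ : 0 ≤ Φ) (f : τ → (τ → P) → Finset τ → ℝ)
    (hf : ∀ ρ ψ A, 0 ≤ f ρ ψ A ∧ f ρ ψ A ≤ Φ) :
    L.Ex f - Φ * ((L.m : ℝ) * (2 * (K : ℝ) ^ 2 * C2 ^ K)) ≤ ∑ e, L.hw e * f e.1 e.2.1 e.2.2 := by
  rw [e6_hsum]
  have h1 := invalid_bound L K C2 h hC hF
  have h2 : L.Ex f ≤ ∑ ρ ∈ L.roots, avF (fun ψ => ∑ A ∈ (L.D ρ).powerset,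
      if L.Valid (ρ, ψ, A) then L.dens ρ ψ A * f ρ ψ A else 0) +
      Φ * ∑ ρ ∈ L.roots, avF (fun ψ => ∑ A ∈ (L.D ρ).powerset,
      if L.Valid (ρ, ψ, A) then 0 else L.dens ρ ψ A) := by
    unfold LawData.Ex
    rw [Finset.mul_sum, ← Finset.sum_add_distrib]
    refine Finset.sum_le_sum fun ρ _ => ?_
    rw [← e6_avF_mul, ← e6_avF_add]
    refine avF_mono fun ψ => ?_
    rw [Finset.mul_sum, ← Finset.sum_add_distrib]
    refine Finset.sum_le_sum fun A _ => ?_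
    have hd := dens_nonneg L K C2 h hC ρ ψ A
    split_ifs
    · rw [mul_zero, add_zero]
    · rw [zero_add, mul_comm]
      exact mul_le_mul_of_nonneg_right (hf ρ ψ A).2 hd
  have h3 := mul_le_mul_of_nonneg_left h1 hΦ
  linarith

/-- total weight -/
theorem e6_total (L : LawData τ P κ) (w' : τ × (τ → P) × Finset τ → ℝ) (h0 : ∀ e, 0 ≤ w' e)
    (h1 : ∀ e, w' e ≠ 0 → L.hw e ≠ 0) (h2 : ∀ v, load L.hS w' v ≤ 1)
    (hF : L.F.card ≤ Fintype.card P) : ∑ e, w' e ≤ Fintype.card P := by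
  classical
  have h3 : ∑ e, w' e ≤ ∑ ρ ∈ L.roots, load L.hS w' (Sum.inl ρ) := by
    unfold load
    rw [Finset.sum_comm]
    refine Finset.sum_le_sum fun e _ => ?_
    by_cases he : w' e = 0
    · rw [he]
      refine Finset.sum_nonneg fun ρ _ => ?_
      split_ifs <;> exact le_rfl
    · have hv := (e6_valid (h1 e he)).1.1
      have h4 : (if Sum.inl e.1 ∈ L.hS e then w' e else 0) ≤
          ∑ ρ ∈ L.roots, if (Sum.inl ρ : τ ⊕ (P ⊕ κ)) ∈ L.hS e then w' e else 0 :=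
        Finset.single_le_sum (f := fun ρ => if (Sum.inl ρ : τ ⊕ (P ⊕ κ)) ∈ L.hS e then w' e else 0)
          (fun ρ _ => by
            split_ifs
            · exact h0 e
            · exact le_rfl) hv
      rwa [if_pos (e6_inl L e)] at h4
  refine h3.trans ((Finset.sum_le_sum fun ρ _ => h2 _).trans ?_)
  rw [Finset.sum_const, nsmul_eq_mul, mul_one]
  have h5 : L.roots.card ≤ L.F.card := Finset.card_le_card (Finset.filter_subset _ _)
  exact_mod_cast h5.trans hF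

end Glue

/-- asymptotic inequality -/
theorem e6_asym (A ε : ℝ) (hA : 0 ≤ A) (hε : 0 < ε) :
    ∃ n0 : ℕ, ∀ n : ℕ, n0 ≤ n →
      A * Real.sqrt ((n : ℝ) + 1) * (1 + Real.log ((n : ℝ) ^ 5)) ≤ ε * n := by
  -- with `m = n^(1/4)`
  obtain ⟨n0, hn0⟩ := exists_nat_ge (max 1 ((42 * A / ε) ^ 4))
  refine ⟨n0, fun n hn => ?_⟩
  have hnR : max 1 ((42 * A / ε) ^ 4) ≤ (n : ℝ) := hn0.trans (by exact_mod_cast hn)
  have hn1 : (1 : ℝ) ≤ n := (le_max_left _ _).trans hnR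
  have hn2 : (42 * A / ε) ^ 4 ≤ (n : ℝ) := (le_max_right _ _).trans hnR
  set m : ℝ := Real.sqrt (Real.sqrt n) with hm
  have hm0 : 0 ≤ m := Real.sqrt_nonneg _
  have hm2 : m ^ 2 = Real.sqrt n := Real.sq_sqrt (Real.sqrt_nonneg _)
  have hm4 : m ^ 4 = n := by
    have : m ^ 4 = (m ^ 2) ^ 2 := by ring
    rw [this, hm2, Real.sq_sqrt (by linarith)]
  have hm1 : 1 ≤ m := by
    rw [hm, Real.one_le_sqrt, Real.one_le_sqrt]
    exact hn1
  have hlog : Real.log ((n : ℝ) ^ 5) ≤ 20 * m := by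
    have h1 : Real.log m ≤ m := (Real.log_le_sub_one_of_pos (by linarith)).trans (by linarith)
    rw [← hm4, ← pow_mul, Real.log_pow]
    push_cast
    linarith
  have hs : Real.sqrt ((n : ℝ) + 1) ≤ 2 * m ^ 2 := by
    rw [Real.sqrt_le_iff]
    refine ⟨by positivity, ?_⟩
    have : (2 * m ^ 2) ^ 2 = 4 * m ^ 4 := by ring
    rw [this, hm4]
    linarith
  have hA1 : 42 * A / ε ≤ m := by
    have h1 : 0 ≤ 42 * A / ε := by positivity
    have h2 : (42 * A / ε) ^ 4 ≤ m ^ 4 := by rw [hm4]; exact hn2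
    exact (pow_le_pow_iff_left₀ h1 hm0 (by norm_num)).1 h2
  have hA2 : 42 * A ≤ ε * m := by
    rw [div_le_iff₀ hε] at hA1
    linarith
  have hlog0 : 0 ≤ Real.log ((n : ℝ) ^ 5) := Real.log_nonneg (one_le_pow₀ hn1)
  calc A * Real.sqrt ((n : ℝ) + 1) * (1 + Real.log ((n : ℝ) ^ 5)) ≤
      A * (2 * m ^ 2) * (21 * m) := by
        apply mul_le_mul
        · exact mul_le_mul_of_nonneg_left hs hA
        · linarith
        · linarith
        · positivity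
    _ = (42 * A) * m ^ 3 := by ring
    _ ≤ (ε * m) * m ^ 3 := mul_le_mul_of_nonneg_right hA2 (by positivity)
    _ = ε * n := by rw [← hm4]; ring

theorem law_nibble (K : ℕ) (hK : 1 ≤ K) (C2 Φ ε : ℝ) (hC : 1 ≤ C2) (hΦ : 1 ≤ Φ) (hε : 0 < ε)
    (hε1 : ε ≤ 1) (m : ℕ) :
    ∃ σ : ℝ, 0 < σ ∧ ∃ n0 : ℕ, ∀ (τ P κ : Type) [Fintype τ] [DecidableEq τ] [Fintype P]
      [DecidableEq P] [Nonempty P] [Fintype κ] [DecidableEq κ] (L : LawData τ P κ), L.OK K C2 →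
      L.m = m →
      n0 ≤ Fintype.card P → L.F.card ≤ Fintype.card P →
    ∀ (ω : ℕ → ℝ), (∀ j, 0 ≤ ω j) → ∑ j ∈ range K, ω j ≤ 1 →
      L.H1 K ω σ → L.H2 ω σ (ε / 16) → L.H3 σ →
    ∀ (Λ : Type) [Fintype Λ] [Nonempty Λ] (f : Λ → τ → (τ → P) → Finset τ → ℝ),
      Fintype.card Λ ≤ Fintype.card P ^ 5 → (∀ i, L.Local (f i)) →
      (∀ i ρ ψ A, 0 ≤ f i ρ ψ A ∧ f i ρ ψ A ≤ Φ) →
    ∃ (M : Finset τ) (ψ : τ → P) (A : Finset τ), M ⊆ L.roots ∧
      A ⊆ L.F.filter (fun v => L.rho v ∈ M) ∧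
      Set.InjOn ψ (L.F.filter (fun v => L.rho v ∈ M) : Set τ) ∧
      (∀ v ∈ L.F.filter (fun v => L.rho v ∈ M), L.dt v ψ ≠ 0) ∧
      Set.InjOn (fun v => L.clr v ψ) (A : Set τ) ∧
      ∀ i, (1 - ε) * L.Ex (f i) - ε * Fintype.card P ≤ ∑ ρ ∈ M, f i ρ ψ (A ∩ L.D ρ) := by
  obtain ⟨δ, hδ, B, hB, hnib⟩ := strong_nibble (2 * K + 1) (by omega) Φ (ε / 4) hΦ (by positivity)
  obtain ⟨n1, hn1⟩ := e6_asym B (ε / 8) hB (by positivity)
  have hC2 : 0 < C2 ^ K := by positivity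
  obtain ⟨n2, hn2⟩ := exists_nat_ge ((m : ℝ) ^ 2 * (8 * ((K : ℝ) + 1) ^ 2 * C2 ^ K) / δ)
  obtain ⟨n3, hn3⟩ := exists_nat_ge (Φ * ((m : ℝ) * (2 * (K : ℝ) ^ 2 * C2 ^ K)) / (ε / 8))
  refine ⟨min (min (δ / 2) (ε / 16)) (ε / (8 * Φ)), by positivity, max (max n1 n2) (max n3 1), ?_⟩
  intro τ P κ _ _ _ _ _ _ _ L h hm hn hF ω hω hω1 hH1 hH2 hH3 Λ _ _ f hΛ hloc hf
  set σ := min (min (δ / 2) (ε / 16)) (ε / (8 * Φ)) with hσ
  have hσ0 : 0 < σ := by rw [hσ]; positivity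
  have hσ1 : σ ≤ δ / 2 := (min_le_left _ _).trans (min_le_left _ _)
  have hσ2 : σ ≤ ε / 16 := (min_le_left _ _).trans (min_le_right _ _)
  have hσ3 : σ ≤ ε / (8 * Φ) := min_le_right _ _
  set N := Fintype.card P with hN
  have hN1 : n1 ≤ N := ((le_max_left _ _).trans (le_max_left _ _)).trans hn
  have hN2 : n2 ≤ N := ((le_max_right _ _).trans (le_max_left _ _)).trans hn
  have hN3 : n3 ≤ N := ((le_max_left _ _).trans (le_max_right _ _)).trans hn
  have hN4 : 1 ≤ N := ((le_max_right _ _).trans (le_max_right _ _)).trans hn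
  have hNR : (1 : ℝ) ≤ N := by exact_mod_cast hN4
  have hN0 : (0 : ℝ) < N := by linarith
  set γ := ε / 8 with hγ
  have hγ0 : 0 ≤ γ := by positivity
  have hw0 : ∀ e, 0 ≤ L.hw e := by
    intro e
    unfold LawData.hw
    split_ifs
    · exact div_nonneg (dens_nonneg L K C2 h hC _ _ _) (by positivity)
    · exact le_rfl
  obtain ⟨w', hw'0, hw'1, hw'2, hw'3⟩ := trim L.hS L.hw γ hγ0 hw0
  have hexc := load_excess_total L K hK C2 h hC ω hω hω1 σ (ε / 16) hσ0.le hH1 hH2 γ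
    (by rw [hγ]; linarith) hγ0
  have hw'w : ∀ e, w' e ≤ L.hw e := by
    intro e
    refine (hw'1 e).trans ?_
    exact div_le_self (hw0 e) (by linarith)
  have hne : ∀ e, w' e ≠ 0 → L.hw e ≠ 0 := by
    intro e he h0
    have h1 := hw'w e
    rw [h0] at h1
    exact he (le_antisymm h1 (hw'0 e))
  have hgood : Good L.hS w' (2 * K + 1) δ := by
    refine ⟨hw'0, fun e => (hS_card L K C2 h e).1, fun e => (hS_card L K C2 h e).2, hw'2, ?_⟩
    intro u v huv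
    refine (codeg_mono L.hS L.hw w' hw'w u v).trans ?_
    refine (codeg_bound L K C2 h hC hF σ hσ0.le hH3 u v huv).trans ?_
    have h1 : (m : ℝ) ^ 2 * (8 * ((K : ℝ) + 1) ^ 2 * C2 ^ K) / δ ≤ N :=
      hn2.trans (by exact_mod_cast hN2)
    rw [div_le_iff₀ hδ] at h1
    have h2 : (L.m : ℝ) ^ 2 * (4 * ((K : ℝ) + 1) ^ 2 * C2 ^ K) / (N : ℝ) ≤ δ / 2 := by
      rw [div_le_iff₀ hN0, hm]
      linarith
    linarith
  obtain ⟨Mt, hmatch, hMw, hMf⟩ := hnib _ _ L.hS w' hgood Λ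
    (fun i e => f i e.1 e.2.1 e.2.2) (fun i e => hf i e.1 e.2.1 e.2.2)
  obtain ⟨M, ψ, A, g1, g2, g3, g4, g5, g6⟩ := e6_glue L K C2 h hC Mt hmatch
    (fun e he => hne e (hMw e he))
  refine ⟨M, ψ, A, g1, g2, g3, g4, g5, fun i => ?_⟩
  rw [g6 (f i) (hloc i)]
  refine le_trans ?_ (hMf i)
  -- estimates
  have ht := e6_total L w' hw'0 hne hw'2 hF
  have ht0 : 0 ≤ ∑ e, w' e := Finset.sum_nonneg fun e _ => hw'0 e
  have hs := e6_sum L K C2 h hC hF Φ (by linarith) (f i) (fun ρ ψ A => hf i ρ ψ A)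
  rw [hm] at hs
  have hEx0 : 0 ≤ L.Ex (f i) := by
    unfold LawData.Ex
    refine Finset.sum_nonneg fun ρ _ => ?_
    unfold avF
    refine div_nonneg (Finset.sum_nonneg fun ψ _ => Finset.sum_nonneg fun A _ => ?_) (by positivity)
    exact mul_nonneg (dens_nonneg L K C2 h hC _ _ _) (hf i _ _ _).1
  -- trimmed sum
  have hsum : (∑ e, L.hw e * f i e.1 e.2.1 e.2.2) / (1 + γ) - Φ * (2 * σ * N) ≤
      ∑ e, w' e * f i e.1 e.2.1 e.2.2 := by
    have h1 : ∑ e, (L.hw e / (1 + γ) - w' e) * f i e.1 e.2.1 e.2.2 ≤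
        Φ * ∑ e, (L.hw e / (1 + γ) - w' e) := by
      rw [Finset.mul_sum]
      refine Finset.sum_le_sum fun e _ => ?_
      rw [mul_comm]
      exact mul_le_mul_of_nonneg_right (hf i _ _ _).2 (sub_nonneg.2 (hw'1 e))
    have h2 : ∑ e, (L.hw e / (1 + γ) - w' e) * f i e.1 e.2.1 e.2.2 =
        (∑ e, L.hw e * f i e.1 e.2.1 e.2.2) / (1 + γ) - ∑ e, w' e * f i e.1 e.2.1 e.2.2 := by
      rw [Finset.sum_div, ← Finset.sum_sub_distrib]
      exact Finset.sum_congr rfl fun e _ => by ring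
    have h3 := mul_le_mul_of_nonneg_left (hw'3.trans hexc) (show 0 ≤ Φ by linarith)
    linarith
  have h3b : Φ * ((m : ℝ) * (2 * (K : ℝ) ^ 2 * C2 ^ K)) ≤ ε / 8 * N := by
    have h1 : Φ * ((m : ℝ) * (2 * (K : ℝ) ^ 2 * C2 ^ K)) / (ε / 8) ≤ N := hn3.trans (by exact_mod_cast hN3)
    rw [div_le_iff₀ (by positivity)] at h1
    linarith
  have h3c : Φ * (2 * σ * N) ≤ ε / 4 * N := by
    have h1 : σ * (8 * Φ) ≤ ε := by
      rwa [le_div_iff₀ (by positivity)] at hσ3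
    have h2 : σ * (8 * Φ) * N ≤ ε * N := mul_le_mul_of_nonneg_right h1 hN0.le
    linarith
  have hlog : B * Real.sqrt ((∑ e, w' e) + 1) * (1 + Real.log (Fintype.card Λ)) ≤ ε / 8 * N := by
    refine le_trans ?_ (hn1 N hN1)
    have h1 : (1 : ℝ) ≤ Fintype.card Λ := by
      exact_mod_cast Fintype.card_pos
    have h2 : (Fintype.card Λ : ℝ) ≤ (N : ℝ) ^ 5 := by exact_mod_cast hΛ
    have h3 : Real.log (Fintype.card Λ) ≤ Real.log ((N : ℝ) ^ 5) :=
      Real.log_le_log (by linarith) h2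
    have h4 : 0 ≤ Real.log (Fintype.card Λ) := Real.log_nonneg h1
    apply mul_le_mul
    · exact mul_le_mul_of_nonneg_left (Real.sqrt_le_sqrt (by linarith)) hB
    · linarith
    · linarith
    · positivity
  -- combine
  set E := L.Ex (f i) with hE
  set T := ∑ e, w' e * f i e.1 e.2.1 e.2.2 with hT
  have hT1 : E / (1 + γ) - ε / 8 * N - ε / 4 * N ≤ T := by
    have h1 : (E - Φ * ((m : ℝ) * (2 * (K : ℝ) ^ 2 * C2 ^ K))) / (1 + γ) ≤
        (∑ e, L.hw e * f i e.1 e.2.1 e.2.2) / (1 + γ) :=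
      div_le_div_of_nonneg_right hs (by linarith)
    have h2 : Φ * ((m : ℝ) * (2 * (K : ℝ) ^ 2 * C2 ^ K)) / (1 + γ) ≤ Φ * ((m : ℝ) * (2 * (K : ℝ) ^ 2 * C2 ^ K)) :=
      div_le_self (by positivity) (by linarith)
    rw [sub_div] at h1
    linarith
  have hT2 : (1 - ε / 8) * E ≤ E / (1 + γ) := by
    rw [le_div_iff₀ (by linarith), hγ]
    nlinarith [mul_nonneg hEx0 (mul_nonneg hε.le hε.le)]
  have hT3 : (1 - ε / 4) * T ≥ (1 - ε / 4) * ((1 - ε / 8) * E - ε / 8 * N - ε / 4 * N) :=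
    mul_le_mul_of_nonneg_left (by linarith) (by linarith)
  have hT4 : ε / 4 * (∑ e, w' e) ≤ ε / 4 * N := mul_le_mul_of_nonneg_left ht (by positivity)
  have hT5 : (1 - ε / 4) * ((1 - ε / 8) * E - ε / 8 * N - ε / 4 * N) ≥
      (1 - ε) * E - (ε / 8 * N + ε / 4 * N) := by
    have h1 : 0 ≤ ε * E := mul_nonneg hε.le hEx0
    have h2 : 0 ≤ ε * N := mul_nonneg hε.le hN0.le
    have h3 : 0 ≤ ε * (ε * E) := mul_nonneg hε.le h1
    have h4 : 0 ≤ ε * (ε * N) := mul_nonneg hε.le h2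
    nlinarith
  have hT6 : 0 ≤ ε * N := mul_nonneg hε.le hN0.le
  linarith

end H38.Col2
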