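import Pool.Agent.H38.Col2.E1_Marg
import Pool.Agent.H38.Col2.E2_Dens
import Pool.Agent.H38.Col2.E4_Load

/-! E7: lower bounds for expectations of test functions. -/

namespace H38.Col2

open H64.Col
open Finset

variable {τ P κ : Type} [Fintype τ] [DecidableEq τ] [Fintype P] [DecidableEq P] [Nonempty P]

/-- indicator -/
noncomputable def ind (X : Finset P) (y : P) : ℝ := if y ∈ X then 1 else 0

/-- `X` is reached with probability `≥ κ0` from everywhere in one step -/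
def LawData.Rich (L : LawData τ P κ) (κ0 : ℝ) (X : Finset P) : Prop :=
  (∀ x, κ0 ≤ avP (fun y => L.W x y * ind X y)) ∧
    ∀ ρ ∈ L.roots, κ0 ≤ avP (fun y => L.g ρ y * ind X y)

/-- two steps reach every position with density `≥ κ1` -/
def LawData.TwoStep (L : LawData τ P κ) (κ1 : ℝ) : Prop :=
  (∀ z w, κ1 ≤ avP (fun b => L.W z b * L.W b w)) ∧
    ∀ ρ ∈ L.roots, ∀ w, κ1 ≤ avP (fun b => L.g ρ b * L.W b w)

omit [DecidableEq P] in
theorem E7_card_pos : (0 : ℝ) < (Fintype.card P : ℝ) := by exact_mod_cast Fintype.card_pos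

omit [DecidableEq P] [Nonempty P] in
theorem E7_av_mono {a b : P → ℝ} (h : ∀ y, a y ≤ b y) : avP a ≤ avP b := by
  unfold avP
  exact div_le_div_of_nonneg_right (Finset.sum_le_sum fun y _ => h y) (by positivity)

omit [DecidableEq P] in
theorem E7_av_const (c : ℝ) : avP (fun _ : P => c) = c := by
  have := E7_card_pos (P := P)
  unfold avP
  rw [Finset.sum_const, Finset.card_univ, nsmul_eq_mul]
  field_simp

omit [DecidableEq P] [Nonempty P] in
theorem E7_av_smul (r : ℝ) (a : P → ℝ) : avP (fun y => r * a y) = r * avP a := by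
  unfold avP
  rw [← Finset.mul_sum, mul_div_assoc]

omit [DecidableEq P] [Nonempty P] in
theorem E7_av_smul_right (r : ℝ) (a : P → ℝ) : avP (fun y => a y * r) = avP a * r := by
  unfold avP
  rw [← Finset.sum_mul]
  ring

omit [DecidableEq P] [Nonempty P] in
theorem E7_av_sum {α : Type} (s : Finset α) (f : α → P → ℝ) :
    avP (fun y => ∑ i ∈ s, f i y) = ∑ i ∈ s, avP (f i) := by
  unfold avP
  rw [Finset.sum_comm, Finset.sum_div]

omit [DecidableEq P] [Nonempty P] in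
theorem E7_av_comm (f : P → P → ℝ) :
    avP (fun x => avP (fun y => f x y)) = avP (fun y => avP (fun x => f x y)) := by
  unfold avP
  rw [← Finset.sum_div, ← Finset.sum_div, Finset.sum_comm]

omit [DecidableEq P] [Nonempty P] in
theorem E7_av_nonneg {a : P → ℝ} (h : ∀ y, 0 ≤ a y) : 0 ≤ avP a := by
  unfold avP
  exact div_nonneg (Finset.sum_nonneg fun y _ => h y) (by positivity)

omit [Nonempty P] in
theorem E7_ind_nonneg (X : Finset P) (y : P) : 0 ≤ ind X y := by
  unfold ind; split <;> norm_num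

omit [Nonempty P] in
theorem E7_av_ind (X : Finset P) : avP (ind X) = X.card / (Fintype.card P : ℝ) := by
  unfold avP ind
  rw [Finset.sum_ite_mem, Finset.univ_inter, Finset.sum_const, nsmul_eq_mul, mul_one]

omit [Fintype P] [DecidableEq P] [Nonempty P] in
theorem E7_rho [Fintype P] (L : LawData τ P κ) (K : ℕ) (C2 : ℝ) (h : L.OK K C2) :
    ∀ n : ℕ, ∀ v ∈ L.F, L.lev v = n → L.rho v ∈ L.roots := by
  intro n
  induction n with
  | zero =>
    intro v hv hl
    have := h.lev_pos v hv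
    omega
  | succ n ih =>
    intro v hv hl
    by_cases h1 : L.lev v = 1
    · rw [h.root v hv h1]
      exact Finset.mem_filter.2 ⟨hv, h1⟩
    · obtain ⟨h2, h3, h4⟩ := h.step v hv h1
      rw [h4]
      exact ih _ h2 (by omega)

/-- the density of a vertex of level at least two is at least `κ1` -/
theorem E7_dens (L : LawData τ P κ) (K : ℕ) (C2 : ℝ) (h : L.OK K C2) (κ1 : ℝ)
    (h2 : L.TwoStep κ1) (ρ : τ) (hρ : ρ ∈ L.roots) (j : ℕ) (w : P) :
    κ1 ≤ ((op L.W)^[j + 1] (L.g ρ)) w := by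
  rw [Function.iterate_succ_apply]
  have h3 : ∀ x, κ1 ≤ op L.W (L.g ρ) x := by
    intro x
    refine (h2.2 ρ hρ x).trans (le_of_eq ?_)
    unfold op
    congr 1
    funext b
    rw [h.W_symm x b, mul_comm]
  calc κ1 = ((op L.W)^[j] (fun _ => κ1)) w := (op_iter_const L K C2 h j κ1 w).symm
    _ ≤ _ := op_mono L K C2 h j h3 w

theorem E7_g_nonneg (L : LawData τ P κ) (K : ℕ) (C2 : ℝ) (h : L.OK K C2) (ρ : τ) (y : P) :
    0 ≤ L.g ρ y := (h.gr_nonneg ρ y).trans (h.gr_le ρ y)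

theorem leafA (L : LawData τ P κ) (K : ℕ) (C2 : ℝ) (h : L.OK K C2) (κ0 : ℝ) (h0 : 0 ≤ κ0)
    (h1 : κ0 ≤ 1) (X1 X2 : Finset P) (hX1 : L.Rich κ0 X1) (hX2 : L.Rich κ0 X2)
    (hg : ∀ ρ ∈ L.roots, 1 / 2 ≤ avP (L.g ρ)) (u : τ) (hu : u ∈ L.F) (hl : L.lev u ≠ 1) :
    κ0 ^ 2 / 2 ≤ avF (fun ψ => (∏ v ∈ L.D (L.rho u), L.dt v ψ) *
      (ind X1 (ψ (L.ref u)) * ind X2 (ψ u))) := by
  have hρ := E7_rho L K C2 h _ u hu rfl
  have hlp := h.lev_pos u hu
  have huD : u ∈ L.D (L.rho u) := Finset.mem_filter.2 ⟨hu, rfl⟩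
  have e1 : (fun ψ : τ → P => (∏ v ∈ L.D (L.rho u), L.dt v ψ) *
      (ind X1 (ψ (L.ref u)) * ind X2 (ψ u))) =
      fun ψ => (∏ v ∈ (L.D (L.rho u)).erase u, L.dt v ψ) *
        ((fun x y => L.W x y * (ind X1 x * ind X2 y)) (ψ (L.ref u)) (ψ u)) := by
    funext ψ
    rw [← Finset.mul_prod_erase _ _ huD]
    have : L.dt u ψ = L.W (ψ (L.ref u)) (ψ u) := by
      unfold LawData.dt; rw [if_neg hl]
    rw [this]
    ring
  rw [e1, marg_edge L K C2 h u hu hl (fun x y => L.W x y * (ind X1 x * ind X2 y))]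
  have e2 : ∀ x, κ0 * ind X1 x ≤ avP (fun y => L.W x y * (ind X1 x * ind X2 y)) := by
    intro x
    have : (fun y => L.W x y * (ind X1 x * ind X2 y)) =
        fun y => ind X1 x * (L.W x y * ind X2 y) := by funext y; ring
    rw [this, E7_av_smul, mul_comm κ0]
    exact mul_le_mul_of_nonneg_left (hX2.1 x) (E7_ind_nonneg _ _)
  have e3 : ∀ y, κ0 * ((op L.W)^[L.lev u - 2] (ind X1)) y ≤
      ((op L.W)^[L.lev u - 2] (fun x => avP (fun y => L.W x y * (ind X1 x * ind X2 y)))) y := by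
    intro y
    rw [← op_smul]
    exact op_mono L K C2 h _ e2 y
  have hgn := E7_g_nonneg L K C2 h (L.rho u)
  refine le_trans ?_ (E7_av_mono fun y => mul_le_mul_of_nonneg_left (e3 y) (hgn y))
  have e4 : (fun y => L.g (L.rho u) y * (κ0 * ((op L.W)^[L.lev u - 2] (ind X1)) y)) =
      fun y => κ0 * (L.g (L.rho u) y * ((op L.W)^[L.lev u - 2] (ind X1)) y) := by
    funext y; ring
  rw [e4, E7_av_smul]
  obtain ⟨j, hj⟩ : ∃ j, L.lev u - 2 = j := ⟨_, rfl⟩
  rw [hj]
  cases j with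
  | zero =>
    have h3 := hX1.2 _ hρ
    simp only [Function.iterate_zero, id]
    nlinarith
  | succ j =>
    have h3 : ∀ y, κ0 ≤ ((op L.W)^[j + 1] (ind X1)) y := by
      intro y
      rw [Function.iterate_succ_apply]
      calc κ0 = ((op L.W)^[j] (fun _ => κ0)) y := (op_iter_const L K C2 h j κ0 y).symm
        _ ≤ _ := op_mono L K C2 h j (fun x => hX1.1 x) y
    have h4 : avP (fun y => L.g (L.rho u) y * κ0) ≤
        avP (fun y => L.g (L.rho u) y * ((op L.W)^[j + 1] (ind X1)) y) :=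
      E7_av_mono fun y => mul_le_mul_of_nonneg_left (h3 y) (hgn y)
    rw [E7_av_smul_right] at h4
    have h5 := hg _ hρ
    nlinarith

theorem leafB (L : LawData τ P κ) (K : ℕ) (C2 : ℝ) (h : L.OK K C2) (κ1 : ℝ) (h0 : 0 ≤ κ1)
    (h2 : L.TwoStep κ1) (X : Finset P)
    (hg : ∀ ρ ∈ L.roots, 1 / 2 ≤ avP (L.g ρ)) (u : τ) (hu : u ∈ L.F) (hl : L.lev u ≠ 1) :
    κ1 / 2 * (X.card / (Fintype.card P : ℝ)) ≤
      avF (fun ψ => (∏ v ∈ L.D (L.rho u), L.dt v ψ) * ind X (ψ u)) := by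
  have hρ := E7_rho L K C2 h _ u hu rfl
  have hlp := h.lev_pos u hu
  rw [marg_one L K C2 h u hu (ind X), op_adj L K C2 h]
  obtain ⟨j, hj⟩ : ∃ j, L.lev u - 1 = j + 1 := ⟨L.lev u - 2, by omega⟩
  rw [hj]
  have h3 : avP (fun x => κ1 * ind X x) ≤
      avP (fun x => ((op L.W)^[j + 1] (L.g (L.rho u))) x * ind X x) :=
    E7_av_mono fun x => mul_le_mul_of_nonneg_right (E7_dens L K C2 h κ1 h2 _ hρ j x)
      (E7_ind_nonneg _ _)
  rw [E7_av_smul, E7_av_ind] at h3
  have h4 : 0 ≤ (X.card : ℝ) / (Fintype.card P : ℝ) := by positivity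
  nlinarith [mul_nonneg h0 h4]

theorem bareC (L : LawData τ P κ) (K : ℕ) (C2 : ℝ) (h : L.OK K C2) (κ0 κ1 : ℝ) (h0 : 0 ≤ κ0)
    (h1 : 0 ≤ κ1) (h2 : L.TwoStep κ1) (X1 X : Finset P) (hX1 : L.Rich κ0 X1)
    (hg : ∀ ρ ∈ L.roots, 1 / 2 ≤ avP (L.g ρ)) (u a : τ) (hu : u ∈ L.F) (hl : 3 ≤ L.lev u)
    (ha : a ∈ L.F) (hla : L.lev a ≠ 1) (hau : L.ref a = u) :
    κ1 * κ0 ^ 2 / 2 * (X.card / (Fintype.card P : ℝ)) ≤
      avF (fun ψ => (∏ v ∈ L.D (L.rho u), L.dt v ψ) *
        (ind X1 (ψ (L.ref u)) * ind X (ψ u) * ind X1 (ψ a))) := by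
  have hρ := E7_rho L K C2 h _ u hu rfl
  rw [marg_three L K C2 h u a hu (by omega) ha hla hau
    (fun x y z => ind X1 x * ind X y * ind X1 z)]
  rw [op_adj L K C2 h]
  obtain ⟨j, hj⟩ : ∃ j, L.lev u - 2 = j + 1 := ⟨L.lev u - 3, by omega⟩
  rw [hj]
  -- the inner function
  have e1 : ∀ x, κ0 * (ind X1 x * avP (fun y' => L.W x y' * ind X y')) ≤
      avP (fun y' => L.W x y' * avP (fun z => L.W y' z * (ind X1 x * ind X y' * ind X1 z))) := by
    intro x
    rw [← E7_av_smul (ind X1 x), ← E7_av_smul κ0]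
    refine E7_av_mono fun y' => ?_
    have e2 : (fun z => L.W y' z * (ind X1 x * ind X y' * ind X1 z)) =
        fun z => (ind X1 x * ind X y') * (L.W y' z * ind X1 z) := by funext z; ring
    rw [e2, E7_av_smul]
    have e3 := hX1.1 y'
    have e4 : 0 ≤ L.W x y' * (ind X1 x * ind X y') :=
      mul_nonneg (h.W_nonneg x y') (mul_nonneg (E7_ind_nonneg _ _) (E7_ind_nonneg _ _))
    have := mul_le_mul_of_nonneg_left e3 e4
    calc κ0 * (ind X1 x * (L.W x y' * ind X y')) = L.W x y' * (ind X1 x * ind X y') * κ0 := by ring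
      _ ≤ _ := this
      _ = _ := by ring
  have e0 : ∀ x, 0 ≤ ind X1 x * avP (fun y' => L.W x y' * ind X y') := fun x =>
    mul_nonneg (E7_ind_nonneg _ _) (E7_av_nonneg fun y' =>
      mul_nonneg (h.W_nonneg x y') (E7_ind_nonneg _ _))
  have e5 : avP (fun x => κ1 * (κ0 * (ind X1 x * avP (fun y' => L.W x y' * ind X y')))) ≤
      avP (fun x => ((op L.W)^[j + 1] (L.g (L.rho u))) x *
        avP (fun y' => L.W x y' * avP (fun z => L.W y' z * (ind X1 x * ind X y' * ind X1 z)))) := by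
    refine E7_av_mono fun x => ?_
    exact mul_le_mul (E7_dens L K C2 h κ1 h2 _ hρ j x) (e1 x) (mul_nonneg h0 (e0 x))
      (h1.trans (E7_dens L K C2 h κ1 h2 _ hρ j x))
  refine le_trans ?_ e5
  rw [E7_av_smul, E7_av_smul]
  have e6 : κ0 * (X.card / (Fintype.card P : ℝ)) ≤
      avP (fun x => ind X1 x * avP (fun y' => L.W x y' * ind X y')) := by
    have e7 : (fun x => ind X1 x * avP (fun y' => L.W x y' * ind X y')) =
        fun x => avP (fun y' => ind X1 x * (L.W x y' * ind X y')) := by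
      funext x; rw [E7_av_smul]
    rw [e7, E7_av_comm, ← E7_av_ind, ← E7_av_smul]
    refine E7_av_mono fun y => ?_
    have e8 : (fun x => ind X1 x * (L.W x y * ind X y)) =
        fun x => (L.W y x * ind X1 x) * ind X y := by
      funext x; rw [h.W_symm x y]; ring
    rw [e8, E7_av_smul_right]
    exact mul_le_mul_of_nonneg_right (hX1.1 y) (E7_ind_nonneg _ _)
  have e9 : 0 ≤ (X.card : ℝ) / (Fintype.card P : ℝ) := by positivity
  have e10 : κ1 * (κ0 * (κ0 * (X.card / (Fintype.card P : ℝ)))) ≤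
      κ1 * (κ0 * avP (fun x => ind X1 x * avP (fun y' => L.W x y' * ind X y'))) :=
    mul_le_mul_of_nonneg_left (mul_le_mul_of_nonneg_left e6 h0) h1
  refine le_trans ?_ e10
  have e11 : 0 ≤ κ1 * κ0 ^ 2 * (X.card / (Fintype.card P : ℝ)) := by positivity
  nlinarith

theorem Ex_size (L : LawData τ P κ) (K : ℕ) (C2 : ℝ) (h : L.OK K C2) :
    L.Ex (fun ρ _ _ => ((L.D ρ).card : ℝ)) = ∑ v ∈ L.F, avP (L.g (L.rho v)) := by
  have h1 := Ex_sum L K C2 h Finset.univ (fun _ _ => (1 : ℝ))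
  simp only [Finset.inter_univ, Finset.sum_const, nsmul_eq_mul, mul_one] at h1
  rw [h1]
  refine Finset.sum_congr rfl fun v hv => ?_
  have h2 := marg_one L K C2 h v hv (fun _ => 1)
  simp only [mul_one] at h2
  rw [h2]
  congr 1
  funext y
  rw [op_iter_const L K C2 h, mul_one]

/-- expected number of rainbow edges -/
theorem Ex_rb (L : LawData τ P κ) (K : ℕ) (hK : 1 ≤ K) (C2 : ℝ) (h : L.OK K C2) (hC : 1 ≤ C2)
    (ω : ℕ → ℝ) (hω : ∀ j, 0 ≤ ω j) (σ : ℝ) (h1 : L.H1 K ω σ) :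
    (∑ ρ ∈ L.roots, avP (L.gr ρ)) + (Fintype.card P : ℝ) * (∑ j ∈ Ico 1 K, ω j) *
      avP (fun x => avP (fun y => min (L.W x y) 1 / (L.m : ℝ))) - σ * Fintype.card P ≤
      L.Ex (fun _ _ A => (A.card : ℝ)) := by
  have hn := E7_card_pos (P := P)
  rw [Ex_card L K C2 h]
  have hLm : (1 : ℝ) ≤ (L.m : ℝ) := by exact_mod_cast h.m_pos
  set m : P → ℝ := fun x => avP (fun y => min (L.W x y) 1 / (L.m : ℝ)) with hm
  have hm0 : ∀ x, 0 ≤ m x := fun x => E7_av_nonneg fun y =>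
    div_nonneg (le_min (h.W_nonneg x y) zero_le_one) (by linarith)
  have hm1 : ∀ x, m x ≤ 1 := by
    intro x
    have := E7_av_mono (a := fun y => min (L.W x y) 1 / (L.m : ℝ)) (b := fun _ => 1) fun y =>
      (div_le_self (le_min (h.W_nonneg x y) zero_le_one) hLm).trans (min_le_right _ _)
    rwa [E7_av_const] at this
  have hM0 : ∀ j x, 0 ≤ ((op L.W)^[j] m) x := by
    intro j x
    rw [← op_iter_const L K C2 h j 0 x]
    exact op_mono L K C2 h j hm0 x
  have hM1 : ∀ j x, ((op L.W)^[j] m) x ≤ 1 := by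
    intro j x
    rw [← op_iter_const L K C2 h j 1 x]
    exact op_mono L K C2 h j hm1 x
  have hMav : ∀ j, avP ((op L.W)^[j] m) = avP m := by
    intro j
    have h3 := op_adj L K C2 h j (fun _ => 1) m
    simp only [one_mul] at h3
    rw [h3]
    congr 1
    funext x
    rw [op_iter_const L K C2 h, one_mul]
  -- the sum over the vertices
  set T : τ → ℝ := fun v => avF (fun ψ => L.dr v ψ * ∏ u ∈ (L.D (L.rho v)).erase v, L.dt u ψ)
    with hT
  have hroot : ∀ v ∈ L.roots, T v = avP (L.gr v) := by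
    intro v hv
    obtain ⟨hvF, hv1⟩ := Finset.mem_filter.1 hv
    have h3 := marg_root L K C2 h v hv (L.gr v)
    rw [← h3]
    show avF _ = avF _
    congr 1
    funext ψ
    simp only [LawData.dr, if_pos hv1, h.root v hvF hv1]
    ring
  have hedge : ∀ v ∈ L.F, L.lev v ≠ 1 → T v =
      avP (fun y => L.g (L.rho v) y * ((op L.W)^[L.lev v - 2] m) y) := by
    intro v hv hl
    have h3 := marg_edge L K C2 h v hv hl (fun x y => min (L.W x y) 1 / (L.m : ℝ))
    rw [← h3]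
    show avF _ = avF _
    congr 1
    funext ψ
    simp only [LawData.dr, if_neg hl]
    ring
  -- decomposition into levels
  have hsplit : ∑ v ∈ L.F, T v = ∑ v ∈ L.roots, T v +
      ∑ j ∈ Ico 1 K, ∑ v ∈ L.F.filter (fun v => L.lev v = j + 1), T v := by
    rw [← Finset.sum_filter_add_sum_filter_not L.F (fun v => L.lev v = 1)]
    congr 1
    have h3 : ∀ v ∈ L.F.filter (fun v => ¬ L.lev v = 1), L.lev v - 1 ∈ Ico 1 K := by
      intro v hv
      obtain ⟨hvF, hv1⟩ := Finset.mem_filter.1 hv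
      have := h.lev_pos v hvF
      have := h.lev_le v hvF
      rw [Finset.mem_Ico]
      omega
    rw [← Finset.sum_fiberwise_of_maps_to h3]
    refine Finset.sum_congr rfl fun j hj => ?_
    refine Finset.sum_congr ?_ fun _ _ => rfl
    ext v
    simp only [Finset.mem_filter]
    rw [Finset.mem_Ico] at hj
    constructor
    · rintro ⟨⟨h4, h5⟩, h6⟩
      exact ⟨h4, by omega⟩
    · rintro ⟨h4, h5⟩
      exact ⟨⟨h4, by omega⟩, by omega⟩
  have hlev : ∀ j ∈ Ico 1 K, (Fintype.card P : ℝ) * ω j * avP m -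
      ∑ y, |(∑ v ∈ L.F.filter (fun v => L.lev v = j + 1), L.g (L.rho v) y)
        / (Fintype.card P : ℝ) - ω j| ≤
      ∑ v ∈ L.F.filter (fun v => L.lev v = j + 1), T v := by
    intro j hj
    rw [Finset.mem_Ico] at hj
    have h3 : ∑ v ∈ L.F.filter (fun v => L.lev v = j + 1), T v =
        ∑ y, (∑ v ∈ L.F.filter (fun v => L.lev v = j + 1), L.g (L.rho v) y)
          / (Fintype.card P : ℝ) * ((op L.W)^[j - 1] m) y := by
      have h4 : ∀ v ∈ L.F.filter (fun v => L.lev v = j + 1), T v =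
          avP (fun y => L.g (L.rho v) y * ((op L.W)^[j - 1] m) y) := by
        intro v hv
        obtain ⟨hvF, hv1⟩ := Finset.mem_filter.1 hv
        rw [hedge v hvF (by omega), hv1]
        rfl
      rw [Finset.sum_congr rfl h4, ← E7_av_sum]
      unfold avP
      rw [Finset.sum_div]
      refine Finset.sum_congr rfl fun y _ => ?_
      rw [← Finset.sum_mul]
      ring
    rw [h3]
    have h5 : (Fintype.card P : ℝ) * ω j * avP m = ∑ y, ω j * ((op L.W)^[j - 1] m) y := by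
      rw [← Finset.mul_sum, ← hMav (j - 1)]
      unfold avP
      field_simp
    rw [h5, ← Finset.sum_sub_distrib]
    refine Finset.sum_le_sum fun y _ => ?_
    set G := (∑ v ∈ L.F.filter (fun v => L.lev v = j + 1), L.g (L.rho v) y)
          / (Fintype.card P : ℝ) with hG
    have h6 := hM0 (j - 1) y
    have h7 := hM1 (j - 1) y
    have h8 : -|G - ω j| ≤ G - ω j := neg_abs_le _
    have h9 := abs_nonneg (G - ω j)
    nlinarith [mul_le_mul_of_nonneg_right h8 h6, mul_le_mul_of_nonneg_left h7 h9]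
  have hsum : ∑ j ∈ Ico 1 K, ∑ y, |(∑ v ∈ L.F.filter (fun v => L.lev v = j + 1), L.g (L.rho v) y)
        / (Fintype.card P : ℝ) - ω j| ≤ σ * Fintype.card P := by
    refine le_trans ?_ h1
    refine Finset.sum_le_sum_of_subset_of_nonneg ?_ fun j _ _ =>
      Finset.sum_nonneg fun y _ => abs_nonneg _
    intro j hj
    rw [Finset.mem_Ico] at hj
    exact Finset.mem_range.2 hj.2
  have hfin := Finset.sum_le_sum hlev
  rw [Finset.sum_sub_distrib] at hfin
  have h10 : ∑ j ∈ Ico 1 K, (Fintype.card P : ℝ) * ω j * avP m =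
      (Fintype.card P : ℝ) * (∑ j ∈ Ico 1 K, ω j) * avP m := by
    rw [← Finset.sum_mul, ← Finset.mul_sum]
  rw [h10] at hfin
  change _ ≤ ∑ v ∈ L.F, T v
  rw [hsplit, Finset.sum_congr rfl hroot]
  linarith

end H38.Col2
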