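import Pool.Agent.H38.Col2.C3_Core
import Pool.Agent.H38.Col2.E8_Setup

/-! E8a: the setup exists: apply `core_place` to the core `Dc.C` enumerated by increasing depth
(`pa` = parent if it lies in the core), `w i j = #{v ∈ F : lev v = j+1, ref (rho v) = s_i}`,
`D i = #{ρ ∈ Lf : ref ρ = s_i}`, `Dw = K Δ` (at most `K` vertices per root, at most `deg s ≤ Δ` roots
at `s`). -/

namespace H38.Col2

open H64.Col
open Finset

namespace E8a

variable {τ : Type} [Fintype τ] [DecidableEq τ] {T : SimpleGraph τ} {R : Rooted T} {K : ℕ} {e : ℝ}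

theorem rho_root (Dc : Decomp T R K e) :
    ∀ n, ∀ v ∈ Dc.F, Dc.lev v = n → Dc.rho v ∈ Dc.F ∧ Dc.lev (Dc.rho v) = 1 := by
  intro n
  induction n with
  | zero =>
    intro v hv h
    have := Dc.lev_pos v hv
    omega
  | succ n ih =>
    intro v hv h
    by_cases h1 : Dc.lev v = 1
    · rw [(Dc.root v hv h1).2]
      exact ⟨hv, h1⟩
    · obtain ⟨h2, h3, h4⟩ := Dc.step v hv h1
      rw [h4]
      exact ih _ h2 (by omega)

theorem ref_rho_mem (Dc : Decomp T R K e) {v : τ} (hv : v ∈ Dc.F) :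
    Dc.ref (Dc.rho v) ∈ Dc.C := by
  obtain ⟨h1, h2⟩ := rho_root Dc _ v hv rfl
  exact (Dc.root _ h1 h2).1

omit [Fintype τ] in
theorem sum_ref {G C : Finset τ} (g : τ → τ) (hg : ∀ v ∈ G, g v ∈ C) (f : τ → ℝ) :
    ∑ v ∈ G, f (g v) = ∑ s ∈ C, ((G.filter (fun v => g v = s)).card : ℝ) * f s := by
  rw [← Finset.sum_fiberwise_of_maps_to hg]
  refine Finset.sum_congr rfl fun s _ => ?_
  rw [Finset.sum_congr rfl (g := fun _ => f s)]
  · rw [Finset.sum_const, nsmul_eq_mul]
  · intro v hv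
    rw [(Finset.mem_filter.1 hv).2]

omit [Fintype τ] [DecidableEq τ] in
theorem exists_enum (R : Rooted T) (C : Finset τ) :
    ∃ σ : Fin C.card ≃ C, ∀ i j, R.dep (σ j) < R.dep (σ i) → j < i := by
  let e0 : Fin C.card ≃ C := C.equivFin.symm
  let f : Fin C.card → ℕ := fun i => R.dep (e0 i)
  refine ⟨(Tuple.sort f).trans e0, fun i j h => ?_⟩
  by_contra hij
  have := Tuple.monotone_sort f (not_lt.1 hij)
  exact absurd h (not_lt.2 this)

theorem roots_ref_card [DecidableRel T.Adj] (Dc : Decomp T R K e) (s : τ) :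
    (Dc.roots.filter (fun ρ => Dc.ref ρ = s)).card ≤ T.degree s := by
  rw [← SimpleGraph.card_neighborFinset_eq_degree]
  refine Finset.card_le_card fun ρ h => ?_
  rw [mem_filter, Decomp.roots, mem_filter] at h
  rw [SimpleGraph.mem_neighborFinset]
  have := Dc.ref_adj ρ h.1.1
  rw [h.2] at this
  exact this.symm

theorem F_ref_card [DecidableRel T.Adj] (Dc : Decomp T R K e) (s : τ) :
    (Dc.F.filter (fun v => Dc.ref (Dc.rho v) = s)).card ≤ T.degree s * K := by
  have h1 : ∀ v ∈ Dc.F.filter (fun v => Dc.ref (Dc.rho v) = s),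
      Dc.rho v ∈ Dc.roots.filter (fun ρ => Dc.ref ρ = s) := by
    intro v hv
    rw [mem_filter] at hv
    obtain ⟨h2, h3⟩ := rho_root Dc _ v hv.1 rfl
    exact mem_filter.2 ⟨mem_filter.2 ⟨h2, h3⟩, hv.2⟩
  rw [Finset.card_eq_sum_card_fiberwise h1]
  calc _ ≤ ∑ ρ ∈ Dc.roots.filter (fun ρ => Dc.ref ρ = s), K := by
        refine Finset.sum_le_sum fun ρ _ => ?_
        refine le_trans (Finset.card_le_card ?_) (Dc.comp_card ρ)
        intro v hv
        rw [mem_filter, mem_filter] at hv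
        exact mem_filter.2 ⟨hv.1.1, hv.2⟩
    _ = (Dc.roots.filter (fun ρ => Dc.ref ρ = s)).card * K := by rw [sum_const, smul_eq_mul]
    _ ≤ _ := Nat.mul_le_mul_right K (roots_ref_card Dc s)

omit [Fintype τ] [DecidableEq τ] in
theorem sum_lev_card (G : Finset τ) (lev : τ → ℕ) (K : ℕ) :
    ∑ j ∈ range K, (G.filter (fun v => lev v = j + 1)).card ≤ G.card := by
  calc ∑ j ∈ range K, (G.filter (fun v => lev v = j + 1)).card
      = ∑ j ∈ range K, ∑ v ∈ G, if lev v = j + 1 then 1 else 0 := by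
        refine sum_congr rfl fun j _ => ?_
        rw [card_filter]
    _ = ∑ v ∈ G, ∑ j ∈ range K, if lev v = j + 1 then 1 else 0 := sum_comm
    _ ≤ ∑ v ∈ G, 1 := by
        refine sum_le_sum fun v _ => ?_
        rw [← card_filter]
        refine card_le_one.2 fun a ha b hb => ?_
        rw [mem_filter] at ha hb
        omega
    _ = G.card := by simp

end E8a

theorem exists_setup {τ V κ : Type} [Fintype τ] [DecidableEq τ] [Fintype V] [DecidableEq V]
    [Fintype κ] [DecidableEq κ] {m : ℕ} (hm : 1 ≤ m) (c' : ℝ) (c : ℝ) (hc : 1 / 2 < c) (hc1 : c < 1)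
    (G : SimpleGraph V) [DecidableRel G.Adj] (hn : 5 ≤ Fintype.card V)
    (hδ : ∀ x, c * (Fintype.card V : ℝ) ≤ (G.degree x : ℝ))
    (hδ' : ∀ x, c' * (Fintype.card V : ℝ) ≤ (G.degree x : ℝ)) (χ : V → V → κ)
    (hχ : LB G χ m)
    (T : SimpleGraph τ) [DecidableRel T.Adj] (R : Rooted T) (hcard : Fintype.card τ = Fintype.card V)
    (Δ : ℝ) (hΔ : 0 < Δ) (hT : ∀ v, (T.degree v : ℝ) ≤ Δ)
    (K : ℕ) (hK : 1 ≤ K) (e : ℝ) (he : e ≤ c - 1 / 2) (Dc : Decomp T R K e)
    (Lf : Finset τ) (hLf : Lf ⊆ Dc.roots) : Nonempty (Setup m c' G χ Dc c Δ Lf) := by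
  classical
  obtain ⟨σ, hσ⟩ := E8a.exists_enum R Dc.C
  have hKΔ : (0 : ℝ) < K * Δ := mul_pos (by exact_mod_cast hK) hΔ
  -- sums over the core
  have hCsum : ∀ f : τ → ℝ, ∑ s ∈ Dc.C, f s = ∑ i, f (σ i) := by
    intro f
    rw [← Finset.sum_coe_sort]
    exact (Equiv.sum_comp σ (fun s : Dc.C => f s)).symm
  set pa : Fin Dc.C.card → Option (Fin Dc.C.card) := fun i =>
    if h : (σ i : τ) ≠ R.r ∧ R.par (σ i) ∈ Dc.C then some (σ.symm ⟨R.par (σ i), h.2⟩) else none
    with hpa_def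
  have hpa : ∀ i j, pa i = some j → (σ i : τ) ≠ R.r ∧ R.par (σ i) = σ j := by
    intro i j h
    rw [hpa_def] at h
    by_cases h1 : (σ i : τ) ≠ R.r ∧ R.par (σ i) ∈ Dc.C
    · simp only [dif_pos h1, Option.some.injEq] at h
      refine ⟨h1.1, ?_⟩
      rw [← h]
      simp
    · simp only [dif_neg h1] at h
      exact absurd h (by simp)
  have hpa' : ∀ i j, (σ i : τ) ≠ R.r → R.par (σ i) = σ j → pa i = some j := by
    intro i j h1 h2
    have h3 : R.par (σ i) ∈ Dc.C := by rw [h2]; exact (σ j).2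
    rw [hpa_def]
    simp only
    rw [dif_pos ⟨h1, h3⟩]
    congr 1
    rw [Equiv.symm_apply_eq]
    exact Subtype.ext h2
  set w : Fin Dc.C.card → ℕ → ℝ := fun i j =>
    (((Dc.F.filter (fun v => Dc.lev v = j + 1)).filter
      (fun v => Dc.ref (Dc.rho v) = σ i)).card : ℝ) with hw_def
  set D : Fin Dc.C.card → ℝ := fun i => ((Lf.filter (fun ρ => Dc.ref ρ = σ i)).card : ℝ)
    with hD_def
  have hsum : ∀ j (f : τ → ℝ), ∑ v ∈ Dc.F.filter (fun v => Dc.lev v = j + 1),
      f (Dc.ref (Dc.rho v)) = ∑ i, w i j * f (σ i) := by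
    intro j f
    rw [E8a.sum_ref (C := Dc.C) (fun v => Dc.ref (Dc.rho v))
      (fun v hv => E8a.ref_rho_mem Dc (mem_filter.1 hv).1) f, hCsum]
  have hroots : ∀ f : τ → ℝ, ∑ ρ ∈ Dc.roots, f (Dc.ref ρ) = ∑ i, w i 0 * f (σ i) := by
    intro f
    rw [← hsum 0 f]
    refine Finset.sum_congr rfl fun ρ hρ => ?_
    have h := mem_filter.1 hρ
    rw [(Dc.root ρ h.1 h.2).2]
  have hLsum : ∀ f : τ → ℝ, ∑ ρ ∈ Lf, f (Dc.ref ρ) = ∑ i, D i * f (σ i) := by
    intro f
    rw [E8a.sum_ref (C := Dc.C) Dc.ref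
      (fun v hv => (Dc.root v (mem_filter.1 (hLf hv)).1 (mem_filter.1 (hLf hv)).2).1) f, hCsum]
  have hw0 : ∑ i, w i 0 = (Dc.roots.card : ℝ) := by
    have := hroots (fun _ => 1)
    simp only [mul_one, sum_const, nsmul_eq_mul] at this
    exact this.symm
  have hD0 : ∑ i, D i = (Lf.card : ℝ) := by
    have := hLsum (fun _ => 1)
    simp only [mul_one, sum_const, nsmul_eq_mul] at this
    exact this.symm
  have hV : Nonempty V := by
    rw [← Fintype.card_pos_iff]
    omega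
  obtain ⟨x0⟩ := hV
  obtain ⟨φ, h1, h2, q, rb, h3, h4, h5, h6, h7, ⟨e', h8, h9⟩, h10, h11⟩ :=
    core_place hm c' c hc hc1 G hn hδ hδ' χ hχ Dc.C.card pa
    (by
      intro i j h
      obtain ⟨ha, hb⟩ := hpa i j h
      refine hσ i j ?_
      have := R.dep_par (σ i) ha
      rw [← hb]
      omega)
    (by
      refine le_trans Dc.card_C ?_
      rw [hcard]
      exact mul_le_mul_of_nonneg_right he (Nat.cast_nonneg _))
    K hK w (fun i j => Nat.cast_nonneg _) (K * Δ) Δ hKΔ hΔ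
    (by
      intro i
      have ha : ∑ j ∈ range K, w i j ≤
          ((Dc.F.filter (fun v => Dc.ref (Dc.rho v) = σ i)).card : ℝ) := by
        have := E8a.sum_lev_card (Dc.F.filter (fun v => Dc.ref (Dc.rho v) = σ i)) Dc.lev K
        rw [hw_def]
        simp only
        rw [← Nat.cast_sum]
        refine Nat.cast_le.2 (le_trans (le_of_eq ?_) this)
        refine sum_congr rfl fun j _ => ?_
        rw [filter_comm]
      have hb : ((Dc.F.filter (fun v => Dc.ref (Dc.rho v) = σ i)).card : ℝ) ≤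
          (T.degree (σ i) : ℝ) * K := by
        exact_mod_cast E8a.F_ref_card Dc (σ i)
      have hc' : (T.degree (σ i) : ℝ) * K ≤ K * Δ := by
        rw [mul_comm]
        exact mul_le_mul_of_nonneg_left (hT _) (Nat.cast_nonneg _)
      linarith)
    (by
      rw [sum_comm]
      have ha : ∀ j ∈ range K, ∑ i, w i j =
          ((Dc.F.filter (fun v => Dc.lev v = j + 1)).card : ℝ) := by
        intro j _
        have := hsum j (fun _ => 1)
        simp only [mul_one, sum_const, nsmul_eq_mul] at this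
        exact this.symm
      rw [sum_congr rfl ha, ← Nat.cast_sum, ← hcard]
      exact Nat.cast_le.2 (le_trans (E8a.sum_lev_card Dc.F Dc.lev K) (card_le_univ _)))
    D
    (by
      intro i
      refine ⟨Nat.cast_nonneg _, le_trans ?_ (hT (σ i))⟩
      refine Nat.cast_le.2 (le_trans (card_le_card ?_) (E8a.roots_ref_card Dc (σ i)))
      intro v hv
      rw [mem_filter] at hv ⊢
      exact ⟨hLf hv.1, hv.2⟩)
  -- the extended functions
  set φ' : τ → V := fun s => if h : s ∈ Dc.C then φ (σ.symm ⟨s, h⟩) else x0 with hφ'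
  set q' : τ → V → ℝ := fun s y => if h : s ∈ Dc.C then q (σ.symm ⟨s, h⟩) y else 0 with hq'
  set rb' : τ → V → ℝ := fun s y => if h : s ∈ Dc.C then rb (σ.symm ⟨s, h⟩) y else 0 with hrb'
  have eφ : ∀ i, φ' (σ i) = φ i := by
    intro i
    rw [hφ']
    simp only [(σ i).2, dite_true, Subtype.coe_eta, Equiv.symm_apply_apply]
  have eq' : ∀ i y, q' (σ i) y = q i y := by
    intro i y
    rw [hq']
    simp only [(σ i).2, dite_true, Subtype.coe_eta, Equiv.symm_apply_apply]
  have erb : ∀ i y, rb' (σ i) y = rb i y := by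
    intro i y
    rw [hrb']
    simp only [(σ i).2, dite_true, Subtype.coe_eta, Equiv.symm_apply_apply]
  have hex : ∀ s ∈ Dc.C, ∃ i, (σ i : τ) = s := by
    intro s hs
    exact ⟨σ.symm ⟨s, hs⟩, by simp⟩
  refine ⟨⟨φ', q', rb', ?_, ?_, ?_, ?_, ?_, ?_, ?_, ?_, ?_, ?_, ?_⟩⟩
  · intro s hs t ht hst
    obtain ⟨i, rfl⟩ := hex s hs
    obtain ⟨j, rfl⟩ := hex t ht
    rw [eφ, eφ] at hst
    rw [h1 hst]
  · intro s hs t ht hst
    obtain ⟨i, rfl⟩ := hex s hs
    obtain ⟨j, rfl⟩ := hex t ht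
    rw [eφ, eφ]
    rcases (R.adj _ _).1 hst with h | h
    · exact (h2 i j (hpa' i j h.1 h.2)).symm
    · exact h2 j i (hpa' j i h.1 h.2)
  · intro s hs y
    rw [hq', hrb']
    simp only [hs, dite_false, and_self]
  · intro s hs y
    obtain ⟨i, rfl⟩ := hex s hs
    rw [eq', erb]
    exact h3 i y
  · intro s hs y hy
    obtain ⟨i, rfl⟩ := hex s hs
    rw [eφ] at hy
    rw [eq']
    exact h4 i y hy
  · intro s hs y hy
    obtain ⟨i, rfl⟩ := hex s hs
    rw [eφ] at hy
    rw [eq']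
    exact h5 i y hy
  · intro s hs
    obtain ⟨i, rfl⟩ := hex s hs
    simp only [eq']
    exact h6 i
  · refine le_trans (le_of_eq ?_) h7
    refine sum_congr rfl fun j _ => sum_congr rfl fun y _ => ?_
    congr 1
    rw [hsum j (fun s => q' s y - 1 / (Fintype.card V : ℝ))]
    exact sum_congr rfl fun i _ => by rw [eq']
  · refine ⟨e', fun k => ⟨(h8 k).1, ?_⟩, ?_⟩
    · have := (h8 k).2
      rwa [hw0] at this
    · refine le_trans (le_of_eq ?_) h9
      refine sum_congr rfl fun k _ => ?_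
      congr 2
      rw [hroots (fun s => ∑ y, if χ (φ' s) y = k then rb' s y else 0)]
      refine sum_congr rfl fun i _ => ?_
      congr 1
      refine sum_congr rfl fun y _ => ?_
      rw [eφ, erb]
  · rw [← hw0]
    refine le_trans h10 (le_of_eq ?_)
    rw [hroots (fun s => ∑ y, rb' s y)]
    refine sum_congr rfl fun i _ => ?_
    simp only [erb]
  · intro x
    rw [← hD0]
    refine le_trans (h11 x) (le_of_eq ?_)
    have ha := hLsum (fun s => if G.Adj (φ' s) x then (1 : ℝ) else 0)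
    have hb : ∑ i, D i * (if G.Adj (φ i) x then (1 : ℝ) else 0) =
        ∑ i, D i * (fun s => if G.Adj (φ' s) x then (1 : ℝ) else 0) (σ i) := by
      refine sum_congr rfl fun i _ => ?_
      simp only [eφ]
    rw [hb, ← ha]
    refine sum_congr rfl fun ρ _ => ?_
    split_ifs <;> rfl

end H38.Col2
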