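import Pool.Agent.H64.Col.B4_Ker
import Pool.Agent.H38.Col2.E8_Setup

/-! E8b: the kernel on the remaining positions (apply `kernel` to `G.comap Subtype.val` on `S.P` with
`c' - e` in place of `c`), and the structural conditions `OK` of the law. -/

namespace H38.Col2

open H64.Col
open Finset

variable {τ V κ : Type} [Fintype τ] [DecidableEq τ] [Fintype V] [DecidableEq V]
  [Fintype κ] [DecidableEq κ] {G : SimpleGraph V} [DecidableRel G.Adj] {χ : V → V → κ}
  {T : SimpleGraph τ} {R : Rooted T} {K : ℕ} {e : ℝ} {Dc : Decomp T R K e} {c Δ : ℝ}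
  {Lf : Finset τ} {m : ℕ} {c' : ℝ}

theorem card_P (S : Setup m c' G χ Dc c Δ Lf) : Fintype.card S.P + Dc.C.card = Fintype.card V := by
  classical
  have h1 : S.Z.card = Dc.C.card := card_image_of_injOn S.inj
  have h2 : Fintype.card S.P = (S.Zᶜ).card := by
    rw [Fintype.card_subtype]
    congr 1
    ext y
    simp
  rw [h2, ← h1, add_comm]
  exact card_add_card_compl S.Z

namespace E8b

theorem card_P_real (S : Setup m c' G χ Dc c Δ Lf) (hcard : Fintype.card τ = Fintype.card V) :
    (Fintype.card V : ℝ) - e * (Fintype.card V : ℝ) ≤ (Fintype.card S.P : ℝ) ∧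
      (Fintype.card S.P : ℝ) ≤ (Fintype.card V : ℝ) := by
  have h1 : (Fintype.card S.P : ℝ) + (Dc.C.card : ℝ) = (Fintype.card V : ℝ) := by
    exact_mod_cast card_P S
  have h2 := Dc.card_C
  rw [hcard] at h2
  have h3 : (0 : ℝ) ≤ (Dc.C.card : ℝ) := Nat.cast_nonneg _
  exact ⟨by linarith, by linarith⟩

theorem deg_comap (S : Setup m c' G χ Dc c Δ Lf) [DecidableRel (G.comap (Subtype.val : S.P → V)).Adj]
    (x : S.P) : G.degree x.1 ≤ (G.comap (Subtype.val : S.P → V)).degree x + Dc.C.card := by
  classical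
  have h1 : S.Z.card = Dc.C.card := card_image_of_injOn S.inj
  rw [← h1, ← SimpleGraph.card_neighborFinset_eq_degree,
    ← SimpleGraph.card_neighborFinset_eq_degree]
  calc (G.neighborFinset x.1).card
      ≤ ((((G.comap (Subtype.val : S.P → V)).neighborFinset x).image Subtype.val) ∪ S.Z).card := by
        refine card_le_card fun y hy => ?_
        rw [SimpleGraph.mem_neighborFinset] at hy
        rw [mem_union]
        by_cases hz : y ∈ S.Z
        · exact Or.inr hz
        · left
          rw [mem_image]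
          refine ⟨⟨y, hz⟩, ?_, rfl⟩
          rw [SimpleGraph.mem_neighborFinset]
          exact hy
    _ ≤ (((G.comap (Subtype.val : S.P → V)).neighborFinset x).image Subtype.val).card
        + S.Z.card := card_union_le _ _
    _ ≤ _ := Nat.add_le_add_right card_image_le _

end E8b

theorem exists_W (S : Setup m c' G χ Dc c Δ Lf) (hc : 1 / 2 < c) (hc1 : c < 1)
    (hcc : c ≤ c') (hc'1 : c' ≤ 1)
    (hcard : Fintype.card τ = Fintype.card V) (hn : 0 < Fintype.card V)
    (hδ' : ∀ x, c' * (Fintype.card V : ℝ) ≤ (G.degree x : ℝ))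
    (he : 0 ≤ e) (he1 : e ≤ (c - 1 / 2) / 4) : ∃ W : S.P → S.P → ℝ, Ker S W := by
  classical
  obtain ⟨hP1, hP2⟩ := E8b.card_P_real S hcard
  have hn' : (0 : ℝ) < (Fintype.card V : ℝ) := by exact_mod_cast hn
  have hPpos : (0 : ℝ) < (Fintype.card S.P : ℝ) := by nlinarith
  have hPpos' : 0 < Fintype.card S.P := by exact_mod_cast hPpos
  have hdeg : ∀ x : S.P, (c' - e) * (Fintype.card S.P : ℝ) ≤
      ((G.comap (Subtype.val : S.P → V)).degree x : ℝ) := by
    intro x
    have h1 : (G.degree x.1 : ℝ) ≤ ((G.comap (Subtype.val : S.P → V)).degree x : ℝ)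
        + (Dc.C.card : ℝ) := by exact_mod_cast E8b.deg_comap S x
    have h2 := hδ' x.1
    have h3 := Dc.card_C
    rw [hcard] at h3
    have h4 : (c' - e) * (Fintype.card S.P : ℝ) ≤ (c' - e) * (Fintype.card V : ℝ) :=
      mul_le_mul_of_nonneg_left hP2 (by linarith)
    linarith
  obtain ⟨W, h1, h2, h3, h4, h5⟩ := kernel (G.comap (Subtype.val : S.P → V)) (c' - e)
    (by linarith) (by linarith) hPpos' hdeg
  refine ⟨W, ⟨h1, fun x y h => h2 x y h, fun x y h => ?_, fun x y => ?_, fun x => ?_, ?_⟩⟩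
  · have := (h3 x y h).1
    linarith
  · have hup : 1 + (1 - (c' - e)) / (c' - e - 1 / 2) ≤ 1 + 2 / (c - 1 / 2) := by
      have ha : (1 - (c' - e)) / (c' - e - 1 / 2) ≤ 2 / (c - 1 / 2) := by
        rw [div_le_div_iff₀ (by linarith) (by linarith)]
        nlinarith
      linarith
    by_cases h : (G.comap (Subtype.val : S.P → V)).Adj x y
    · exact le_trans (h3 x y h).2 hup
    · rw [h2 x y h]
      have : 0 < 2 / (c - 1 / 2) := div_pos two_pos (by linarith)
      linarith
  · unfold avP
    rw [h4 x, div_self hPpos.ne']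
  · unfold avP
    have hmin : ∀ a : ℝ, min a 1 = a - max (a - 1) 0 := by
      intro a
      rcases le_total a 1 with h | h
      · rw [min_eq_left h, max_eq_right (by linarith)]
        ring
      · rw [min_eq_right h, max_eq_left (by linarith)]
        ring
    simp only [hmin, sum_sub_distrib, h4]
    rw [← sum_div, sum_sub_distrib, sum_const, nsmul_eq_mul, card_univ, div_div]
    rw [le_div_iff₀ (mul_pos hPpos hPpos)]
    nlinarith

theorem law_ok (S : Setup m c' G χ Dc c Δ Lf) (hc : 1 / 2 < c) (hc1 : c < 1)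
    (hcard : Fintype.card τ = Fintype.card V) (hn : 0 < Fintype.card V)
    (hm : 1 ≤ m) (hχ : LB G χ m)
    (hχs : ∀ x y, χ x y = χ y x)
    (he : 0 ≤ e) (he1 : e ≤ (c - 1 / 2) / 4) (W : S.P → S.P → ℝ) (hW : Ker S W) :
    (S.law W).OK K (1 + 2 / (c - 1 / 2)) := by
  classical
  obtain ⟨hP1, hP2⟩ := E8b.card_P_real S hcard
  have hn' : (0 : ℝ) < (Fintype.card V : ℝ) := by exact_mod_cast hn
  have hPpos : (0 : ℝ) < (Fintype.card S.P : ℝ) := by nlinarith
  have hadj : ∀ x y, W x y ≠ 0 → G.Adj x.1 y.1 := by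
    intro x y h
    by_contra h'
    exact h (hW.zero x y h')
  have hq0 : ∀ s y, 0 ≤ S.rb s y ∧ S.rb s y ≤ S.q s y ∧
      S.q s y ≤ 1 / ((c - 1 / 2) * c * (Fintype.card V : ℝ)) := by
    intro s y
    by_cases hs : s ∈ Dc.C
    · exact S.q_bd s hs y
    · obtain ⟨ha, hb⟩ := S.q_out s hs y
      rw [ha, hb]
      refine ⟨le_rfl, le_rfl, ?_⟩
      have : 0 < (c - 1 / 2) * c * (Fintype.card V : ℝ) :=
        mul_pos (mul_pos (by linarith) (by linarith)) hn'
      positivity
  have hup : (0 : ℝ) < 2 / (c - 1 / 2) := div_pos two_pos (by linarith)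
  have hsum : ∀ s, ∑ y : S.P, S.q s y.1 ≤ 1 := by
    intro s
    by_cases hs : s ∈ Dc.C
    · rw [← S.q_sum s hs]
      have h1 : ∑ y : S.P, S.q s y.1 = ∑ y ∈ (univ : Finset S.P).image Subtype.val, S.q s y := by
        rw [sum_image (fun a _ b _ hab => Subtype.ext hab)]
      rw [h1]
      exact sum_le_sum_of_subset_of_nonneg (subset_univ _)
        (fun y _ _ => le_trans (hq0 s y).1 (hq0 s y).2.1)
    · rw [sum_congr rfl (fun y _ => (S.q_out s hs y.1).1)]
      simp
  have hlev : ∀ n, ∀ v ∈ Dc.F, Dc.lev v = n → ∃ A ⊆ Dc.F.filter (fun u => Dc.rho u = Dc.rho v),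
      A.card = n ∧ ∀ u ∈ A, Dc.lev u ≤ n := by
    intro n
    induction n with
    | zero => exact fun v _ _ => ⟨∅, empty_subset _, rfl, by simp⟩
    | succ n ih =>
      intro v hv hn
      by_cases h1 : Dc.lev v = 1
      · refine ⟨{v}, ?_, ?_, ?_⟩
        · intro u hu
          rw [mem_singleton.1 hu]
          exact mem_filter.2 ⟨hv, rfl⟩
        · rw [card_singleton]
          omega
        · intro u hu
          rw [mem_singleton.1 hu]
          omega
      · obtain ⟨h2, h3, h4⟩ := Dc.step v hv h1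
        obtain ⟨A, hA1, hA2, hA3⟩ := ih _ h2 (by omega)
        have hvA : v ∉ A := fun h => by
          have := hA3 v h
          omega
        refine ⟨insert v A, ?_, ?_, ?_⟩
        · intro u hu
          rcases mem_insert.1 hu with rfl | hu
          · exact mem_filter.2 ⟨hv, rfl⟩
          · have := hA1 hu
            rw [h4]
            exact this
        · rw [card_insert_of_notMem hvA, hA2]
        · intro u hu
          rcases mem_insert.1 hu with rfl | hu
          · omega
          · have := hA3 u hu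
            omega
  constructor
  · exact Dc.lev_pos
  · intro v hv
    obtain ⟨A, hA1, hA2, _⟩ := hlev _ v hv rfl
    have h1 := card_le_card hA1
    have h2 := Dc.comp_card (Dc.rho v)
    change Dc.lev v ≤ K
    omega
  · exact fun v hv h => (Dc.root v hv h).2
  · exact Dc.step
  · exact Dc.comp_card
  · intro x y
    by_cases h : G.Adj x.1 y.1
    · have := hW.low x y h
      change 0 ≤ W x y
      linarith
    · exact le_of_eq (hW.zero x y h).symm
  · exact hW.up
  · exact hW.row
  · intro y
    have h1 : (fun x => (S.law W).W x y) = fun x => W y x := funext fun x => hW.symm x y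
    rw [h1]
    exact hW.row y
  · exact fun ρ y => mul_nonneg hPpos.le (hq0 _ _).1
  · exact fun ρ y => mul_le_mul_of_nonneg_left (hq0 _ _).2.1 hPpos.le
  · intro ρ y
    have h1 := (hq0 (Dc.ref ρ) y.1).2.2
    have h2 : (Fintype.card S.P : ℝ) * S.q (Dc.ref ρ) y.1 ≤
        (Fintype.card V : ℝ) * (1 / ((c - 1 / 2) * c * (Fintype.card V : ℝ))) :=
      mul_le_mul hP2 h1 (le_trans (hq0 _ _).1 (hq0 _ _).2.1) hn'.le
    have h3 : (Fintype.card V : ℝ) * (1 / ((c - 1 / 2) * c * (Fintype.card V : ℝ))) =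
        1 / ((c - 1 / 2) * c) := by
      field_simp
    have h4 : 1 / ((c - 1 / 2) * c) ≤ 2 / (c - 1 / 2) := by
      rw [div_le_div_iff₀ (mul_pos (by linarith) (by linarith)) (by linarith)]
      nlinarith
    change (Fintype.card S.P : ℝ) * S.q (Dc.ref ρ) y.1 ≤ 1 + 2 / (c - 1 / 2)
    linarith
  · intro ρ
    change avP (fun y : S.P => (Fintype.card S.P : ℝ) * S.q (Dc.ref ρ) y.1) ≤ 1
    unfold avP
    rw [← mul_sum, mul_comm, mul_div_assoc, div_self hPpos.ne', mul_one]
    exact hsum _
  · exact fun x y => hχs _ _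
  · exact hm
  · intro x A hA hA2
    have h1 := hχ x.1 (A.image Subtype.val)
      (by
        intro y hy
        obtain ⟨a, ha, rfl⟩ := mem_image.1 hy
        exact hadj x a (hA a ha))
      (by
        intro y hy z hz
        obtain ⟨a, ha, rfl⟩ := mem_image.1 hy
        obtain ⟨b, hb, rfl⟩ := mem_image.1 hz
        exact hA2 a ha b hb)
    rwa [card_image_of_injective _ Subtype.val_injective] at h1
  · exact hW.symm
  · exact fun x => hW.zero x x (G.loopless.irrefl _)
  · intro ρ A hA hA2
    have hq : ∀ y : S.P, (S.law W).g ρ y ≠ 0 → G.Adj (S.φ (Dc.ref ρ)) y.1 := by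
      intro y h
      by_contra h'
      apply h
      by_cases hs : Dc.ref ρ ∈ Dc.C
      · change (Fintype.card S.P : ℝ) * S.q (Dc.ref ρ) y.1 = 0
        rw [S.q_adj _ hs _ h', mul_zero]
      · change (Fintype.card S.P : ℝ) * S.q (Dc.ref ρ) y.1 = 0
        rw [(S.q_out _ hs _).1, mul_zero]
    have h1 := hχ (S.φ (Dc.ref ρ)) (A.image Subtype.val)
      (by
        intro y hy
        obtain ⟨a, ha, rfl⟩ := mem_image.1 hy
        exact hq a (hA a ha))
      (by
        intro y hy z hz
        obtain ⟨a, ha, rfl⟩ := mem_image.1 hy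
        obtain ⟨b, hb, rfl⟩ := mem_image.1 hz
        exact hA2 a ha b hb)
    rwa [card_image_of_injective _ Subtype.val_injective] at h1

end H38.Col2
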