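import Pool.Agent.H38.Col2.E8_Setup
import Pool.Agent.H64.Col.E8c_H

/-! E8c: the conditions H1, H2, H3 for large `n`, with `ω j = #{v ∈ F : lev v = j+1}/n`.
H1: `(1/n') ∑ g = ∑ q`, Cauchy-Schwarz over `K n` pairs `(j,y)` and `lev2`.
H2: `(z)^+ ≤ (z + s)^2/(4s)` and `col2`. H3: locally `m`-bounded colouring: at most `m Δ` roots. -/

namespace H38.Col2

open H64.Col
open Finset

variable {τ V κ : Type} [Fintype τ] [DecidableEq τ] [Fintype V] [DecidableEq V]
  [Fintype κ] [DecidableEq κ] {G : SimpleGraph V} [DecidableRel G.Adj] {χ : V → V → κ}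
  {T : SimpleGraph τ} [DecidableRel T.Adj] {R : Rooted T} {K : ℕ} {e : ℝ} {Dc : Decomp T R K e}
  {c Δ : ℝ} {Lf : Finset τ} {m : ℕ} {c' : ℝ}

theorem E8c_cardP (S : Setup m c' G χ Dc c Δ Lf) (hc1 : c < 1)
    (hcard : Fintype.card τ = Fintype.card V)
    (he1 : e ≤ (c - 1 / 2) / 4) :
    7 / 8 * (Fintype.card V : ℝ) ≤ (Fintype.card S.P : ℝ) := by
  have h1 : Fintype.card S.P = Fintype.card V - S.Z.card := by
    have := Fintype.card_subtype_compl (fun y => y ∈ S.Z)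
    rw [Fintype.card_coe] at this
    convert this using 2
  have h2 : S.Z.card ≤ Dc.C.card := Finset.card_image_le
  have h3 : (Dc.C.card : ℝ) ≤ e * Fintype.card τ := Dc.card_C
  rw [hcard] at h3
  have h4 : S.Z.card ≤ Fintype.card V := Finset.card_le_univ _
  rw [h1, Nat.cast_sub h4]
  have h5 : (S.Z.card : ℝ) ≤ Dc.C.card := by exact_mod_cast h2
  have h6 : (0 : ℝ) ≤ Fintype.card V := by positivity
  have h7 : e * (Fintype.card V : ℝ) ≤ 1 / 8 * (Fintype.card V : ℝ) :=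
    mul_le_mul_of_nonneg_right (by linarith) h6
  linarith

theorem E8c_sumP (S : Setup m c' G χ Dc c Δ Lf) (f : V → ℝ) (hf : ∀ y, 0 ≤ f y) :
    ∑ y : S.P, f y.1 ≤ ∑ y, f y := by
  have h1 : ∑ y : S.P, f y.1 = ∑ y ∈ univ.filter (fun y => y ∉ S.Z), f y := by
    rw [Finset.sum_subtype (univ.filter (fun y => y ∉ S.Z)) (p := fun y => y ∉ S.Z)
      (fun x => by simp)]
  rw [h1]
  exact Finset.sum_le_univ_sum_of_nonneg hf

theorem law_H1 (S : Setup m c' G χ Dc c Δ Lf) (hc : 1 / 2 < c) (hc1 : c < 1)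
    (hcard : Fintype.card τ = Fintype.card V) (hn : 0 < Fintype.card V)
    (he : 0 ≤ e) (he1 : e ≤ (c - 1 / 2) / 4) (hΔ : 0 ≤ Δ) (W : S.P → S.P → ℝ) (σ : ℝ) (hσ : 0 < σ)
    (hs : 16 * (K : ℝ) ^ 2 * Δ / ((c - 1 / 2) * c) ≤ σ ^ 2 * (Fintype.card V : ℝ)) :
    (S.law W).H1 K Dc.om σ := by
  have hP := E8c_cardP S hc1 hcard he1
  have hnR : (0 : ℝ) < Fintype.card V := by exact_mod_cast hn
  have hP0 : (0 : ℝ) < (Fintype.card S.P : ℝ) := by linarith
  have hα : 0 < (c - 1 / 2) * c := mul_pos (by linarith) (by linarith)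
  unfold LawData.H1
  set a : ℕ → V → ℝ := fun j y => ∑ v ∈ Dc.F.filter (fun v => Dc.lev v = j + 1),
    (S.q (Dc.ref (Dc.rho v)) y - 1 / (Fintype.card V : ℝ)) with ha
  have key : ∀ j, ∀ y : S.P, (∑ v ∈ (S.law W).F.filter (fun v => (S.law W).lev v = j + 1),
      (S.law W).g ((S.law W).rho v) y) / (Fintype.card S.P : ℝ) - Dc.om j = a j y.1 := by
    intro j y
    have e1 : (∑ v ∈ (S.law W).F.filter (fun v => (S.law W).lev v = j + 1),
      (S.law W).g ((S.law W).rho v) y) = (Fintype.card S.P : ℝ) *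
        ∑ v ∈ Dc.F.filter (fun v => Dc.lev v = j + 1), S.q (Dc.ref (Dc.rho v)) y.1 := by
      rw [Finset.mul_sum]
      rfl
    rw [e1, mul_div_cancel_left₀ _ hP0.ne', ha]
    simp only
    rw [Finset.sum_sub_distrib]
    congr 1
    unfold Decomp.om
    rw [Finset.sum_const, nsmul_eq_mul, hcard]
    ring
  have e2 : ∑ j ∈ range K, ∑ y : S.P,
      |(∑ v ∈ (S.law W).F.filter (fun v => (S.law W).lev v = j + 1),
      (S.law W).g ((S.law W).rho v) y) / (Fintype.card S.P : ℝ) - Dc.om j| =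
      ∑ q ∈ range K ×ˢ (univ : Finset S.P), |a q.1 q.2.1| := by
    rw [Finset.sum_product]
    refine Finset.sum_congr rfl fun j _ => Finset.sum_congr rfl fun y _ => ?_
    rw [key]
  rw [e2]
  have cs := @sq_sum_le_card_mul_sum_sq (ℕ × S.P) ℝ _ _ _ _ (range K ×ˢ (univ : Finset S.P))
    (fun q => |a q.1 q.2.1|)
  have hcd : ((range K ×ˢ (univ : Finset S.P)).card : ℝ) = K * Fintype.card S.P := by
    rw [Finset.card_product]
    simp
  have hq : ∑ q ∈ range K ×ˢ (univ : Finset S.P), |a q.1 q.2.1| ^ 2 ≤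
      4 * (K * Δ) / ((c - 1 / 2) * c) := by
    refine le_trans ?_ S.lev2
    rw [Finset.sum_product]
    refine Finset.sum_le_sum fun j _ => ?_
    have := E8c_sumP S (fun y => (a j y) ^ 2) (fun y => sq_nonneg _)
    simpa only [sq_abs, ha] using this
  have h1 : (∑ q ∈ range K ×ˢ (univ : Finset S.P), |a q.1 q.2.1|) ^ 2 ≤
      (σ * Fintype.card S.P) ^ 2 := by
    refine cs.trans ?_
    rw [hcd]
    have hK0 : (0 : ℝ) ≤ K := by positivity
    calc (K : ℝ) * Fintype.card S.P * ∑ q ∈ range K ×ˢ (univ : Finset S.P), |a q.1 q.2.1| ^ 2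
        ≤ (K : ℝ) * Fintype.card S.P * (4 * (K * Δ) / ((c - 1 / 2) * c)) := by
          apply mul_le_mul_of_nonneg_left hq; positivity
      _ = Fintype.card S.P * (1 / 4 * (16 * (K : ℝ) ^ 2 * Δ / ((c - 1 / 2) * c))) := by ring
      _ ≤ Fintype.card S.P * (1 / 4 * (σ ^ 2 * (Fintype.card V : ℝ))) := by
          apply mul_le_mul_of_nonneg_left _ hP0.le
          linarith
      _ ≤ Fintype.card S.P * (σ ^ 2 * Fintype.card S.P) := by
          apply mul_le_mul_of_nonneg_left _ hP0.le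
          have : 0 < σ ^ 2 := by positivity
          nlinarith
      _ = _ := by ring
  have h2 : 0 ≤ ∑ q ∈ range K ×ˢ (univ : Finset S.P), |a q.1 q.2.1| :=
    Finset.sum_nonneg fun _ _ => abs_nonneg _
  exact (pow_le_pow_iff_left₀ h2 (by positivity) two_ne_zero).1 h1

theorem law_H2 (S : Setup m c' G χ Dc c Δ Lf) (hc : 1 / 2 < c) (hc1 : c < 1)
    (hcard : Fintype.card τ = Fintype.card V) (hn : 0 < Fintype.card V)
    (he : 0 ≤ e) (he1 : e ≤ (c - 1 / 2) / 4) (hΔ : 0 ≤ Δ) (W : S.P → S.P → ℝ)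
    (σ s0 : ℝ) (hσ : 0 < σ) (hs0 : 0 < s0)
    (hs : 4 * (K : ℝ) * Δ / ((c - 1 / 2) * c) ≤ σ * s0 * (Fintype.card V : ℝ)) :
    (S.law W).H2 Dc.om σ s0 := by
  have hP := E8c_cardP S hc1 hcard he1
  have hnR : (0 : ℝ) < Fintype.card V := by exact_mod_cast hn
  have hP0 : (0 : ℝ) < (Fintype.card S.P : ℝ) := by linarith
  have hα : 0 < (c - 1 / 2) * c := mul_pos (by linarith) (by linarith)
  unfold LawData.H2
  obtain ⟨e', he', hsum⟩ := S.col2
  have key : ∀ k, (∑ ρ ∈ (S.law W).roots, ∑ y, if (S.law W).rcol ρ y = k then (S.law W).gr ρ y else 0)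
      / (Fintype.card S.P : ℝ) ≤
      ∑ ρ ∈ Dc.roots, ∑ y, if χ (S.φ (Dc.ref ρ)) y = k then S.rb (Dc.ref ρ) y else 0 := by
    intro k
    have e1 : (∑ ρ ∈ (S.law W).roots, ∑ y, if (S.law W).rcol ρ y = k then (S.law W).gr ρ y else 0)
        = (Fintype.card S.P : ℝ) * ∑ ρ ∈ Dc.roots, ∑ y : S.P,
          if χ (S.φ (Dc.ref ρ)) y.1 = k then S.rb (Dc.ref ρ) y.1 else 0 := by
      rw [Finset.mul_sum]
      refine Finset.sum_congr rfl fun ρ _ => ?_
      rw [Finset.mul_sum]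
      refine Finset.sum_congr rfl fun y _ => ?_
      rw [mul_ite, mul_zero]
      rfl
    rw [e1, mul_div_cancel_left₀ _ hP0.ne']
    refine Finset.sum_le_sum fun ρ hρ => ?_
    refine E8c_sumP S (fun y => if χ (S.φ (Dc.ref ρ)) y = k then S.rb (Dc.ref ρ) y else 0) ?_
    intro y
    split_ifs
    · have hC : Dc.ref ρ ∈ Dc.C := by
        unfold Decomp.roots at hρ
        rw [Finset.mem_filter] at hρ
        exact (Dc.root ρ hρ.1 hρ.2).1
      exact (S.q_bd _ hC y).1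
    · exact le_refl _
  have om0 : Dc.om 0 = (Dc.roots.card : ℝ) / (Fintype.card V : ℝ) := by
    unfold Decomp.om Decomp.roots
    rw [hcard]
  have pos_le : ∀ z : ℝ, max (z - s0) 0 ≤ z ^ 2 / (4 * s0) := by
    intro z
    apply max_le
    · rw [le_div_iff₀ (by positivity)]
      nlinarith [sq_nonneg (z - 2 * s0)]
    · positivity
  calc ∑ k, max ((∑ ρ ∈ (S.law W).roots, ∑ y, if (S.law W).rcol ρ y = k then (S.law W).gr ρ y else 0)
      / (Fintype.card S.P : ℝ) - Dc.om 0 - s0) 0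
      ≤ ∑ k, ((∑ ρ ∈ Dc.roots, ∑ y, if χ (S.φ (Dc.ref ρ)) y = k then S.rb (Dc.ref ρ) y else 0)
      - e' k) ^ 2 / (4 * s0) := by
        refine Finset.sum_le_sum fun k _ => ?_
        refine le_trans ?_ (pos_le _)
        apply max_le_max _ (le_refl _)
        have := key k
        have h2 := (he' k).2
        rw [om0]
        linarith
    _ = (∑ k, ((∑ ρ ∈ Dc.roots, ∑ y, if χ (S.φ (Dc.ref ρ)) y = k then S.rb (Dc.ref ρ) y else 0)
      - e' k) ^ 2) / (4 * s0) := by rw [Finset.sum_div]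
    _ ≤ (4 * (K * Δ) / ((c - 1 / 2) * c)) / (4 * s0) := by
        apply div_le_div_of_nonneg_right hsum; positivity
    _ ≤ σ * Fintype.card S.P := by
        rw [div_le_iff₀ (by positivity)]
        have h3 : 4 * (K * Δ) / ((c - 1 / 2) * c) ≤ σ * s0 * (Fintype.card V : ℝ) := by
          have : 4 * (K * Δ) / ((c - 1 / 2) * c) = 4 * (K : ℝ) * Δ / ((c - 1 / 2) * c) := by ring
          rw [this]; exact hs
        have h4 : 0 < σ * s0 := by positivity
        nlinarith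

theorem law_H3 (S : Setup m c' G χ Dc c Δ Lf) (hc : 1 / 2 < c) (hc1 : c < 1)
    (hcard : Fintype.card τ = Fintype.card V) (hn : 0 < Fintype.card V)
    (hχ : LB G χ m)
    (hχs : ∀ x y, χ x y = χ y x)
    (hT : ∀ v, (T.degree v : ℝ) ≤ Δ) (W : S.P → S.P → ℝ)
    (σ : ℝ) (hσ : 0 < σ)
    (hs : (m : ℝ) * Δ / ((c - 1 / 2) * c) ≤ σ * (Fintype.card V : ℝ)) :
    (S.law W).H3 σ := by
  have hnR : (0 : ℝ) < Fintype.card V := by exact_mod_cast hn
  have hα : 0 < (c - 1 / 2) * c := mul_pos (by linarith) (by linarith)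
  intro y k
  have hP0 : (0 : ℝ) < (Fintype.card S.P : ℝ) := by
    have : 0 < Fintype.card S.P := Fintype.card_pos_iff.2 ⟨y⟩
    exact_mod_cast this
  have e1 : (∑ ρ ∈ (S.law W).roots, if (S.law W).rcol ρ y = k then (S.law W).g ρ y else 0)
      = (Fintype.card S.P : ℝ) * ∑ ρ ∈ Dc.roots,
        if χ (S.φ (Dc.ref ρ)) y.1 = k then S.q (Dc.ref ρ) y.1 else 0 := by
    rw [Finset.mul_sum]
    refine Finset.sum_congr rfl fun ρ _ => ?_
    rw [mul_ite, mul_zero]
    rfl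
  rw [e1, mul_div_cancel_left₀ _ hP0.ne']
  have hroot : ∀ ρ ∈ Dc.roots, Dc.ref ρ ∈ Dc.C ∧ T.Adj ρ (Dc.ref ρ) := by
    intro ρ hρ
    unfold Decomp.roots at hρ
    rw [Finset.mem_filter] at hρ
    exact ⟨(Dc.root ρ hρ.1 hρ.2).1, Dc.ref_adj ρ hρ.1⟩
  set B : ℝ := 1 / ((c - 1 / 2) * c * (Fintype.card V : ℝ)) with hB
  have hB0 : 0 ≤ B := by positivity
  have hΔ0 : 0 ≤ Δ := by
    by_cases hC : Dc.C.Nonempty
    · obtain ⟨s, _⟩ := hC
      exact le_trans (Nat.cast_nonneg _) (hT s)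
    · by_contra hneg
      have hne : Nonempty τ := by
        rw [← Fintype.card_pos_iff, hcard]
        exact hn
      obtain ⟨s⟩ := hne
      exact hneg (le_trans (Nat.cast_nonneg _) (hT s))
  classical
  set A : Finset τ := Dc.C.filter (fun s => G.Adj (S.φ s) y.1 ∧ χ (S.φ s) y.1 = k) with hA
  have hAcard : A.card ≤ m := by
    have h1 := hχ y.1 (A.image S.φ)
      (by
        intro z hz
        obtain ⟨s, hs, rfl⟩ := mem_image.1 hz
        exact (mem_filter.1 hs).2.1.symm)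
      (by
        intro z hz z' hz'
        obtain ⟨s, hs, rfl⟩ := mem_image.1 hz
        obtain ⟨s', hs', rfl⟩ := mem_image.1 hz'
        rw [hχs y.1, hχs y.1, (mem_filter.1 hs).2.2, (mem_filter.1 hs').2.2])
    rwa [card_image_of_injOn (fun s hs s' hs' h =>
      S.inj (mem_filter.1 hs).1 (mem_filter.1 hs').1 h)] at h1
  have h1 : ∀ ρ ∈ Dc.roots, (if χ (S.φ (Dc.ref ρ)) y.1 = k then S.q (Dc.ref ρ) y.1 else 0) ≤
      ∑ s ∈ A, (if T.Adj s ρ then B else 0) := by
    intro ρ hρ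
    obtain ⟨hC, hadj⟩ := hroot ρ hρ
    have h0 : ∀ s ∈ A, 0 ≤ (if T.Adj s ρ then B else 0) := by
      intro s _
      split_ifs
      · exact hB0
      · exact le_refl _
    by_cases hk : χ (S.φ (Dc.ref ρ)) y.1 = k
    · rw [if_pos hk]
      by_cases ha : G.Adj (S.φ (Dc.ref ρ)) y.1
      · have h2 : Dc.ref ρ ∈ A := mem_filter.2 ⟨hC, ha, hk⟩
        refine le_trans ?_ (Finset.single_le_sum h0 h2)
        rw [if_pos hadj.symm]
        exact (S.q_bd _ hC _).2.2
      · rw [S.q_adj _ hC _ ha]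
        exact Finset.sum_nonneg h0
    · rw [if_neg hk]
      exact Finset.sum_nonneg h0
  calc ∑ ρ ∈ Dc.roots, (if χ (S.φ (Dc.ref ρ)) y.1 = k then S.q (Dc.ref ρ) y.1 else 0)
      ≤ ∑ ρ ∈ Dc.roots, ∑ s ∈ A, (if T.Adj s ρ then B else 0) := Finset.sum_le_sum h1
    _ ≤ ∑ ρ, ∑ s ∈ A, (if T.Adj s ρ then B else 0) := by
        apply Finset.sum_le_univ_sum_of_nonneg
        intro ρ
        refine Finset.sum_nonneg fun s _ => ?_
        split_ifs
        · exact hB0
        · exact le_refl _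
    _ = ∑ s ∈ A, (T.degree s : ℝ) * B := by
        rw [Finset.sum_comm]
        refine Finset.sum_congr rfl fun s _ => ?_
        rw [← Finset.sum_filter, Finset.sum_const, nsmul_eq_mul]
        congr 2
        rw [← SimpleGraph.card_neighborFinset_eq_degree]
        congr 1
        ext ρ
        simp
    _ ≤ ∑ s ∈ A, Δ * B := Finset.sum_le_sum fun s _ => mul_le_mul_of_nonneg_right (hT s) hB0
    _ = (A.card : ℝ) * (Δ * B) := by rw [Finset.sum_const, nsmul_eq_mul]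
    _ ≤ (m : ℝ) * (Δ * B) := by
        apply mul_le_mul_of_nonneg_right _ (mul_nonneg hΔ0 hB0)
        exact_mod_cast hAcard
    _ = ((m : ℝ) * Δ / ((c - 1 / 2) * c)) / (Fintype.card V : ℝ) := by
        rw [hB]
        field_simp
    _ ≤ σ := by
        rw [div_le_iff₀ hnR]
        exact hs

end H38.Col2
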