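import Pool.Agent.H38.Col2.E8_Setup

/-! E8d: neighbourhoods are rich, two steps reach everything, the root densities keep mass `≥ 1/2`,
and the total expected number of rainbow edges. -/

namespace H38.Col2

open H64.Col
open Finset

set_option linter.unusedSectionVars false
set_option linter.unusedVariables false

variable {τ V κ : Type} [Fintype τ] [DecidableEq τ] [Fintype V] [DecidableEq V]
  [Fintype κ] [DecidableEq κ] {G : SimpleGraph V} [DecidableRel G.Adj] {χ : V → V → κ}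
  {T : SimpleGraph τ} {R : Rooted T} {K : ℕ} {e : ℝ} {Dc : Decomp T R K e}
  {c Δ : ℝ} {Lf : Finset τ} {m : ℕ} {c' : ℝ}

private theorem cardZ_le (S : Setup m c' G χ Dc c Δ Lf) (hcard : Fintype.card τ = Fintype.card V) :
    (S.Z.card : ℝ) ≤ e * (Fintype.card V : ℝ) := by
  have h1 : S.Z.card ≤ Dc.C.card := by
    unfold Setup.Z
    exact card_image_le
  have h2 := Dc.card_C
  rw [hcard] at h2
  have h3 : (S.Z.card : ℝ) ≤ (Dc.C.card : ℝ) := by exact_mod_cast h1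
  linarith

private theorem cardP_le (S : Setup m c' G χ Dc c Δ Lf) :
    (Fintype.card S.P : ℝ) ≤ (Fintype.card V : ℝ) := by
  exact_mod_cast Fintype.card_subtype_le (fun y => y ∉ S.Z)

/-- sums over the remaining positions -/
private theorem sum_P (S : Setup m c' G χ Dc c Δ Lf) (f : V → ℝ) :
    ∑ y : S.P, f y.1 = ∑ y, f y - ∑ y ∈ S.Z, f y := by
  have h1 : ∑ y : S.P, f y.1 = ∑ y ∈ univ.filter (fun y => y ∉ S.Z), f y := by
    symm
    apply sum_subtype
    intro x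
    simp
  have h2 := sum_filter_add_sum_filter_not univ (fun y => y ∉ S.Z) f
  have h3 : univ.filter (fun y => ¬ y ∉ S.Z) = S.Z := by
    ext y
    simp
  rw [h3] at h2
  rw [h1]
  linarith

private theorem hit' (S : Setup m c' G χ Dc c Δ Lf) (x : V) :
    c * (c - 1 / 2) / 2 * (Lf.card : ℝ) - 2 * Δ * Real.log (Fintype.card V) ≤
    ∑ ρ ∈ Lf, if G.Adj (S.φ (Dc.ref ρ)) x then (1 : ℝ) else 0 := by
  convert S.hit x

private theorem mem_nb (S : Setup m c' G χ Dc c Δ Lf) (w : V) (y : S.P) :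
    y ∈ S.nb w ↔ G.Adj w y.1 := by
  unfold Setup.nb
  simp

/-- common neighbourhoods inside the remaining positions are large -/
theorem nb_card (S : Setup m c' G χ Dc c Δ Lf) (hcard : Fintype.card τ = Fintype.card V)
    (hδ : ∀ x, c * (Fintype.card V : ℝ) ≤ (G.degree x : ℝ)) (he1 : e ≤ (c - 1 / 2) / 4)
    (hc : 1 / 2 < c) (x z : V) :
    (c - 1 / 2) * (Fintype.card V : ℝ) ≤ ((S.nb x ∩ S.nb z).card : ℝ) := by
  classical
  have hn0 : (0 : ℝ) ≤ (Fintype.card V : ℝ) := by positivity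
  have hZ := cardZ_le S hcard
  -- common neighbourhood in `V`
  have h1 : (G.neighborFinset x ∪ G.neighborFinset z).card ≤ Fintype.card V := card_le_univ _
  have h2 := card_union_add_card_inter (G.neighborFinset x) (G.neighborFinset z)
  rw [SimpleGraph.card_neighborFinset_eq_degree, SimpleGraph.card_neighborFinset_eq_degree] at h2
  have h3 : ((G.degree x : ℝ) + (G.degree z : ℝ)) ≤ (Fintype.card V : ℝ)
      + ((G.neighborFinset x ∩ G.neighborFinset z).card : ℝ) := by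
    have : G.degree x + G.degree z ≤ Fintype.card V
        + (G.neighborFinset x ∩ G.neighborFinset z).card := by omega
    exact_mod_cast this
  have h4 : (G.neighborFinset x ∩ G.neighborFinset z) \ S.Z
      = (S.nb x ∩ S.nb z).image (fun y => y.1) := by
    ext y
    simp only [mem_sdiff, mem_inter, SimpleGraph.mem_neighborFinset, mem_image, mem_nb]
    constructor
    · rintro ⟨⟨ha, hb⟩, hy⟩
      exact ⟨⟨y, hy⟩, ⟨ha, hb⟩, rfl⟩
    · rintro ⟨y', ⟨ha, hb⟩, rfl⟩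
      exact ⟨⟨ha, hb⟩, y'.2⟩
  have h5 : ((G.neighborFinset x ∩ G.neighborFinset z) \ S.Z).card
      = (S.nb x ∩ S.nb z).card := by
    rw [h4]
    exact card_image_of_injective _ Subtype.val_injective
  have h6 := card_le_card_sdiff_add_card (s := G.neighborFinset x ∩ G.neighborFinset z) (t := S.Z)
  have h7 : ((G.neighborFinset x ∩ G.neighborFinset z).card : ℝ)
      ≤ ((S.nb x ∩ S.nb z).card : ℝ) + (S.Z.card : ℝ) := by
    rw [h5] at h6
    exact_mod_cast h6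
  have hx := hδ x
  have hz := hδ z
  have h8 : e * (Fintype.card V : ℝ) ≤ (c - 1 / 2) / 4 * (Fintype.card V : ℝ) := by gcongr
  nlinarith

private theorem P_pos (S : Setup m c' G χ Dc c Δ Lf) (hcard : Fintype.card τ = Fintype.card V)
    (hc : 1 / 2 < c) (hc1 : c < 1) (hn : 0 < Fintype.card V)
    (he1 : e ≤ (c - 1 / 2) / 4) : (0 : ℝ) < (Fintype.card S.P : ℝ) := by
  classical
  have hZ := cardZ_le S hcard
  have hn0 : (0 : ℝ) < (Fintype.card V : ℝ) := by exact_mod_cast hn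
  have h1 := sum_P S (fun _ => (1 : ℝ))
  simp only [sum_const, nsmul_eq_mul, mul_one, card_univ] at h1
  have h8 : e * (Fintype.card V : ℝ) ≤ (c - 1 / 2) / 4 * (Fintype.card V : ℝ) := by gcongr
  nlinarith

/-- average of `n' f` over the remaining positions -/
private theorem avP_mul (S : Setup m c' G χ Dc c Δ Lf) (hP : (0 : ℝ) < (Fintype.card S.P : ℝ))
    (f : S.P → ℝ) : avP (fun y => (Fintype.card S.P : ℝ) * f y) = ∑ y, f y := by
  unfold avP
  rw [← mul_sum]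
  field_simp

private theorem avP_lower (S : Setup m c' G χ Dc c Δ Lf) (hP : (0 : ℝ) < (Fintype.card S.P : ℝ))
    (X : Finset S.P) (r α : ℝ) (hr : 0 ≤ r) (hα : 0 ≤ α)
    (hX : α * (Fintype.card V : ℝ) ≤ (X.card : ℝ))
    (f : S.P → ℝ) (hf0 : ∀ y, 0 ≤ f y) (hf : ∀ y ∈ X, r ≤ f y) : r * α ≤ avP f := by
  have hPV := cardP_le S
  unfold avP
  rw [le_div_iff₀ hP]
  calc r * α * (Fintype.card S.P : ℝ) ≤ r * α * (Fintype.card V : ℝ) := by gcongr
    _ = r * (α * (Fintype.card V : ℝ)) := by ring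
    _ ≤ r * (X.card : ℝ) := by gcongr
    _ = ∑ y ∈ X, r := by rw [sum_const, nsmul_eq_mul]; ring
    _ ≤ ∑ y ∈ X, f y := sum_le_sum hf
    _ ≤ ∑ y, f y := sum_le_sum_of_subset_of_nonneg (subset_univ X) (fun y _ _ => hf0 y)

private theorem ref_mem (ρ : τ) (hρ : ρ ∈ Dc.roots) : Dc.ref ρ ∈ Dc.C := by
  unfold Decomp.roots at hρ
  rw [mem_filter] at hρ
  exact (Dc.root ρ hρ.1 hρ.2).1

private theorem W_nonneg (S : Setup m c' G χ Dc c Δ Lf) (hc : 1 / 2 < c) (W : S.P → S.P → ℝ)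
    (hW : Ker S W) (x y : S.P) : 0 ≤ W x y := by
  by_cases h : G.Adj x.1 y.1
  · have := hW.low x y h
    linarith
  · rw [hW.zero x y h]

/-- the root density is large on rich sets -/
private theorem g_rich (S : Setup m c' G χ Dc c Δ Lf) (hc : 1 / 2 < c) (hc1 : c < 1)
    (hcard : Fintype.card τ = Fintype.card V) (hn : 0 < Fintype.card V)
    (hδ : ∀ x, c * (Fintype.card V : ℝ) ≤ (G.degree x : ℝ))
    (he : 0 ≤ e) (he1 : e ≤ (c - 1 / 2) / 4) (W : S.P → S.P → ℝ) (ρ : τ) (hρ : ρ ∈ Dc.roots)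
    (w : V) (f : S.P → ℝ) (r : ℝ) (hr : 0 ≤ r) (hf0 : ∀ y, 0 ≤ f y)
    (hf : ∀ y : S.P, G.Adj w y.1 → r ≤ f y) :
    (c - 1 / 2) ^ 2 * r ≤ avP (fun y => (S.law W).g ρ y * f y) := by
  classical
  have hP := P_pos S hcard hc hc1 hn he1
  have hn0 : (0 : ℝ) < (Fintype.card V : ℝ) := by exact_mod_cast hn
  have hα : 0 < c - 1 / 2 := by linarith
  have hs := ref_mem ρ hρ
  have h1 : avP (fun y => (S.law W).g ρ y * f y) = ∑ y : S.P, S.q (Dc.ref ρ) y.1 * f y := by
    rw [← avP_mul S hP]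
    congr 1
    ext y
    simp only [Setup.law]
    ring
  rw [h1]
  have hcn := nb_card S hcard hδ he1 hc (S.φ (Dc.ref ρ)) w
  calc (c - 1 / 2) ^ 2 * r
      = (c - 1 / 2) / (Fintype.card V : ℝ) * r * ((c - 1 / 2) * (Fintype.card V : ℝ)) := by
        field_simp
    _ ≤ (c - 1 / 2) / (Fintype.card V : ℝ) * r
          * ((S.nb (S.φ (Dc.ref ρ)) ∩ S.nb w).card : ℝ) := by gcongr
    _ = ∑ y ∈ S.nb (S.φ (Dc.ref ρ)) ∩ S.nb w, (c - 1 / 2) / (Fintype.card V : ℝ) * r := by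
        rw [sum_const, nsmul_eq_mul]; ring
    _ ≤ ∑ y ∈ S.nb (S.φ (Dc.ref ρ)) ∩ S.nb w, S.q (Dc.ref ρ) y.1 * f y := by
        refine sum_le_sum (fun y hy => ?_)
        rw [mem_inter, mem_nb, mem_nb] at hy
        have hq := S.q_low (Dc.ref ρ) hs y.1 hy.1
        have hfy := hf y hy.2
        have : 0 ≤ (c - 1 / 2) / (Fintype.card V : ℝ) := by positivity
        exact mul_le_mul hq hfy hr (this.trans hq)
    _ ≤ ∑ y : S.P, S.q (Dc.ref ρ) y.1 * f y := by
        refine sum_le_sum_of_subset_of_nonneg (subset_univ _) (fun y _ _ => ?_)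
        have hq := S.q_bd (Dc.ref ρ) hs y.1
        exact mul_nonneg (hq.1.trans hq.2.1) (hf0 y)

private theorem ind_nonneg {P : Type} [Fintype P] [DecidableEq P] (X : Finset P) (y : P) :
    0 ≤ ind X y := by
  unfold ind
  split_ifs <;> norm_num

theorem nb_rich (S : Setup m c' G χ Dc c Δ Lf) (hc : 1 / 2 < c) (hc1 : c < 1)
    (hcard : Fintype.card τ = Fintype.card V) (hn : 0 < Fintype.card V)
    (hδ : ∀ x, c * (Fintype.card V : ℝ) ≤ (G.degree x : ℝ))
    (he : 0 ≤ e) (he1 : e ≤ (c - 1 / 2) / 4) (W : S.P → S.P → ℝ) (hW : Ker S W) (w : V) :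
    (S.law W).Rich ((c - 1 / 2) ^ 2) (S.nb w) := by
  classical
  have hP := P_pos S hcard hc hc1 hn he1
  have hα : 0 < c - 1 / 2 := by linarith
  refine ⟨fun x => ?_, fun ρ hρ => ?_⟩
  · rw [sq]
    refine avP_lower S hP (S.nb x.1 ∩ S.nb w) (c - 1 / 2) (c - 1 / 2) hα.le hα.le
      (nb_card S hcard hδ he1 hc x.1 w) _ (fun y => ?_) (fun y hy => ?_)
    · exact mul_nonneg (W_nonneg S hc W hW x y) (ind_nonneg _ y)
    · rw [mem_inter, mem_nb] at hy
      have h1 : ind (S.nb w) y = 1 := by simp [ind, hy.2]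
      rw [h1, mul_one]
      exact hW.low x y hy.1
  · have hρ' : ρ ∈ Dc.roots := hρ
    have h1 := g_rich S hc hc1 hcard hn hδ he he1 W ρ hρ' w (fun y => ind (S.nb w) y) 1
      zero_le_one (fun y => ind_nonneg _ y) (fun y hy => by
        have : y ∈ S.nb w := (mem_nb S w y).2 hy
        simp [ind, this])
    rw [mul_one] at h1
    exact h1

theorem law_twoStep (S : Setup m c' G χ Dc c Δ Lf) (hc : 1 / 2 < c) (hc1 : c < 1)
    (hcard : Fintype.card τ = Fintype.card V) (hn : 0 < Fintype.card V)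
    (hδ : ∀ x, c * (Fintype.card V : ℝ) ≤ (G.degree x : ℝ))
    (he : 0 ≤ e) (he1 : e ≤ (c - 1 / 2) / 4) (W : S.P → S.P → ℝ) (hW : Ker S W) :
    (S.law W).TwoStep ((c - 1 / 2) ^ 3) := by
  classical
  have hP := P_pos S hcard hc hc1 hn he1
  have hα : 0 < c - 1 / 2 := by linarith
  refine ⟨fun z w => ?_, fun ρ hρ w => ?_⟩
  · have h3 : (c - 1 / 2) ^ 3 = (c - 1 / 2) ^ 2 * (c - 1 / 2) := by ring
    rw [h3]
    refine avP_lower S hP (S.nb z.1 ∩ S.nb w.1) ((c - 1 / 2) ^ 2) (c - 1 / 2) (by positivity)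
      hα.le (nb_card S hcard hδ he1 hc z.1 w.1) _ (fun y => ?_) (fun y hy => ?_)
    · exact mul_nonneg (W_nonneg S hc W hW z y) (W_nonneg S hc W hW y w)
    · rw [mem_inter, mem_nb, mem_nb] at hy
      have h1 := hW.low z y hy.1
      have h2 := hW.low y w hy.2.symm
      rw [sq]
      exact mul_le_mul h1 h2 hα.le (hα.le.trans h1)
  · have hρ' : ρ ∈ Dc.roots := hρ
    have h1 := g_rich S hc hc1 hcard hn hδ he he1 W ρ hρ' w.1 (fun y => W y w) (c - 1 / 2)
      hα.le (fun y => W_nonneg S hc W hW y w) (fun y hy => hW.low y w hy.symm)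
    have h3 : (c - 1 / 2) ^ 3 = (c - 1 / 2) ^ 2 * (c - 1 / 2) := by ring
    rw [h3]
    exact h1

private theorem Zsum_le (S : Setup m c' G χ Dc c Δ Lf) (hc : 1 / 2 < c) (hc1 : c < 1)
    (hcard : Fintype.card τ = Fintype.card V) (hn : 0 < Fintype.card V)
    (he : 0 ≤ e) (f : V → ℝ)
    (hf : ∀ y, f y ≤ 1 / ((c - 1 / 2) * c * (Fintype.card V : ℝ))) :
    ∑ y ∈ S.Z, f y ≤ 2 * e / (c - 1 / 2) := by
  have hn0 : (0 : ℝ) < (Fintype.card V : ℝ) := by exact_mod_cast hn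
  have hα : 0 < c - 1 / 2 := by linarith
  have hc0 : 0 < c := by linarith
  have hZ := cardZ_le S hcard
  calc ∑ y ∈ S.Z, f y ≤ ∑ y ∈ S.Z, 1 / ((c - 1 / 2) * c * (Fintype.card V : ℝ)) :=
        sum_le_sum (fun y _ => hf y)
    _ = (S.Z.card : ℝ) * (1 / ((c - 1 / 2) * c * (Fintype.card V : ℝ))) := by
        rw [sum_const, nsmul_eq_mul]
    _ ≤ (e * (Fintype.card V : ℝ)) * (1 / ((c - 1 / 2) * c * (Fintype.card V : ℝ))) := by gcongr
    _ = e / (c - 1 / 2) * (1 / c) := by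
        generalize c - 1 / 2 = a at hα
        field_simp
    _ ≤ e / (c - 1 / 2) * 2 := by
        have : 1 / c ≤ 2 := by
          rw [div_le_iff₀ hc0]
          linarith
        gcongr
    _ = 2 * e / (c - 1 / 2) := by ring

/-- mass of the root density on the remaining positions -/
theorem g_mass (S : Setup m c' G χ Dc c Δ Lf) (hc : 1 / 2 < c) (hc1 : c < 1)
    (hcard : Fintype.card τ = Fintype.card V) (hn : 0 < Fintype.card V)
    (he : 0 ≤ e) (he1 : e ≤ (c - 1 / 2) / 4) (W : S.P → S.P → ℝ) (ρ : τ) (hρ : ρ ∈ Dc.roots) :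
    1 - 2 * e / (c - 1 / 2) ≤ avP ((S.law W).g ρ) := by
  classical
  have hP := P_pos S hcard hc hc1 hn he1
  have hs := ref_mem ρ hρ
  have h1 : avP ((S.law W).g ρ) = ∑ y : S.P, S.q (Dc.ref ρ) y.1 :=
    avP_mul S hP (fun y => S.q (Dc.ref ρ) y.1)
  rw [h1, sum_P S (S.q (Dc.ref ρ)), S.q_sum _ hs]
  have h2 := Zsum_le S hc hc1 hcard hn he (S.q (Dc.ref ρ)) (fun y => (S.q_bd _ hs y).2.2)
  linarith

/-- expected number of rainbow edges at the roots -/
theorem gr_total (S : Setup m c' G χ Dc c Δ Lf) (hc : 1 / 2 < c) (hc1 : c < 1)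
    (hcard : Fintype.card τ = Fintype.card V) (hn : 0 < Fintype.card V)
    (he : 0 ≤ e) (he1 : e ≤ (c - 1 / 2) / 4) (W : S.P → S.P → ℝ) :
    (c' / (m : ℝ) - 2 * e / (c - 1 / 2)) * (Dc.roots.card : ℝ)
      - 2 * Real.sqrt (K * Δ * (Fintype.card V : ℝ)) ≤
      ∑ ρ ∈ (S.law W).roots, avP ((S.law W).gr ρ) := by
  classical
  have hP := P_pos S hcard hc hc1 hn he1
  have hroots : (S.law W).roots = Dc.roots := rfl
  rw [hroots]
  have h1 : ∀ ρ ∈ Dc.roots, (∑ y, S.rb (Dc.ref ρ) y) - 2 * e / (c - 1 / 2)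
      ≤ avP ((S.law W).gr ρ) := by
    intro ρ hρ
    have hs := ref_mem ρ hρ
    have h2 : avP ((S.law W).gr ρ) = ∑ y : S.P, S.rb (Dc.ref ρ) y.1 :=
      avP_mul S hP (fun y => S.rb (Dc.ref ρ) y.1)
    rw [h2, sum_P S (S.rb (Dc.ref ρ))]
    have h3 := Zsum_le S hc hc1 hcard hn he (S.rb (Dc.ref ρ))
      (fun y => (S.q_bd _ hs y).2.1.trans (S.q_bd _ hs y).2.2)
    linarith
  have h4 := sum_le_sum h1
  rw [sum_sub_distrib, sum_const, nsmul_eq_mul] at h4
  have h5 := S.rb_tot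
  nlinarith

/-- root leaves: the test functions at level 1 -/
theorem leaf_root_A (S : Setup m c' G χ Dc c Δ Lf) (hc : 1 / 2 < c) (hc1 : c < 1)
    (hcard : Fintype.card τ = Fintype.card V) (hn : 0 < Fintype.card V)
    (hδ : ∀ x, c * (Fintype.card V : ℝ) ≤ (G.degree x : ℝ))
    (he : 0 ≤ e) (he1 : e ≤ (c - 1 / 2) / 4) (hLf : Lf ⊆ Dc.roots)
    (W : S.P → S.P → ℝ) (w g : V) :
    (c - 1 / 2) ^ 2 * (c * (c - 1 / 2) / 2 * (Lf.card : ℝ) - 2 * Δ * Real.log (Fintype.card V)) ≤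
      ∑ ρ ∈ Lf, (if G.Adj (S.φ (Dc.ref ρ)) w then (1 : ℝ) else 0) *
        avP (fun y => (S.law W).g ρ y * ind (S.nb g) y) := by
  classical
  have h1 : ∀ ρ ∈ Lf, (if G.Adj (S.φ (Dc.ref ρ)) w then (1 : ℝ) else 0) * (c - 1 / 2) ^ 2
      ≤ (if G.Adj (S.φ (Dc.ref ρ)) w then (1 : ℝ) else 0) *
        avP (fun y => (S.law W).g ρ y * ind (S.nb g) y) := by
    intro ρ hρ
    have h2 := g_rich S hc hc1 hcard hn hδ he he1 W ρ (hLf hρ) g (fun y => ind (S.nb g) y) 1
      zero_le_one (fun y => ind_nonneg _ y) (fun y hy => by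
        have : y ∈ S.nb g := (mem_nb S g y).2 hy
        simp [ind, this])
    rw [mul_one] at h2
    split_ifs
    · simpa using h2
    · simp
  have h3 := sum_le_sum h1
  rw [← sum_mul] at h3
  refine le_trans ?_ h3
  rw [mul_comm]
  exact mul_le_mul_of_nonneg_right (hit' S w) (by positivity)

theorem leaf_root_B (S : Setup m c' G χ Dc c Δ Lf) (hc : 1 / 2 < c) (hc1 : c < 1)
    (hcard : Fintype.card τ = Fintype.card V) (hn : 0 < Fintype.card V)
    (hδ : ∀ x, c * (Fintype.card V : ℝ) ≤ (G.degree x : ℝ))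
    (he : 0 ≤ e) (he1 : e ≤ (c - 1 / 2) / 4) (hLf : Lf ⊆ Dc.roots)
    (W : S.P → S.P → ℝ) (x z : V) :
    (c - 1 / 2) ^ 2 * (c * (c - 1 / 2) / 2 * (Lf.card : ℝ) - 2 * Δ * Real.log (Fintype.card V)) ≤
      ∑ ρ ∈ Lf, avP (fun y => (S.law W).g ρ y * ind (S.nb x ∩ S.nb z) y) := by
  classical
  have hP := P_pos S hcard hc hc1 hn he1
  have hn0 : (0 : ℝ) < (Fintype.card V : ℝ) := by exact_mod_cast hn
  have hα : 0 < c - 1 / 2 := by linarith
  set H : ℝ := c * (c - 1 / 2) / 2 * (Lf.card : ℝ) - 2 * Δ * Real.log (Fintype.card V) with hH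
  have h1 : ∀ ρ ∈ Lf, ∑ y ∈ S.nb x ∩ S.nb z, (c - 1 / 2) / (Fintype.card V : ℝ)
        * (if G.Adj (S.φ (Dc.ref ρ)) y.1 then (1 : ℝ) else 0)
      ≤ avP (fun y => (S.law W).g ρ y * ind (S.nb x ∩ S.nb z) y) := by
    intro ρ hρ
    have hs := ref_mem ρ (hLf hρ)
    have h2 : avP (fun y => (S.law W).g ρ y * ind (S.nb x ∩ S.nb z) y)
        = ∑ y : S.P, S.q (Dc.ref ρ) y.1 * ind (S.nb x ∩ S.nb z) y := by
      rw [← avP_mul S hP]
      congr 1
      ext y
      simp only [Setup.law]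
      ring
    rw [h2]
    calc _ ≤ ∑ y ∈ S.nb x ∩ S.nb z, S.q (Dc.ref ρ) y.1 * ind (S.nb x ∩ S.nb z) y := by
          refine sum_le_sum (fun y hy => ?_)
          have h3 : ind (S.nb x ∩ S.nb z) y = 1 := by
            unfold ind
            rw [if_pos hy]
          rw [h3, mul_one]
          split_ifs with ha
          · rw [mul_one]
            exact S.q_low _ hs y.1 ha
          · rw [mul_zero]
            exact (S.q_bd _ hs y.1).1.trans (S.q_bd _ hs y.1).2.1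
      _ ≤ _ := by
          refine sum_le_sum_of_subset_of_nonneg (subset_univ _) (fun y _ _ => ?_)
          exact mul_nonneg ((S.q_bd _ hs y.1).1.trans (S.q_bd _ hs y.1).2.1) (ind_nonneg _ y)
  have h4 := sum_le_sum h1
  rw [sum_comm] at h4
  refine le_trans ?_ h4
  have h5 : ∀ y ∈ S.nb x ∩ S.nb z, (c - 1 / 2) / (Fintype.card V : ℝ) * max H 0
      ≤ ∑ ρ ∈ Lf, (c - 1 / 2) / (Fintype.card V : ℝ)
        * (if G.Adj (S.φ (Dc.ref ρ)) y.1 then (1 : ℝ) else 0) := by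
    intro y hy
    rw [← mul_sum]
    have h6 := hit' S y.1
    have h7 : (0 : ℝ) ≤ ∑ ρ ∈ Lf, (if G.Adj (S.φ (Dc.ref ρ)) y.1 then (1 : ℝ) else 0) :=
      sum_nonneg (fun ρ _ => by split_ifs <;> norm_num)
    have h8 := max_le h6 h7
    gcongr
  refine le_trans ?_ (sum_le_sum h5)
  rw [sum_const, nsmul_eq_mul]
  have hcn := nb_card S hcard hδ he1 hc x z
  have hm0 : 0 ≤ max H 0 := le_max_right _ _
  calc (c - 1 / 2) ^ 2 * H ≤ (c - 1 / 2) ^ 2 * max H 0 := by
        have := le_max_left H 0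
        gcongr
    _ = ((c - 1 / 2) * (Fintype.card V : ℝ)) * ((c - 1 / 2) / (Fintype.card V : ℝ) * max H 0) := by
        field_simp
    _ ≤ ((S.nb x ∩ S.nb z).card : ℝ) * ((c - 1 / 2) / (Fintype.card V : ℝ) * max H 0) := by
        gcongr

end H38.Col2
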