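import Pool.Agent.H64.Col.G1_Main
import Pool.Agent.H38.Col2.E9_Embed

/-! G1: assembly for given error `ε`, locally `kb`-bounded colourings, explicit constant
`(c - 1/2)^2/1600` for the maximum degree, uniform in the second degree parameter `c'`. -/

namespace H38.Col2
open Finset H64.Col

open Classical in
theorem main_eps (c : ℝ) (hc : 1 / 2 < c) (hc1 : c < 1) (kb : ℕ) (hkb : 1 ≤ kb) (ε : ℝ)
    (hε : 0 < ε) : ∃ n0 : ℕ, ∀ c' : ℝ, c ≤ c' → c' ≤ 1 →
    ∀ (τ V κ : Type) [Fintype τ] [Fintype V] [Fintype κ] (G : SimpleGraph V) (χ : V → V → κ)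
      (T : SimpleGraph τ), T.IsTree →
      Fintype.card τ = Fintype.card V → n0 ≤ Fintype.card V →
      (∀ x, c' * (Fintype.card V : ℝ) ≤ (G.degree x : ℝ)) →
      (∀ x y, χ x y = χ y x) →
      LB G χ kb →
      (∀ v, (T.degree v : ℝ) ≤
        (c - 1 / 2) ^ 2 / 1600 * (Fintype.card V : ℝ) / Real.log (Fintype.card V)) →
      ∃ φ : τ → V, Function.Bijective φ ∧ (∀ u v, T.Adj u v → G.Adj (φ u) (φ v)) ∧
        (c' / (kb : ℝ) - ε) * (Fintype.card V : ℝ) ≤
          ((((univ : Finset (τ × τ)).filter (fun q => T.Adj q.1 q.2)).image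
            (fun q => χ (φ q.1) (φ q.2))).card : ℝ) := by
  obtain ⟨η, hη, hmain⟩ := nibble_embed c hc hc1
  obtain ⟨e1, he1, hmain⟩ := hmain (min ε η / 100) (by positivity)
  have hδpos : 0 < min ε η / 100 := by positivity
  have hδε : 100 * (min ε η / 100) ≤ ε := by
    have := min_le_left ε η
    linarith
  have hδη : 100 * (min ε η / 100) ≤ η := by
    have := min_le_right ε η
    linarith
  generalize min ε η / 100 = δ at hmain hδpos hδε hδη
  have hepos : 0 < min (min e1 δ) (1 / 1000) := by positivity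
  have hee1 : min (min e1 δ) (1 / 1000) ≤ e1 := (min_le_left _ _).trans (min_le_left _ _)
  have heδ : min (min e1 δ) (1 / 1000) ≤ δ := (min_le_left _ _).trans (min_le_right _ _)
  have he1000 : min (min e1 δ) (1 / 1000) ≤ 1 / 1000 := min_le_right _ _
  generalize min (min e1 δ) (1 / 1000) = e at hepos hee1 heδ he1000
  obtain ⟨K, n1, hdec⟩ := exists_decomp e hepos
  obtain ⟨n2, hmain⟩ := hmain e hepos hee1 K kb hkb
  obtain ⟨n3, hn3⟩ := exists_nat_gt (4 / η)
  refine ⟨max (max n1 n2) (max 1000 n3), ?_⟩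
  intro c' hcc hc'1 τ V κ _ _ _ G χ T hT hVτ hn hdeg hsym hprop hTd
  have hn1 : n1 ≤ Fintype.card V := ((le_max_left _ _).trans (le_max_left _ _)).trans hn
  have hn2 : n2 ≤ Fintype.card V := ((le_max_right _ _).trans (le_max_left _ _)).trans hn
  have hn1000 : 1000 ≤ Fintype.card V := ((le_max_left _ _).trans (le_max_right _ _)).trans hn
  have hn3' : n3 ≤ Fintype.card V := ((le_max_right _ _).trans (le_max_right _ _)).trans hn
  have h4η : 4 ≤ η * (Fintype.card V : ℝ) := by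
    have h1 : (n3 : ℝ) ≤ (Fintype.card V : ℝ) := by exact_mod_cast hn3'
    have h2 : 4 / η < (Fintype.card V : ℝ) := lt_of_lt_of_le hn3 h1
    rw [div_lt_iff₀ hη] at h2
    linarith
  obtain ⟨R⟩ := exists_rooted T hT
  obtain ⟨Dc⟩ := hdec τ T R (by rw [hVτ]; exact hn1)
  -- the bound for the number of unplaced vertices
  have hr : ∀ {Sl : Finset τ} {a : τ → τ} (E : Emb G χ Dc (c' / (kb : ℝ)) δ η Sl a),
      ((2 * ((Dc.C ∪ E.Fm)ᶜ).card : ℕ) : ℝ) + 2 ≤ η * (Fintype.card V : ℝ) := by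
    intro Sl a E
    have h2 := G1_unplaced Dc E.Fm E.FmF E.cardF
    rw [hVτ] at h2
    have hn0 : (0 : ℝ) ≤ Fintype.card V := Nat.cast_nonneg _
    have h5 : e * (Fintype.card V : ℝ) ≤ δ * (Fintype.card V : ℝ) := by gcongr
    have h6 : 100 * δ * (Fintype.card V : ℝ) ≤ η * (Fintype.card V : ℝ) := by gcongr
    have h7 : 0 ≤ δ * (Fintype.card V : ℝ) := by positivity
    push_cast
    nlinarith
  by_cases hleaf : (Fintype.card V : ℝ) / 200 ≤ ((leafF Dc).card : ℝ)
  · obtain ⟨E⟩ := hmain c' hcc hc'1 τ V κ G χ T R Dc hVτ hn2 hdeg hsym hprop hTd ∅ id (by simp)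
    refine G1_finish E hVτ heδ hδε (leafF Dc ∩ E.Fm) Finset.inter_subset_right
      (leaf_nb E (by omega) hT) ?_ (cp_leaf E _ (hr E) hleaf)
    intro u hu
    have h1 := (Finset.mem_filter.1 (Finset.mem_inter.1 hu).1).2
    have h2 : {b | T.Adj u b} ⊆ {Dc.ref u} := fun b hb => h1 b hb
    have h3 := Set.ncard_le_ncard h2 (Set.finite_singleton _)
    rw [Set.ncard_singleton] at h3
    omega
  · push Not at hleaf
    obtain ⟨Sl, a, hSl1, hSl2, hSl3⟩ := exists_bare hT Dc he1000 (by rw [hVτ]; exact hn1000)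
      (by rw [hVτ]; exact hleaf)
    rw [hVτ] at hSl1
    obtain ⟨E⟩ := hmain c' hcc hc'1 τ V κ G χ T R Dc hVτ hn2 hdeg hsym hprop hTd Sl a hSl2
    refine G1_finish E hVτ heδ hδε (Sl ∩ E.Fm) Finset.inter_subset_right
      (bare_nb E hSl2 hSl3) ?_ (cp_bare E _ (hr E) hSl2 hSl1)
    intro u hu
    have h1 := (hSl2 u (Finset.mem_inter.1 hu).1).2.2.2.2.2
    have h2 : {b | T.Adj u b} ⊆ {Dc.ref u, a u} := fun b hb => by
      rcases h1 b hb with h | h
      · exact Or.inl h
      · exact Or.inr h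
    have h3 := Set.ncard_le_ncard h2 (Set.toFinite _)
    refine h3.trans ?_
    have h4 := Set.ncard_insert_le (Dc.ref u) ({a u} : Set τ)
    rw [Set.ncard_singleton] at h4
    exact h4

end H38.Col2
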