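import Pool.Agent.H38.Col2.G1_Main
import Pool.Agent.H64.Col.G2_Final

/-! G2: the final theorems for locally `k`-bounded colourings: large `n` with an explicit constant
(`large`), all `n` with `d` depending only on `ε` (`uniform`), and sharpness (`sharp`). -/

namespace H38.Col2
open Finset H64.Col

open Classical in
/-- large `n`, explicit constant -/
theorem large (c : ℝ) (hc : 1 / 2 < c) (hc1 : c < 1) (k : ℕ) (hk : 1 ≤ k) (ε : ℝ) (hε : 0 < ε) :
    ∃ n0 : ℕ, ∀ n : ℕ, n0 ≤ n → ∀ (δ : ℕ) (G : SimpleGraph (Fin n)), c * n ≤ (δ : ℝ) →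
    (∀ v, δ ≤ G.degree v) →
    ∀ T : SimpleGraph (Fin n), T.IsTree →
    (∀ v, (T.degree v : ℝ) ≤ (c - 1 / 2) ^ 2 / 1600 * n / Real.log n) →
    ∀ col : Sym2 (Fin n) → ℕ,
      (∀ x j, ((univ : Finset (Fin n)).filter (fun y => G.Adj x y ∧ col s(x, y) = j)).card ≤ k) →
    ∃ φ : Equiv.Perm (Fin n), (∀ u v, T.Adj u v → G.Adj (φ u) (φ v)) ∧
      (δ : ℝ) / k - ε * n ≤ ((T.edgeFinset.image (fun q => col (q.map φ))).card : ℝ) := by
  obtain ⟨n0, h0⟩ := main_eps c hc hc1 k hk ε hε
  refine ⟨n0, fun n hn δ G hδ hG T hT hTd col hcol => ?_⟩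
  obtain ⟨v0⟩ := hT.connected.nonempty
  have hnpos : (0 : ℝ) < n := by
    have : 0 < n := Fin.pos v0
    exact_mod_cast this
  have hk0 : (0 : ℝ) < k := by exact_mod_cast (by omega : 0 < k)
  let κ : Type := {j : ℕ // j ∈ (univ : Finset (Sym2 (Fin n))).image col}
  let χ : Fin n → Fin n → κ := fun x y =>
    ⟨col s(x, y), Finset.mem_image.2 ⟨s(x, y), Finset.mem_univ _, rfl⟩⟩
  have hc'1 : (δ : ℝ) / n ≤ 1 := by
    rw [div_le_one hnpos]
    have h1 := hG v0
    have h2 := G.degree_lt_card_verts v0
    rw [Fintype.card_fin] at h2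
    exact_mod_cast (by omega : δ ≤ n)
  have hmn := h0 ((δ : ℝ) / n) (by rw [le_div_iff₀ hnpos]; exact hδ) hc'1 (Fin n) (Fin n) κ G χ T hT
    rfl (by rw [Fintype.card_fin]; exact hn)
    (by
      intro x
      rw [Fintype.card_fin, div_mul_cancel₀ _ hnpos.ne']
      exact_mod_cast hG x)
    (by
      intro x y
      apply Subtype.ext
      change col s(x, y) = col s(y, x)
      rw [Sym2.eq_swap])
    (by
      intro x S hS hS2
      rcases S.eq_empty_or_nonempty with rfl | ⟨y0, hy0⟩
      · simp
      · refine le_trans (Finset.card_le_card ?_) (hcol x (col s(x, y0)))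
        intro y hy
        rw [Finset.mem_filter]
        exact ⟨Finset.mem_univ _, hS y hy, congrArg Subtype.val (hS2 y hy y0 hy0)⟩)
    (by
      intro v
      rw [Fintype.card_fin]
      exact hTd v)
  obtain ⟨φ, hφ, hhom, hcard⟩ := hmn
  refine ⟨Equiv.ofBijective φ hφ, hhom, ?_⟩
  have h6 := G2_colours T col (Equiv.ofBijective φ hφ) κ χ Subtype.val Subtype.val_injective
    (fun x y => rfl)
  refine le_trans ?_ (le_trans hcard ?_)
  · rw [Fintype.card_fin]
    apply le_of_eq
    field_simp
  · exact h6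

open Classical in
/-- all `n`, `d` depends only on `ε` -/
theorem uniform (ε : ℝ) (hε : 0 < ε) :
    ∃ d : ℝ, 0 < d ∧ ∀ k : ℕ, 1 ≤ k → ∃ f : ℕ → ℝ,
      Filter.Tendsto (fun n : ℕ => f n / (n : ℝ)) Filter.atTop (nhds 0) ∧
    ∀ (n δ : ℕ) (G : SimpleGraph (Fin n)), (1 / 2 + ε) * n ≤ (δ : ℝ) →
    (∀ v, δ ≤ G.degree v) →
    ∀ T : SimpleGraph (Fin n), T.IsTree → (∀ v, (T.degree v : ℝ) ≤ d * n / Real.log n) →
    ∀ col : Sym2 (Fin n) → ℕ,
      (∀ x j, ((univ : Finset (Fin n)).filter (fun y => G.Adj x y ∧ col s(x, y) = j)).card ≤ k) →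
    ∃ φ : Equiv.Perm (Fin n), (∀ u v, T.Adj u v → G.Adj (φ u) (φ v)) ∧
      (δ : ℝ) / k - f n ≤ ((T.edgeFinset.image (fun q => col (q.map φ))).card : ℝ) := by
  set c : ℝ := 1 / 2 + min ε (1 / 4) with hcdef
  have hm0 : 0 < min ε (1 / 4) := by positivity
  have hm1 : min ε (1 / 4) ≤ 1 / 4 := min_le_right _ _
  have hm2 : min ε (1 / 4) ≤ ε := min_le_left _ _
  have hc : 1 / 2 < c := by linarith
  have hc1 : c < 1 := by linarith
  obtain ⟨N1, hN1⟩ := large c hc hc1 1 le_rfl 1 one_pos
  have hα : 0 < c - 1 / 2 := by linarith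
  refine ⟨min ((c - 1 / 2) ^ 2 / 1600) (1 / ((N1 : ℝ) + 1)), by positivity, fun k hk => ?_⟩
  choose N hN using fun j : ℕ => large c hc hc1 k hk (1 / ((j : ℝ) + 1)) (by positivity)
  obtain ⟨kk, hk1, hk2⟩ := G2_diag N
  refine ⟨fun n => if N 0 ≤ n then n / ((kk n : ℝ) + 1) else n, ?_, ?_⟩
  · have h1 : Filter.Tendsto (fun n => 1 / ((kk n : ℝ) + 1)) Filter.atTop (nhds 0) :=
      (tendsto_one_div_add_atTop_nhds_zero_nat (𝕜 := ℝ)).comp hk2
    refine h1.congr' ?_
    filter_upwards [Filter.eventually_gt_atTop 0, Filter.eventually_ge_atTop (N 0)] with n hn hn2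
    have hn' : (n : ℝ) ≠ 0 := by exact_mod_cast hn.ne'
    rw [if_pos hn2]
    field_simp
  · intro n δ G hδ hG T hT hTd col hcol
    obtain ⟨v0⟩ := hT.connected.nonempty
    have hnpos : (0 : ℝ) < n := by
      have : 0 < n := Fin.pos v0
      exact_mod_cast this
    have hdeg := hG v0
    have hlt := G.degree_lt_card_verts v0
    rw [Fintype.card_fin] at hlt
    have hδn : (δ : ℝ) + 1 ≤ n := by exact_mod_cast (by omega : δ + 1 ≤ n)
    have hcδ : c * n ≤ (δ : ℝ) := by nlinarith
    have hn3 : 3 ≤ n := by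
      by_contra hlt'
      have h3 : n ≤ 2 := by omega
      have h4 : (n : ℝ) ≤ 2 := by exact_mod_cast h3
      nlinarith
    have hn3' : (3 : ℝ) ≤ n := by exact_mod_cast hn3
    have hlog : 1 ≤ Real.log n := by
      rw [Real.le_log_iff_exp_le hnpos]
      have := Real.exp_one_lt_d9
      linarith
    have hTd' : ∀ v, (T.degree v : ℝ) ≤ (c - 1 / 2) ^ 2 / 1600 * n / Real.log n := by
      intro v
      refine (hTd v).trans ?_
      have h5 : (0 : ℝ) < Real.log n := by linarith
      gcongr
      exact min_le_left _ _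
    have hk0 : (1 : ℝ) ≤ k := by exact_mod_cast hk
    by_cases hn0 : N 0 ≤ n
    · obtain ⟨φ, h1, h2⟩ := hN (kk n) n (hk1 n hn0) δ G hcδ hG T hT hTd' col hcol
      refine ⟨φ, h1, le_trans (le_of_eq ?_) h2⟩
      beta_reduce
      rw [if_pos hn0]
      have : ((kk n : ℝ) + 1) ≠ 0 := by positivity
      field_simp
    · by_cases hn1 : N1 ≤ n
      · -- any copy will do
        obtain ⟨φ, h1, _⟩ := hN1 n hn1 δ G hcδ hG T hT hTd'
          (fun q => (Fintype.equivFin (Sym2 (Fin n)) q : ℕ)) (by
            intro x j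
            rw [Finset.card_le_one]
            intro y hy z hz
            rw [Finset.mem_filter] at hy hz
            have h3 : s(x, y) = s(x, z) := by
              apply (Fintype.equivFin (Sym2 (Fin n))).injective
              apply Fin.ext
              rw [hy.2.2, hz.2.2]
            rw [Sym2.eq_iff] at h3
            rcases h3 with h3 | h3
            · exact h3.2
            · rw [h3.2, ← h3.1])
        refine ⟨φ, h1, le_trans ?_ (Nat.cast_nonneg _)⟩
        beta_reduce
        rw [if_neg hn0]
        have h3 : (δ : ℝ) / k ≤ δ := div_le_self (Nat.cast_nonneg _) hk0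
        linarith
      · exfalso
        -- all degrees vanish
        have h3 := hTd v0
        have h4 : (T.degree v0 : ℝ) < 1 := by
          refine lt_of_le_of_lt h3 ?_
          rw [div_lt_one (by linarith)]
          refine lt_of_lt_of_le ?_ hlog
          have h5 : min ((c - 1 / 2) ^ 2 / 1600) (1 / ((N1 : ℝ) + 1)) * n ≤
              (1 / ((N1 : ℝ) + 1)) * n := by
            gcongr
            exact min_le_right _ _
          refine lt_of_le_of_lt h5 ?_
          have h6 : (n : ℝ) < (N1 : ℝ) + 1 := by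
            have : n < N1 + 1 := by omega
            exact_mod_cast this
          rw [one_div, inv_mul_lt_iff₀ (by positivity), mul_one]
          exact h6
        have h5 : T.degree v0 = 0 := by
          have : T.degree v0 < 1 := by exact_mod_cast h4
          omega
        have h6 : Nontrivial (Fin n) := by
          rw [← Fintype.one_lt_card_iff_nontrivial, Fintype.card_fin]
          omega
        have h7 := hT.connected.preconnected.degree_pos_of_nontrivial v0
        omega

/-- sharpness: few colours in total -/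
theorem sharp (k n s : ℕ) (hk : 1 ≤ k) (hs : s ≤ n) :
    ∃ (G : SimpleGraph (Fin n)) (col : Sym2 (Fin n) → ℕ),
      (∀ v, s ≤ (G.neighborSet v).ncard + 1) ∧
      (∀ x j, {y | G.Adj x y ∧ col s(x, y) = j}.ncard ≤ k) ∧
      {j | ∃ x y, G.Adj x y ∧ col s(x, y) = j}.ncard ≤ (s + k - 1) / k := by
  classical
  let G : SimpleGraph (Fin n) :=
    { Adj := fun x y => x ≠ y ∧ (x.val + y.val) % n < s
      symm := ⟨fun x y h => ⟨h.1.symm, by rw [add_comm]; exact h.2⟩⟩
      loopless := ⟨fun x h => h.1 rfl⟩ }
  let col : Sym2 (Fin n) → ℕ := Sym2.lift ⟨fun x y => (x.val + y.val) % n / k, fun x y => by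
    beta_reduce
    rw [add_comm]⟩
  have hcol : ∀ x y : Fin n, col s(x, y) = (x.val + y.val) % n / k := fun x y => rfl
  have hinj : ∀ x y z : Fin n, (x.val + y.val) % n = (x.val + z.val) % n → y = z := by
    intro x y z h
    have h1 : y.val ≡ z.val [MOD n] := Nat.ModEq.add_left_cancel' x.val h
    have h2 := Nat.ModEq.eq_of_lt_of_lt h1 y.2 z.2
    exact Fin.ext h2
  refine ⟨G, col, fun x => ?_, fun x j => ?_, ?_⟩
  · -- degrees
    have hn : 0 < n := Fin.pos x
    let g : ℕ → Fin n := fun t => ⟨(t + (n - x.val)) % n, Nat.mod_lt _ hn⟩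
    have hg : ∀ t < s, (x.val + (g t).val) % n = t := by
      intro t ht
      have h1 : (x.val + (t + (n - x.val)) % n) % n = (x.val + (t + (n - x.val))) % n := by
        rw [Nat.add_mod_mod]
      change (x.val + (t + (n - x.val)) % n) % n = t
      rw [h1]
      have h2 : x.val + (t + (n - x.val)) = t + n := by
        have := x.2
        omega
      rw [h2, Nat.add_mod_right, Nat.mod_eq_of_lt (by omega)]
    have h1 : (((Finset.range s).image g).erase x : Finset (Fin n)).card ≤
        (G.neighborSet x).ncard := by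
      rw [← Set.ncard_coe_finset]
      apply Set.ncard_le_ncard _ (Set.toFinite _)
      intro y hy
      rw [Finset.mem_coe, Finset.mem_erase, Finset.mem_image] at hy
      obtain ⟨hyx, t, ht, rfl⟩ := hy
      refine ⟨fun h => hyx h.symm, ?_⟩
      change (x.val + (g t).val) % n < s
      rw [hg t (Finset.mem_range.1 ht)]
      exact Finset.mem_range.1 ht
    have h2 : ((Finset.range s).image g).card = s := by
      rw [Finset.card_image_of_injOn, Finset.card_range]
      intro t ht t' ht' h
      rw [Finset.mem_coe, Finset.mem_range] at ht ht'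
      have h3 := hg t ht
      rw [h, hg t' ht'] at h3
      exact h3.symm
    have h3 := Finset.pred_card_le_card_erase (s := (Finset.range s).image g) (a := x)
    omega
  · -- local bound
    have h1 : {y | G.Adj x y ∧ col s(x, y) = j} ⊆
        (((univ : Finset (Fin n)).filter (fun y => (x.val + y.val) % n / k = j) :
          Finset (Fin n)) : Set (Fin n)) := by
      intro y hy
      rw [Finset.mem_coe, Finset.mem_filter]
      exact ⟨Finset.mem_univ _, hy.2⟩
    refine (Set.ncard_le_ncard h1 (Finset.finite_toSet _)).trans ?_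
    rw [Set.ncard_coe_finset]
    have h2 : ((univ : Finset (Fin n)).filter (fun y => (x.val + y.val) % n / k = j)).card ≤
        (Finset.Ico (j * k) (j * k + k)).card := by
      apply Finset.card_le_card_of_injOn (fun y => (x.val + y.val) % n)
      · intro y hy
        rw [Finset.mem_coe, Finset.mem_filter] at hy
        rw [Finset.mem_coe, Finset.mem_Ico]
        have h3 := hy.2
        have h4 := Nat.div_add_mod ((x.val + y.val) % n) k
        have h5 := Nat.mod_lt ((x.val + y.val) % n) (by omega : 0 < k)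
        rw [h3] at h4
        rw [mul_comm j k]
        dsimp only
        omega
      · intro y _ z _ h
        exact hinj x y z h
    rw [Nat.card_Ico] at h2
    omega
  · -- total number of colours
    have h1 : {j | ∃ x y, G.Adj x y ∧ col s(x, y) = j} ⊆
        ((Finset.range ((s + k - 1) / k) : Finset ℕ) : Set ℕ) := by
      rintro j ⟨x, y, hxy, rfl⟩
      rw [Finset.mem_coe, Finset.mem_range, hcol]
      have h2 : (x.val + y.val) % n < s := hxy.2
      rw [Nat.div_lt_iff_lt_mul (by omega)]
      have h3 := Nat.div_add_mod (s + k - 1) k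
      have h4 := Nat.mod_lt (s + k - 1) (by omega : 0 < k)
      rw [mul_comm k] at h3
      omega
    refine (Set.ncard_le_ncard h1 (Finset.finite_toSet _)).trans ?_
    rw [Set.ncard_coe_finset, Finset.card_range]

end H38.Col2
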